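import Pool.Agent.H52.W.CG2.Stubs

/-!
# Few bad discriminants, in the weighted sense
-/

set_option autoImplicit false

namespace Pool.Agent.H52.W.CG2

variable [Lam]

open Finset Filter NumberField Pool.Agent.H38R2.CG
open scoped Classical

namespace AS0h

/-- Cauchy-Schwarz -/
lemma cs {ι : Type} (s : Finset ι) (r f g : ι → ℝ) (hf : ∀ i ∈ s, 0 ≤ f i)
    (hg : ∀ i ∈ s, 0 ≤ g i) (h : ∀ i ∈ s, r i ^ 2 ≤ f i * g i) :
    (∑ i ∈ s, r i) ^ 2 ≤ (∑ i ∈ s, f i) * ∑ i ∈ s, g i := by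
  have h1 : |∑ i ∈ s, r i| ≤ ∑ i ∈ s, √(f i) * √(g i) := by
    refine (abs_sum_le_sum_abs _ _).trans (sum_le_sum fun i hi => ?_)
    rw [← Real.sqrt_mul (hf i hi), ← Real.sqrt_sq_eq_abs]
    exact Real.sqrt_le_sqrt (h i hi)
  have h2 := sum_mul_sq_le_sq_mul_sq s (fun i => √(f i)) (fun i => √(g i))
  have h3 : ∑ i ∈ s, √(f i) ^ 2 = ∑ i ∈ s, f i :=
    sum_congr rfl fun i hi => Real.sq_sqrt (hf i hi)
  have h4 : ∑ i ∈ s, √(g i) ^ 2 = ∑ i ∈ s, g i :=
    sum_congr rfl fun i hi => Real.sq_sqrt (hg i hi)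
  simp only [h3, h4] at h2
  calc (∑ i ∈ s, r i) ^ 2 = |∑ i ∈ s, r i| ^ 2 := (sq_abs _).symm
    _ ≤ (∑ i ∈ s, √(f i) * √(g i)) ^ 2 := pow_le_pow_left₀ (abs_nonneg _) h1 2
    _ ≤ _ := h2

lemma chi_le (D : ℤ) (n : ℕ) : chi D n ≤ 1 := by
  unfold chi
  have h2 : chi2 D = 1 ∨ chi2 D = -1 ∨ chi2 D = 0 := by
    unfold chi2
    split_ifs <;> simp
  have h3 : |chi2 D ^ padicValNat 2 n| ≤ 1 := by
    rw [abs_pow]
    apply pow_le_one₀ (abs_nonneg _)
    rcases h2 with h | h | h <;> rw [h] <;> norm_num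
  have h4 : |jacobiSym D (n / 2 ^ padicValNat 2 n)| ≤ 1 := by
    rcases jacobiSym.trichotomy D (n / 2 ^ padicValNat 2 n) with h | h | h <;> rw [h] <;> norm_num
  have h5 : |chi2 D ^ padicValNat 2 n * jacobiSym D (n / 2 ^ padicValNat 2 n)| ≤ 1 := by
    rw [abs_mul]
    exact mul_le_one₀ h3 (abs_nonneg _) h4
  exact (le_abs_self _).trans h5

lemma PiR_pos (z r : ℕ) : 0 < PiR z r := by
  unfold PiR
  apply prod_pos
  intro l hl
  have hl' : l.Prime := (mem_filter.1 hl).2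
  have h1 : (chi r l : ℝ) ≤ 1 := by exact_mod_cast chi_le r l
  have h2 : (2:ℝ) ≤ l := by exact_mod_cast hl'.two_le
  have h3 : (chi r l : ℝ) / l ≤ 1 / 2 := by
    rw [div_le_div_iff₀ (by linarith) (by norm_num)]
    linarith
  linarith

lemma phi_nonneg (t : ℝ) : 0 ≤ phi t := le_max_left _ _

lemma Rsum_nonneg (D n : ℕ) : 0 ≤ Rsum D n := by
  unfold Rsum
  refine sum_nonneg fun u _ => sum_nonneg fun v _ => ?_
  split_ifs
  · exact phi_nonneg _
  · exact le_rfl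

lemma SD_nonneg (D : ℕ) (S : Finset (Finset ℕ)) : 0 ≤ SD D S (fun _ => 1) := by
  unfold SD
  refine sum_nonneg fun s _ => sum_nonneg fun t _ => ?_
  have := Rsum_nonneg D (prodS s * prodS t)
  positivity

/-- the real analysis part -/
lemma final (t C0z z4 sq W N P M A b Mb wB : ℝ) (ht : 0 < t) (ht1 : t ≤ 1 / 10)
    (hC : 0 ≤ C0z) (hC0 : C0z ≤ t ^ 2) (hz4 : z4 ≤ t ^ 2) (hz0 : 0 ≤ z4)
    (hsq : 1 ≤ sq) (hsq1 : sq ≤ 1 + t ^ 2)
    (hW : 0 < W) (hN : 0 < N)
    (hM : (1 - t ^ 2 - C0z) * W * N ≤ M)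
    (hA : P * A ≤ (1 + t ^ 2) * (1 + z4) * W)
    (hMA : M ^ 2 ≤ sq * (1 + t ^ 2) * W * (P * (A - b / 2)) * N ^ 2)
    (hMb : Mb ^ 2 ≤ sq * (1 + t ^ 2) * W * (P * (b / 2)) * N ^ 2)
    (hwB : (1 - t ^ 2) * N * (wB - t ^ 2 * W) ≤ Mb) : wB ≤ 4 * t * W := by
  have ht2 : t ^ 2 ≤ 1 / 100 := by nlinarith
  have ht20 : 0 < t ^ 2 := by positivity
  set κ := t ^ 2 with hκ
  -- lower bound for P (A - b/2)
  have h1 : (1 - 2 * κ) ^ 2 * W ^ 2 * N ^ 2 ≤ M ^ 2 := by
    have h2 : (1 - 2 * κ) * W * N ≤ M := by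
      refine le_trans ?_ hM
      have hk : 1 - 2 * κ ≤ 1 - κ - C0z := by linarith
      exact mul_le_mul_of_nonneg_right (mul_le_mul_of_nonneg_right hk hW.le) hN.le
    have h3 : 0 ≤ (1 - 2 * κ) * W * N := by
      have : 0 ≤ 1 - 2 * κ := by linarith
      positivity
    calc (1 - 2 * κ) ^ 2 * W ^ 2 * N ^ 2 = ((1 - 2 * κ) * W * N) ^ 2 := by ring
      _ ≤ M ^ 2 := pow_le_pow_left₀ h3 h2 2
  have h4 : (1 - 2 * κ) ^ 2 * W ≤ sq * (1 + κ) * (P * (A - b / 2)) := by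
    have h5 : W * N ^ 2 * ((1 - 2 * κ) ^ 2 * W) ≤ W * N ^ 2 * (sq * (1 + κ) * (P * (A - b / 2))) := by
      nlinarith
    exact le_of_mul_le_mul_left h5 (by positivity)
  -- set y = P (A - b/2) / W etc.
  have hsqk : sq * (1 + κ) ≤ (1 + κ) ^ 2 := by nlinarith
  have hsqk0 : 0 < sq * (1 + κ) := by positivity
  have hy0 : 0 ≤ P * (A - b / 2) := by
    by_contra hneg
    push Not at hneg
    have : sq * (1 + κ) * (P * (A - b / 2)) < 0 := mul_neg_of_pos_of_neg hsqk0 hneg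
    have h6 : 0 ≤ (1 - 2 * κ) ^ 2 * W := by positivity
    linarith
  have h7 : (1 - 2 * κ) ^ 2 * W ≤ (1 + κ) ^ 2 * (P * (A - b / 2)) :=
    h4.trans (mul_le_mul_of_nonneg_right hsqk hy0)
  have h8 : P * (A - b / 2) = P * A - P * (b / 2) := by ring
  have hA' : P * A ≤ (1 + κ) ^ 2 * W := by
    refine hA.trans ?_
    have : (1 + κ) * (1 + z4) ≤ (1 + κ) ^ 2 := by nlinarith
    exact mul_le_mul_of_nonneg_right this hW.le
  have h9 : P * (b / 2) ≤ 9 * κ * W := by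
    rw [h8] at h7
    have h10 : (1 + κ) ^ 2 * (P * (b / 2)) ≤ ((1 + κ) ^ 4 - (1 - 2 * κ) ^ 2) * W := by
      have := mul_le_mul_of_nonneg_left hA' (show 0 ≤ (1 + κ) ^ 2 by positivity)
      nlinarith
    have h11 : (1 + κ) ^ 4 - (1 - 2 * κ) ^ 2 ≤ 9 * κ := by
      have e : (1 + κ) ^ 4 - (1 - 2 * κ) ^ 2 = 8 * κ + 2 * κ ^ 2 + 4 * κ ^ 3 + κ ^ 4 := by ring
      rw [e]
      have k2 : κ ^ 2 ≤ κ / 100 := by nlinarith
      have k3 : κ ^ 3 ≤ κ / 100 := by
        have : κ ^ 3 = κ ^ 2 * κ := by ring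
        nlinarith
      have k4 : κ ^ 4 ≤ κ / 100 := by
        have : κ ^ 4 = κ ^ 2 * κ ^ 2 := by ring
        nlinarith
      linarith
    by_contra hcon
    push Not at hcon
    have h12 : 9 * κ * W < (1 + κ) ^ 2 * (P * (b / 2)) := by
      have h13 : 0 < P * (b / 2) := lt_trans (by positivity) hcon
      have h14 : 1 ≤ (1 + κ) ^ 2 := by nlinarith
      nlinarith
    have h15 := mul_le_mul_of_nonneg_right h11 hW.le
    linarith
  have h16 : Mb ^ 2 ≤ ((1 + κ) * (3 * t) * W * N) ^ 2 := by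
    refine hMb.trans ?_
    have h17 : sq * (1 + κ) * W * (P * (b / 2)) * N ^ 2 ≤
        (1 + κ) ^ 2 * W * (9 * κ * W) * N ^ 2 := by
      have h18 : sq * (1 + κ) * W * (P * (b / 2)) ≤ sq * (1 + κ) * W * (9 * κ * W) :=
        mul_le_mul_of_nonneg_left h9 (by positivity)
      have h19 : sq * (1 + κ) * W * (9 * κ * W) ≤ (1 + κ) ^ 2 * W * (9 * κ * W) := by
        have := mul_le_mul_of_nonneg_right hsqk (show 0 ≤ W * (9 * κ * W) by positivity)
        linarith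
      exact mul_le_mul_of_nonneg_right (h18.trans h19) (by positivity)
    refine h17.trans (le_of_eq ?_)
    rw [hκ]; ring
  have h20 : Mb ≤ (1 + κ) * (3 * t) * W * N := by
    have := abs_le_of_sq_le_sq h16 (by positivity)
    exact (le_abs_self _).trans this
  have h21 : (1 - κ) * (wB - κ * W) ≤ (1 + κ) * (3 * t) * W := by
    have h22 : N * ((1 - κ) * (wB - κ * W)) ≤ N * ((1 + κ) * (3 * t) * W) := by nlinarith
    exact le_of_mul_le_mul_left h22 hN
  by_contra hcon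
  push Not at hcon
  have hkt : κ ≤ t / 10 := by rw [hκ]; nlinarith
  have h23 : (4 * t - κ) * W < wB - κ * W := by linarith
  have h24 : (1 - κ) * ((4 * t - κ) * W) < (1 + κ) * (3 * t) * W :=
    lt_of_lt_of_le (mul_lt_mul_of_pos_left h23 (by linarith)) h21
  have h25 : (1 - κ) * (4 * t - κ) < (1 + κ) * (3 * t) := by
    have : ((1 - κ) * (4 * t - κ)) * W < ((1 + κ) * (3 * t)) * W := by linarith
    exact lt_of_mul_lt_mul_right this hW.le
  nlinarith

end AS0h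

open AS0h in
theorem T2_AS0 : P_NF → P2_NB → P2_WT → P2_V0 → P2_LM → P2_M1L → P2_MLOW → P2_TM → P2_AS0 := by
  intro hNF hNB hWT _ hLM hM1L hMLOW hTM a ha C0 hC0 ε hε
  set t : ℝ := min (1 / 10) (ε / 4) with ht
  have ht0 : 0 < t := lt_min (by norm_num) (by linarith)
  have ht1 : t ≤ 1 / 10 := min_le_left _ _
  have ht4 : 4 * t ≤ ε := by have := min_le_right (1 / 10) (ε / 4); linarith
  have ht20 : 0 < t ^ 2 := by positivity
  refine ⟨⌈(4 + 2 * (C0:ℝ)) / t ^ 2⌉₊ + 2, fun z hz => ?_⟩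
  have hz2 : 2 ≤ z := by omega
  have hzr : (4 + 2 * (C0:ℝ)) / t ^ 2 ≤ z :=
    (Nat.le_ceil _).trans (by exact_mod_cast (show ⌈(4 + 2 * (C0:ℝ)) / t ^ 2⌉₊ ≤ z by omega))
  have hz0 : (0:ℝ) < z := by exact_mod_cast (show 0 < z by omega)
  have hz4 : 4 / (z:ℝ) ≤ t ^ 2 := by
    rw [div_le_iff₀ ht20] at hzr
    rw [div_le_iff₀ hz0]
    have : (0:ℝ) ≤ C0 := Nat.cast_nonneg _
    linarith
  have hzC : 2 * (C0:ℝ) / z ≤ t ^ 2 := by
    rw [div_le_iff₀ ht20] at hzr
    rw [div_le_iff₀ hz0]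
    linarith
  refine ⟨t ^ 2, ht20, fun η hη0 hη1 r hr => ?_⟩
  have hη : η ≤ 1 := by nlinarith
  obtain ⟨X1, hX1⟩ := hLM a ha z r hz2 hr η hη0 hη C0 hC0 (t ^ 2) ht20
  obtain ⟨X2, hX2⟩ := hM1L a ha z r hz2 hr η hη0 hη C0 hC0 (t ^ 2) ht20
  obtain ⟨X3, hX3⟩ := hMLOW a ha z r hr η hη0 hη C0 hC0 (t ^ 2) ht20
  obtain ⟨X4, hX4⟩ := hTM a ha z r hz2 hr η hη0 hη C0 hC0 (t ^ 2) ht20
  obtain ⟨X5, hX5⟩ := hNB a ha 1 one_pos
  have hyA : Tendsto (yA a) atTop atTop := by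
    unfold yA
    apply tendsto_nat_floor_atTop.comp
    apply Tendsto.atTop_div_const (by norm_num)
    exact (tendsto_rpow_atTop (by linarith)).comp
      (Real.tendsto_log_atTop.comp tendsto_natCast_atTop_atTop)
  obtain ⟨X6, hX6⟩ := (tendsto_atTop.1 hyA 2).exists_forall_of_atTop
  refine ⟨X1 + X2 + X3 + X4 + X5 + X6 + 3, fun X hX ρ hρ => ?_⟩
  have hX0 : 3 ≤ X := by omega
  have hXr : (3:ℝ) ≤ X := by exact_mod_cast hX0
  have hXpos : (0:ℝ) < X := by linarith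
  have hQ : (0:ℝ) < (Qz z : ℝ) := by
    have : 0 < Qz z := by
      unfold Qz
      apply Nat.mul_pos (by norm_num)
      apply prod_pos
      intro l hl
      exact pow_pos (mem_filter.1 hl).2.pos 2
    exact_mod_cast this
  have hcc : cc a ≤ 1 := by
    have h32 := cclt (a := a) (by assumption)
    linarith
  have hlog : 0 < Real.log X := Real.log_pos (by linarith)
  have hG : 0 < GG X ρ := lt_of_lt_of_le (by positivity) hρ.low
  set W := WW z X η ρ with hWdef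
  have hW : 0 < W := by rw [hWdef]; unfold WW; positivity
  set N := NA a X with hN
  have hN0 : 0 < N := lt_of_lt_of_le (by positivity) (hX5 X (by omega)).2.1
  have hP := PiR_pos z r
  set S := SA a X with hS
  -- members of the family
  have hprime : ∀ s ∈ S, ∀ p ∈ s, p.Prime ∧ p ≠ 2 ∧ (p : ℝ) ≤ (Real.log X) ^ a / 2 := by
    intro s hs p hp
    have hs' := (mem_powersetCard.1 hs).1 hp
    simp only [PA, PP, mem_filter, mem_Ioc] at hs'
    have hy := hX6 X (by omega)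
    refine ⟨hs'.2, by omega, ?_⟩
    have h1 : (p : ℝ) ≤ 2 * (yA a X : ℝ) := by exact_mod_cast hs'.1.2
    have h2 : (yA a X : ℝ) ≤ (Real.log X) ^ a / 4 := Nat.floor_le (by positivity)
    linarith
  have hmem : ∀ D ∈ FD z r X η, IsFund D ∧ 1 ≤ D ∧ (D:ℝ) ≤ (1 + η) * X ∧ D ∈ DD z r X η := by
    intro D hD
    have h1 := (mem_filter.1 hD)
    have h2 := h1.1
    simp only [DD, mem_filter, mem_Ioc] at h2
    refine ⟨h1.2, by omega, ?_, h1.1⟩
    exact (Nat.le_floor_iff' (by omega)).1 h2.1.2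
  have hwD : ∀ D ∈ DD z r X η, 0 ≤ wt ρ D := by
    intro D hD
    simp only [DD, mem_filter, mem_Ioc] at hD
    exact (hWT z X (PA a X) (cc a) C0 ρ (by omega) hcc hρ D (by omega)).1
  have hw : ∀ D ∈ FD z r X η, 0 ≤ wt ρ D := fun D hD => hwD D (hmem D hD).2.2.2
  have hL : ∀ D ∈ FD z r X η, 0 ≤ Lone D := fun D hD => (hNF D (hmem D hD).1).1
  set M : ℕ → ℝ := fun D => MD D S (fun _ => 1) with hMdef
  set SS : ℕ → ℝ := fun D => SD D S (fun _ => 1) with hSSdef
  have hSS : ∀ D, 0 ≤ SS D := fun D => SD_nonneg D S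
  have hin1 : ∀ D ∈ FD z r X η, (M D) ^ 2 ≤ 2 * √(D : ℝ) * Lone D * SS D := by
    intro D hD
    exact (hNF D (hmem D hD).1).2.1 S (fun _ => 1) fun s hs =>
      ⟨zero_le_one, fun p hp => ⟨(hprime s hs p hp).1, (hprime s hs p hp).2.1⟩⟩
  have hin2 : ∀ D ∈ FD z r X η, BadA a X D → 2 * (M D) ^ 2 ≤ 2 * √(D : ℝ) * Lone D * SS D := by
    intro D hD hB
    exact (hNF D (hmem D hD).1).2.2 _ hB S (fun _ => 1) fun s hs =>
      ⟨zero_le_one, fun p hp => hprime s hs p hp⟩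
  set B := (FD z r X η).filter (fun D => BadA a X D) with hB
  set T : ℝ := √((1 + η) * X) with hT
  have hsqrtD : ∀ D ∈ FD z r X η, √(D : ℝ) ≤ T := fun D hD =>
    Real.sqrt_le_sqrt (hmem D hD).2.2.1
  set A := ∑ D ∈ FD z r X η, wt ρ D * Lone D with hA
  set b := ∑ D ∈ B, wt ρ D * Lone D with hb
  have hTM' := hX4 X (by omega) ρ hρ
  have hSSsum : ∑ D ∈ FD z r X η, wt ρ D * SS D ≤
      (1 + t ^ 2) * (PiR z r / (2 * Qz z)) * GG X ρ * η * √(X : ℝ) * N ^ 2 := by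
    refine le_trans ?_ hTM'
    exact sum_le_sum_of_subset_of_nonneg (filter_subset _ _) fun D hD _ =>
      mul_nonneg (hwD D hD) (hSS D)
  have hTX : T * √(X : ℝ) = √(1 + η) * X := by
    rw [hT, Real.sqrt_mul (by linarith), mul_assoc, Real.mul_self_sqrt hXpos.le]
  have hsq1 : 1 ≤ √(1 + η) := Real.one_le_sqrt.2 (by linarith)
  have hsq2 : √(1 + η) ≤ 1 + t ^ 2 := by
    rw [Real.sqrt_le_left (by positivity)]
    nlinarith
  -- Cauchy-Schwarz 1
  have cs1 : (∑ D ∈ FD z r X η, wt ρ D * M D) ^ 2 ≤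
      √(1 + η) * (1 + t ^ 2) * W * (PiR z r * (A - b / 2)) * N ^ 2 := by
    have h1 := cs (FD z r X η) (fun D => wt ρ D * M D)
      (fun D => 2 * T * (wt ρ D * Lone D * (if BadA a X D then 1 / 2 else 1)))
      (fun D => wt ρ D * SS D)
      (fun D hD => by
        have := hw D hD
        have := hL D hD
        have : (0:ℝ) ≤ (if BadA a X D then 1 / 2 else 1) := by split_ifs <;> norm_num
        positivity)
      (fun D hD => mul_nonneg (hw D hD) (hSS D))
      (fun D hD => by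
        have hw' := hw D hD
        have hL' := hL D hD
        have hS' := hSS D
        have hs' := hsqrtD D hD
        have hkey : (M D) ^ 2 ≤ 2 * T * (Lone D * (if BadA a X D then 1 / 2 else 1)) * SS D := by
          have h0 : 2 * √(D : ℝ) * Lone D * SS D ≤ 2 * T * Lone D * SS D := by gcongr
          split_ifs with hbad
          · have := hin2 D hD hbad
            linarith
          · have := hin1 D hD
            linarith
        calc (wt ρ D * M D) ^ 2 = (wt ρ D) ^ 2 * (M D) ^ 2 := by ring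
          _ ≤ (wt ρ D) ^ 2 * (2 * T * (Lone D * (if BadA a X D then 1 / 2 else 1)) * SS D) := by
              gcongr
          _ = _ := by ring)
    have h2 : ∑ D ∈ FD z r X η, 2 * T * (wt ρ D * Lone D * (if BadA a X D then 1 / 2 else 1)) =
        2 * T * (A - b / 2) := by
      rw [← mul_sum]
      congr 1
      have h3 : ∀ D ∈ FD z r X η, wt ρ D * Lone D * (if BadA a X D then 1 / 2 else 1) =
          wt ρ D * Lone D - (if BadA a X D then wt ρ D * Lone D else 0) / 2 := by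
        intro D _
        split_ifs <;> ring
      rw [sum_congr rfl h3, sum_sub_distrib, ← sum_div, ← sum_filter]
    rw [h2] at h1
    have hAb : 0 ≤ A - b / 2 := by
      have h3 : b ≤ A := sum_le_sum_of_subset_of_nonneg (filter_subset _ _) fun D hD _ =>
        mul_nonneg (hw D hD) (hL D hD)
      have h4 : 0 ≤ b := sum_nonneg fun D hD =>
        mul_nonneg (hw D (mem_filter.1 hD).1) (hL D (mem_filter.1 hD).1)
      linarith
    have h5 := h1.trans (mul_le_mul_of_nonneg_left hSSsum (by positivity))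
    refine h5.trans (le_of_eq ?_)
    rw [hWdef]
    unfold WW
    have e : 2 * T * (A - b / 2) * ((1 + t ^ 2) * (PiR z r / (2 * Qz z)) * GG X ρ * η * √(X : ℝ) *
        N ^ 2) = (T * √(X : ℝ)) * ((A - b / 2) * ((1 + t ^ 2) * (PiR z r / Qz z) * GG X ρ * η *
        N ^ 2)) := by
      field_simp
    rw [e, hTX]
    field_simp
  -- Cauchy-Schwarz 2
  set B' := B.filter (fun D => (1 - t ^ 2) * N ≤ M D) with hB'
  have hB'sub : B' ⊆ FD z r X η := (filter_subset _ _).trans (filter_subset _ _)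
  have cs2 : (∑ D ∈ B', wt ρ D * M D) ^ 2 ≤
      √(1 + η) * (1 + t ^ 2) * W * (PiR z r * (b / 2)) * N ^ 2 := by
    have h1 := cs B' (fun D => wt ρ D * M D)
      (fun D => T * (wt ρ D * Lone D))
      (fun D => wt ρ D * SS D)
      (fun D hD => by
        have := hw D (hB'sub hD)
        have := hL D (hB'sub hD)
        positivity)
      (fun D hD => mul_nonneg (hw D (hB'sub hD)) (hSS D))
      (fun D hD => by
        have hw' := hw D (hB'sub hD)
        have hL' := hL D (hB'sub hD)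
        have hS' := hSS D
        have hs' := hsqrtD D (hB'sub hD)
        have hbad : BadA a X D := (mem_filter.1 (mem_filter.1 hD).1).2
        have hkey : (M D) ^ 2 ≤ T * Lone D * SS D := by
          have h0 : 2 * √(D : ℝ) * Lone D * SS D ≤ 2 * T * Lone D * SS D := by gcongr
          have := hin2 D (hB'sub hD) hbad
          linarith
        calc (wt ρ D * M D) ^ 2 = (wt ρ D) ^ 2 * (M D) ^ 2 := by ring
          _ ≤ (wt ρ D) ^ 2 * (T * Lone D * SS D) := by gcongr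
          _ = _ := by ring)
    have h2 : ∑ D ∈ B', T * (wt ρ D * Lone D) ≤ T * b := by
      rw [← mul_sum]
      apply mul_le_mul_of_nonneg_left _ (Real.sqrt_nonneg _)
      exact sum_le_sum_of_subset_of_nonneg (filter_subset _ _) fun D hD _ =>
        mul_nonneg (hw D (mem_filter.1 hD).1) (hL D (mem_filter.1 hD).1)
    have h3 : ∑ D ∈ B', wt ρ D * SS D ≤
        (1 + t ^ 2) * (PiR z r / (2 * Qz z)) * GG X ρ * η * √(X : ℝ) * N ^ 2 := by
      refine le_trans ?_ hSSsum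
      exact sum_le_sum_of_subset_of_nonneg hB'sub fun D hD _ => mul_nonneg (hw D hD) (hSS D)
    have hb0 : 0 ≤ b := sum_nonneg fun D hD =>
        mul_nonneg (hw D (mem_filter.1 hD).1) (hL D (mem_filter.1 hD).1)
    have h5 : (∑ D ∈ B', wt ρ D * M D) ^ 2 ≤ (T * b) *
        ((1 + t ^ 2) * (PiR z r / (2 * Qz z)) * GG X ρ * η * √(X : ℝ) * N ^ 2) := by
      refine h1.trans ?_
      apply mul_le_mul h2 h3
      · exact sum_nonneg fun D hD => mul_nonneg (hw D (hB'sub hD)) (hSS D)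
      · positivity
    refine h5.trans (le_of_eq ?_)
    rw [hWdef]
    unfold WW
    have e : T * b * ((1 + t ^ 2) * (PiR z r / (2 * Qz z)) * GG X ρ * η * √(X : ℝ) *
        N ^ 2) = (T * √(X : ℝ)) * (b * ((1 + t ^ 2) * (PiR z r / (2 * Qz z)) * GG X ρ * η *
        N ^ 2)) := by ring
    rw [e, hTX]
    field_simp
  -- first moment
  have hM1 : (1 - t ^ 2 - 2 * C0 / z) * W * N ≤ ∑ D ∈ FD z r X η, wt ρ D * M D := by
    have h1 : ∀ s ∈ S, (1 - t ^ 2 - 2 * C0 / z) * W ≤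
        ∑ D ∈ FD z r X η, wt ρ D * ∏ p ∈ s, (1 + (chi D p : ℝ)) := hX2 X (by omega) ρ hρ
    have h2 : ∑ D ∈ FD z r X η, wt ρ D * M D =
        ∑ s ∈ S, ∑ D ∈ FD z r X η, wt ρ D * ∏ p ∈ s, (1 + (chi D p : ℝ)) := by
      rw [sum_comm]
      refine sum_congr rfl fun D _ => ?_
      rw [hMdef]
      simp only [MD, one_mul]
      rw [mul_sum]
    rw [h2]
    have h3 := card_nsmul_le_sum S _ _ h1
    have h4 : (S.card : ℝ) = N := by
      rw [hS, hN]
      unfold SA NA CA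
      rw [card_powersetCard]
    rw [nsmul_eq_mul, h4] at h3
    linarith
  have hLM' : PiR z r * A ≤ (1 + t ^ 2) * (1 + 4 / z) * W := by
    have h1 := hX1 X (by omega) ρ hρ
    rw [le_div_iff₀ hP] at h1
    linarith
  -- the bad ones with few ideals
  have hwB : (1 - t ^ 2) * N * (∑ D ∈ B, wt ρ D - t ^ 2 * W) ≤ ∑ D ∈ B', wt ρ D * M D := by
    have h1 := hX3 X (by omega) ρ hρ
    have h2 : ∑ D ∈ B, wt ρ D ≤ ∑ D ∈ B', wt ρ D + t ^ 2 * W := by
      rw [← sum_filter_add_sum_filter_not B (fun D => (1 - t ^ 2) * N ≤ M D)]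
      refine add_le_add le_rfl (le_trans ?_ h1)
      apply sum_le_sum_of_subset_of_nonneg
      · intro D hD
        have hD1 := mem_filter.1 hD
        have hD2 := (mem_filter.1 hD1.1).1
        refine mem_filter.2 ⟨(hmem D hD2).2.2.2, not_le.1 hD1.2⟩
      · intro D hD _
        exact hwD D (mem_filter.1 hD).1
    have h3 : (1 - t ^ 2) * N * ∑ D ∈ B', wt ρ D ≤ ∑ D ∈ B', wt ρ D * M D := by
      rw [mul_sum]
      apply sum_le_sum
      intro D hD
      have h4 := (mem_filter.1 hD).2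
      have h5 := hw D (hB'sub hD)
      nlinarith
    refine le_trans ?_ h3
    have h6 : 0 ≤ 1 - t ^ 2 := by nlinarith
    apply mul_le_mul_of_nonneg_left _ (by positivity)
    linarith
  have := final t (2 * C0 / z) (4 / z) (√(1 + η)) W N (PiR z r) _ A b _ _ ht0 ht1
    (by positivity) hzC hz4 (by positivity) hsq1 hsq2 hW hN0 hM1 hLM' cs1 cs2 hwB
  refine this.trans ?_
  exact mul_le_mul_of_nonneg_right ht4 hW.le

end Pool.Agent.H52.W.CG2
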