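import Pool.Agent.H52.W.CG2.Stubs
import Pool.Agent.H52.V.S8.H38R2.CG.TB5

/-! CG2, task ERR: diagonal and error terms. -/

set_option autoImplicit false

namespace Pool.Agent.H52.W.CG2

variable [Lam]

open Finset Filter NumberField Pool.Agent.H38R2.CG
open scoped Classical

namespace ERRh

theorem cc_pos {a : ℝ} (ha : 2 < a) : 0 < cc a := by
  exact ccpos (by assumption)

theorem cc_lt {a : ℝ} (ha : 2 < a) : cc a < 1 / 32 := by
  have h32 := cclt (a := a) (by assumption)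
  linarith

theorem mem_PA {a : ℝ} {X p : ℕ} (hp : p ∈ PA a X) : p.Prime := by
  unfold PA PP at hp
  exact (Finset.mem_filter.1 hp).2

theorem mem_SA {a : ℝ} {X : ℕ} {s : Finset ℕ} (hs : s ∈ SA a X) :
    s ⊆ PA a X ∧ s.card = kA a X := Finset.mem_powersetCard.1 hs

theorem prime_dvd_prodS {p : ℕ} (hp : p.Prime) {s : Finset ℕ} (hs : ∀ q ∈ s, q.Prime)
    (h : p ∣ prodS s) : p ∈ s := by
  obtain ⟨q, hq, hpq⟩ := (hp.prime.dvd_finsetProd_iff _).1 h
  rwa [(Nat.prime_dvd_prime_iff_eq hp (hs q hq)).1 hpq]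

theorem subset_of_isSquare {s t : Finset ℕ} (hs : ∀ q ∈ s, q.Prime) (ht : ∀ q ∈ t, q.Prime)
    (h : IsSquare (prodS s * prodS t)) : s ⊆ t := by
  intro p hp
  by_contra hpt
  obtain ⟨a, ha⟩ := h
  have hpp := hs p hp
  have h1 : prodS s = p * prodS (s.erase p) := (Finset.mul_prod_erase s (fun x => x) hp).symm
  have h2 : p ∣ a * a := by
    rw [← ha, h1, mul_assoc]
    exact dvd_mul_right _ _
  have h3 : p ∣ a := by rcases hpp.dvd_mul.1 h2 with h | h <;> exact h
  have h4 : p * p ∣ prodS s * prodS t := by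
    rw [ha]
    exact mul_dvd_mul h3 h3
  rw [h1, mul_assoc] at h4
  have h5 := Nat.dvd_of_mul_dvd_mul_left hpp.pos h4
  rcases hpp.dvd_mul.1 h5 with h | h
  · have := prime_dvd_prodS hpp (fun q hq => hs q (Finset.mem_of_mem_erase hq)) h
    exact Finset.notMem_erase p s this
  · exact hpt (prime_dvd_prodS hpp ht h)

theorem isSquare_imp_eq {s t : Finset ℕ} (hs : ∀ q ∈ s, q.Prime) (ht : ∀ q ∈ t, q.Prime)
    (h : IsSquare (prodS s * prodS t)) : s = t := by
  refine Finset.Subset.antisymm (subset_of_isSquare hs ht h) (subset_of_isSquare ht hs ?_)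
  rwa [mul_comm]

theorem jac_le (n p : ℕ) : (0 : ℝ) ≤ 1 + (jacobiSym (n : ℤ) p : ℝ) ∧
    1 + (jacobiSym (n : ℤ) p : ℝ) ≤ 2 := by
  rcases jacobiSym.trichotomy (n : ℤ) p with h | h | h <;> rw [h] <;> norm_num

/-- the number of roots for one `d` -/
theorem RR_le (hR1 : P2_R1) (z r n v d : ℕ) (hn : 1 ≤ n) (hv : 1 ≤ v) (hd : Squarefree d)
    (hdQ : d.Coprime (Qz z)) (hdn : d.Coprime n) :
    (RR z r n v d : ℝ) ≤ (rho z r n v : ℝ) * d := by
  rw [hR1 z r n v d hn hv hd hdQ hdn]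
  refine mul_le_mul_of_nonneg_left ?_ (Nat.cast_nonneg _)
  have h1 : ∏ p ∈ d.primeFactors.filter (fun p => ¬ p ∣ v), (1 + (jacobiSym (n : ℤ) p : ℝ)) ≤
      ∏ p ∈ d.primeFactors.filter (fun p => ¬ p ∣ v), (p : ℝ) := by
    refine Finset.prod_le_prod (fun p _ => (jac_le n p).1) fun p hp => ?_
    have hp2 : 2 ≤ p := (Nat.prime_of_mem_primeFactors (Finset.mem_filter.1 hp).1).two_le
    have hp2' : (2 : ℝ) ≤ p := by exact_mod_cast hp2
    exact (jac_le n p).2.trans hp2'
  have h2 : ∏ p ∈ d.primeFactors.filter (fun p => ¬ p ∣ v), p ≤ ∏ p ∈ d.primeFactors, p := by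
    refine Finset.prod_le_prod_of_subset_of_one_le' (Finset.filter_subset _ _) ?_
    intro p hp _
    exact (Nat.prime_of_mem_primeFactors hp).one_lt.le
  rw [Nat.prod_primeFactors_of_squarefree hd] at h2
  have h3 : ∏ p ∈ d.primeFactors.filter (fun p => ¬ p ∣ v), (p : ℝ) ≤ d := by
    rw [← Nat.cast_prod]
    exact_mod_cast h2
  exact h1.trans h3

/-- sum over `d` -/
theorem d_sum (hR1 : P2_R1) (z r X n v : ℕ) (P : Finset ℕ) (δ : ℝ) (C0 : ℕ) (ρ : ℕ → ℝ)
    (hX : 1 ≤ X) (hS : SWt z X P δ C0 ρ) (s t : Finset ℕ) (hsP : s ⊆ P) (htP : t ⊆ P)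
    (hP : ∀ p ∈ P, p.Prime) (hn : n = prodS s * prodS t) (hv : 1 ≤ v) :
    ∑ d ∈ Finset.Icc 1 X, |ρ d| * (RR z r n v d : ℝ) ≤
      (rho z r n v : ℝ) * ((X : ℝ) ^ δ * (X : ℝ) ^ δ) := by
  have hX0 : (0 : ℝ) < X := by exact_mod_cast hX
  have hXd : 0 ≤ (X : ℝ) ^ δ := by positivity
  have hρ0 : (0 : ℝ) ≤ rho z r n v := Nat.cast_nonneg _
  have hn1 : 1 ≤ n := by
    rw [hn]
    exact Nat.mul_pos (Finset.prod_pos fun p hp => (hP p (hsP hp)).pos)
      (Finset.prod_pos fun p hp => (hP p (htP hp)).pos)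
  have hterm : ∀ d ∈ Finset.Icc 1 X, |ρ d| * (RR z r n v d : ℝ) ≤
      if (d : ℝ) ≤ (X : ℝ) ^ δ then (rho z r n v : ℝ) * (X : ℝ) ^ δ else 0 := by
    intro d _
    by_cases h0 : ρ d = 0
    · rw [h0, abs_zero, zero_mul]
      split_ifs
      · positivity
      · exact le_rfl
    · obtain ⟨h1, h2, h3, h4, h5⟩ := hS.supp d h0
      rw [if_pos h2]
      have hcop : d.Coprime n := by
        rw [hn]
        refine Nat.Coprime.mul_right ?_ ?_
        · refine Nat.Coprime.prod_right fun p hp => ?_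
          exact ((hP p (hsP hp)).coprime_iff_not_dvd.2 (h5 p (hsP hp))).symm
        · refine Nat.Coprime.prod_right fun p hp => ?_
          exact ((hP p (htP hp)).coprime_iff_not_dvd.2 (h5 p (htP hp))).symm
      have h6 := RR_le hR1 z r n v d hn1 hv h3 h4 hcop
      calc |ρ d| * (RR z r n v d : ℝ) ≤ 1 * ((rho z r n v : ℝ) * d) := by
            gcongr
            exact hS.bd d
        _ = (rho z r n v : ℝ) * d := one_mul _
        _ ≤ (rho z r n v : ℝ) * (X : ℝ) ^ δ := by gcongr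
  refine (Finset.sum_le_sum hterm).trans ?_
  rw [← Finset.sum_filter, Finset.sum_const, nsmul_eq_mul]
  have hcard : (((Finset.Icc 1 X).filter (fun d : ℕ => (d : ℝ) ≤ (X : ℝ) ^ δ)).card : ℝ) ≤
      (X : ℝ) ^ δ := by
    have hsub : (Finset.Icc 1 X).filter (fun d : ℕ => (d : ℝ) ≤ (X : ℝ) ^ δ) ⊆
        Finset.Icc 1 ⌊(X : ℝ) ^ δ⌋₊ := by
      intro d hd
      rw [Finset.mem_filter, Finset.mem_Icc] at hd
      rw [Finset.mem_Icc]
      exact ⟨hd.1.1, Nat.le_floor hd.2⟩
    have h1 := Finset.card_le_card hsub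
    rw [Nat.card_Icc, Nat.add_sub_cancel] at h1
    have h2 : (((Finset.Icc 1 X).filter (fun d : ℕ => (d : ℝ) ≤ (X : ℝ) ^ δ)).card : ℝ) ≤
        (⌊(X : ℝ) ^ δ⌋₊ : ℝ) := by exact_mod_cast h1
    exact h2.trans (Nat.floor_le hXd)
  calc _ ≤ (X : ℝ) ^ δ * ((rho z r n v : ℝ) * (X : ℝ) ^ δ) := by gcongr
    _ = _ := by ring

/-- sum over `v` of the number of roots -/
theorem v_sum (hA : P_TB3a) (z r : ℕ) (s t : Finset ℕ) (hs : ∀ p ∈ s, p.Prime)
    (ht : ∀ p ∈ t, p.Prime) (V : ℕ) :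
    ∑ v ∈ Finset.Icc 1 V, (rho z r (prodS s * prodS t) v : ℝ) ≤
      16 * Qz z * (4 ^ ((s ∩ t).card) * (V * (1 + Real.log V))) := by
  rcases Nat.eq_zero_or_pos V with hV0 | hV1
  · rw [hV0]
    simp
  obtain ⟨hfac, hsq⟩ := TB5h.sqf_fact s t hs ht
  set g := prodS (s ∩ t) with hg
  have hg1 : 1 ≤ g := by
    rw [hg]
    unfold prodS
    exact Finset.prod_pos fun p hp => (hs p (Finset.mem_inter.mp hp).1).pos
  have hlogV0 : 0 ≤ Real.log V := Real.log_natCast_nonneg V
  have hd : (g.divisors.card : ℝ) ^ 2 ≤ 4 ^ ((s ∩ t).card) := by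
    have h1 : (g.divisors.card : ℝ) ≤ 2 ^ ((s ∩ t).card) := by
      exact_mod_cast TB5h.card_div_prod (s ∩ t) (fun p hp => hs p (Finset.mem_inter.mp hp).1)
    calc (g.divisors.card : ℝ) ^ 2 ≤ (2 ^ ((s ∩ t).card)) ^ 2 :=
          pow_le_pow_left₀ (Nat.cast_nonneg _) h1 2
      _ = 4 ^ ((s ∩ t).card) := by rw [← pow_mul, mul_comm, pow_mul]; norm_num
  calc ∑ v ∈ Finset.Icc 1 V, (rho z r (prodS s * prodS t) v : ℝ)
      ≤ ∑ v ∈ Finset.Icc 1 V, (16 * Qz z : ℝ) * ((v.divisors.card : ℝ) * (Nat.gcd g v : ℝ)) := by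
        refine Finset.sum_le_sum fun v hv => ?_
        rw [Finset.mem_Icc] at hv
        have h1 : (rho z r (prodS s * prodS t) v : ℝ) ≤ 16 * Qz z * v.divisors.card * Nat.gcd g v := by
          exact_mod_cast hA z r (prodS s * prodS t) v g _ hfac hsq hg1 hv.1
        calc _ ≤ _ := h1
          _ = _ := by ring
    _ = (16 * Qz z : ℝ) * ∑ v ∈ Finset.Icc 1 V, ((v.divisors.card : ℝ) * (Nat.gcd g v : ℝ)) := by
        rw [Finset.mul_sum]
    _ ≤ (16 * Qz z : ℝ) * ((g.divisors.card : ℝ) ^ 2 * (V * (1 + Real.log V))) :=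
        mul_le_mul_of_nonneg_left (TB5h.gsum g V hg1 hV1) (by positivity)
    _ ≤ _ := by gcongr

theorem ev_log (c : ℝ) (hc : 0 < c) : ∀ᶠ X : ℕ in atTop, 1 + Real.log X ≤ (X : ℝ) ^ c := by
  have h1 := (isLittleO_log_rpow_atTop hc).bound (show (0 : ℝ) < 1 / 2 by norm_num)
  have h2 : Tendsto (fun X : ℕ => (X : ℝ) ^ c) atTop atTop :=
    (tendsto_rpow_atTop hc).comp tendsto_natCast_atTop_atTop
  filter_upwards [tendsto_natCast_atTop_atTop.eventually h1, h2.eventually_ge_atTop 2] with X h3 h4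
  have h5 := (le_abs_self _).trans h3
  rw [Real.norm_of_nonneg (by positivity : 0 ≤ (X : ℝ) ^ c)] at h5
  linarith

theorem ev_logpow (c : ℝ) (hc : 0 < c) (n : ℕ) :
    ∀ᶠ X : ℕ in atTop, (Real.log X) ^ n ≤ (X : ℝ) ^ c := by
  rcases Nat.eq_zero_or_pos n with hn | hn
  · have h2 : Tendsto (fun X : ℕ => (X : ℝ) ^ c) atTop atTop :=
      (tendsto_rpow_atTop hc).comp tendsto_natCast_atTop_atTop
    filter_upwards [h2.eventually_ge_atTop 1] with X h4
    rw [hn, pow_zero]
    exact h4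
  · have hn' : (0 : ℝ) < n := by exact_mod_cast hn
    filter_upwards [ev_log (c / n) (by positivity), eventually_ge_atTop 1] with X h1 h2
    have hX : (0 : ℝ) < X := by exact_mod_cast h2
    have h3 : 0 ≤ Real.log X := Real.log_natCast_nonneg X
    calc (Real.log X) ^ n ≤ ((X : ℝ) ^ (c / n)) ^ n := by
          gcongr
          linarith
      _ = (X : ℝ) ^ c := by
          rw [← Real.rpow_natCast, ← Real.rpow_mul hX.le]
          congr 1
          field_simp

theorem ev_const (c : ℝ) (hc : 0 < c) (B : ℝ) : ∀ᶠ X : ℕ in atTop, B ≤ (X : ℝ) ^ c :=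
  ((tendsto_rpow_atTop hc).comp tendsto_natCast_atTop_atTop).eventually_ge_atTop B

end ERRh

open ERRh

theorem T2_ERR : P2_SZ → P2_NB → P2_WT → P2_V0 → P2_R1 → P_TB3a → P2_ERR := by
  intro hSZ hNB hWT hV0 hR1 hA a ha z r hfr η hη hη1 C0 hC0 ε hε
  set c := cc a with hc
  have hc0 : 0 < c := cc_pos ha
  have hc1 : c < 1 / 32 := cc_lt ha
  obtain ⟨X1, hX1⟩ := hSZ a ha
  obtain ⟨X2, hX2⟩ := hNB a ha (c / 2) (by positivity)
  have hQ : 0 < Qz z := TB5h.Qz_pos z
  have hQ' : (0 : ℝ) < Qz z := by exact_mod_cast hQ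
  have hQ1 : (1 : ℝ) ≤ Qz z := by exact_mod_cast hQ
  obtain ⟨X3, hX3⟩ := eventually_atTop.1 ((ev_log c hc0).and ((ev_logpow c hc0 C0).and
    ((ev_const c hc0 (128 * Qz z / ε)).and ((ev_const c hc0 (6 / ε)).and
      (eventually_ge_atTop 4)))))
  refine ⟨max X1 (max X2 X3), fun X hX ρ hS => ?_⟩
  obtain ⟨e1, e2, e3, e4, e5⟩ := hX3 X (le_trans (le_max_right _ _ |>.trans (le_max_right _ _)) hX)
  obtain ⟨-, hN, h2k, -⟩ := hX2 X (le_trans (le_max_left _ _ |>.trans (le_max_right _ _)) hX)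
  have hSZX := hX1 X (le_trans (le_max_left _ _) hX)
  have hX0 : (0 : ℝ) < X := by
    have : 0 < X := by omega
    exact_mod_cast this
  have hX1' : (1 : ℝ) ≤ X := by
    have : 1 ≤ X := by omega
    exact_mod_cast this
  set G := GG X ρ with hG
  have hlog1 : 1 ≤ Real.log X := by
    have h4 : (4 : ℝ) ≤ X := by exact_mod_cast e5
    have h5 : Real.exp 1 ≤ X := by linarith [Real.exp_one_lt_d9]
    exact (Real.le_log_iff_exp_le hX0).2 h5
  have hGlow : 1 ≤ (X : ℝ) ^ c * G := by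
    have h1 := hS.low
    have h2 : 0 < (Real.log X) ^ C0 := by positivity
    calc (1 : ℝ) = (Real.log X) ^ C0 * ((Real.log X) ^ C0)⁻¹ := (mul_inv_cancel₀ h2.ne').symm
      _ ≤ (X : ℝ) ^ c * G := by gcongr
  have hXc : 0 < (X : ℝ) ^ c := by positivity
  have hG0 : 0 < G := by
    by_contra h
    push Not at h
    have : (X : ℝ) ^ c * G ≤ 0 := mul_nonpos_of_nonneg_of_nonpos hXc.le h
    linarith
  have hNA0 : 0 ≤ NA a X := by
    unfold NA CA
    positivity
  have hsX : √(X : ℝ) = (X : ℝ) ^ (1 / 2 : ℝ) := Real.sqrt_eq_rpow _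
  -- the sum over D
  set SD := ∑ D ∈ DD z r X η, wt ρ D with hSD
  have hSD0 : 0 ≤ SD := by
    refine Finset.sum_nonneg fun D hD => ?_
    refine (hWT z X (PA a X) c C0 ρ (by omega) (by linarith) hS D ?_).1
    unfold DD at hD
    rw [Finset.mem_filter, Finset.mem_Ioc] at hD
    omega
  have hSDle : SD ≤ 3 * X * G := by
    have h1 := hV0 z r X η (PA a X) c C0 ρ 1 hfr.1 hη (by omega) (by linarith) hS le_rfl
      (Nat.coprime_one_left _)
    have h2 : (DD z r X η).filter (fun D => 1 ∣ D) = DD z r X η :=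
      Finset.filter_true_of_mem fun _ _ => one_dvd _
    have h3 : ∑ d ∈ Finset.Icc 1 X, ρ d / (Nat.lcm d 1 : ℝ) = G := by
      rw [hG]
      unfold GG
      refine Finset.sum_congr rfl fun d _ => ?_
      rw [Nat.lcm_one_right]
    rw [h2, h3, ← hSD] at h1
    have h4 := (abs_le.1 h1).2
    have h5 : η * X / Qz z * G ≤ X * G := by
      apply mul_le_mul_of_nonneg_right _ hG0.le
      rw [div_le_iff₀ hQ']
      nlinarith
    have h6 : (X : ℝ) ^ c ≤ X * G := by
      calc (X : ℝ) ^ c = (X : ℝ) ^ c * 1 := (mul_one _).symm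
        _ ≤ (X : ℝ) ^ c * ((X : ℝ) ^ c * G) := by gcongr
        _ = (X : ℝ) ^ (c + c) * G := by rw [Real.rpow_add hX0]; ring
        _ ≤ (X : ℝ) ^ (1 : ℝ) * G := by
            apply mul_le_mul_of_nonneg_right _ hG0.le
            exact Real.rpow_le_rpow_of_exponent_le hX1' (by linarith)
        _ = X * G := by rw [Real.rpow_one]
    linarith
  -- one pair
  have hprime : ∀ s ∈ SA a X, ∀ p ∈ s, p.Prime := fun s hs p hp => mem_PA ((mem_SA hs).1 hp)
  have hsize : ∀ s ∈ SA a X, (prodS s : ℝ) ≤ (X : ℝ) ^ (th a + c) := by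
    intro s hs
    have h1 := (hSZX ∅ s (Finset.empty_subset _) (mem_SA hs).1 (by simp [(mem_SA hs).2])).2
    simpa [prodS] using h1
  have hpow2 : ∀ s ∈ SA a X, ∀ t : Finset ℕ, (2 : ℝ) ^ ((s ∩ t).card) ≤ (X : ℝ) ^ (c / 2) := by
    intro s hs t
    refine le_trans ?_ h2k
    apply pow_le_pow_right₀ (by norm_num)
    rw [← (mem_SA hs).2]
    exact Finset.card_le_card Finset.inter_subset_left
  set K : ℝ := ε / 2 * (G * √(X : ℝ)) with hK
  have hE : ∀ s ∈ SA a X, ∀ t ∈ SA a X, (2 : ℝ) ^ ((s ∩ t).card) *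
      (2 * ∑ v ∈ Finset.Icc 1 ⌊2 * √(((prodS s * prodS t : ℕ) : ℝ) / X)⌋₊,
        ∑ d ∈ Finset.Icc 1 X, |ρ d| * (RR z r (prodS s * prodS t) v d : ℝ)) ≤ K := by
    intro s hs t ht
    set n := prodS s * prodS t with hn
    set V := ⌊2 * √((n : ℝ) / X)⌋₊ with hV
    have hVle : (V : ℝ) ≤ 2 * (X : ℝ) ^ (1 / 2 - 7 * c) := by
      refine (Nat.floor_le (by positivity)).trans ?_
      apply mul_le_mul_of_nonneg_left _ (by norm_num)
      rw [Real.sqrt_le_left (by positivity), ← Real.rpow_natCast, ← Real.rpow_mul hX0.le,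
        div_le_iff₀ hX0, hn]
      push_cast
      calc (prodS s : ℝ) * prodS t ≤ (X : ℝ) ^ (th a + c) * (X : ℝ) ^ (th a + c) :=
            mul_le_mul (hsize s hs) (hsize t ht) (Nat.cast_nonneg _) (by positivity)
        _ = (X : ℝ) ^ ((1 / 2 - 7 * c) * 2) * X := by
            rw [← Real.rpow_add hX0, ← Real.rpow_add_one hX0.ne']
            congr 1
            unfold th
            rw [← hc]
            ring
    have hVX : (V : ℝ) ≤ X := by
      refine hVle.trans ?_
      have h4 : (4 : ℝ) ≤ X := by exact_mod_cast e5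
      have h5 : 2 ≤ √(X : ℝ) := by
        rw [show (2 : ℝ) = √4 by rw [show (4 : ℝ) = 2 ^ 2 by norm_num, Real.sqrt_sq (by norm_num)]]
        exact Real.sqrt_le_sqrt h4
      have h6 : (X : ℝ) ^ (1 / 2 - 7 * c) ≤ √(X : ℝ) := by
        rw [hsX]
        exact Real.rpow_le_rpow_of_exponent_le hX1' (by linarith)
      have h7 : √(X : ℝ) * √(X : ℝ) = X := Real.mul_self_sqrt hX0.le
      nlinarith
    have hlogV : 1 + Real.log V ≤ (X : ℝ) ^ c := by
      refine le_trans ?_ e1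
      rcases Nat.eq_zero_or_pos V with h0 | h0
      · rw [h0]
        simp only [Nat.cast_zero, Real.log_zero]
        linarith
      · have := Real.log_le_log (by exact_mod_cast h0) hVX
        linarith
    have hsum : ∑ v ∈ Finset.Icc 1 V, ∑ d ∈ Finset.Icc 1 X, |ρ d| * (RR z r n v d : ℝ) ≤
        (16 * Qz z * ((X : ℝ) ^ c * (2 * (X : ℝ) ^ (1 / 2 - 7 * c) * (X : ℝ) ^ c))) *
          ((X : ℝ) ^ c * (X : ℝ) ^ c) := by
      calc _ ≤ ∑ v ∈ Finset.Icc 1 V, (rho z r n v : ℝ) * ((X : ℝ) ^ c * (X : ℝ) ^ c) := by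
            refine Finset.sum_le_sum fun v hv => ?_
            exact d_sum hR1 z r X n v (PA a X) c C0 ρ (by omega) hS s t (mem_SA hs).1
              (mem_SA ht).1 (fun p hp => mem_PA hp) hn (Finset.mem_Icc.1 hv).1
        _ = (∑ v ∈ Finset.Icc 1 V, (rho z r n v : ℝ)) * ((X : ℝ) ^ c * (X : ℝ) ^ c) := by
            rw [Finset.sum_mul]
        _ ≤ _ := by
            apply mul_le_mul_of_nonneg_right _ (by positivity)
            refine (v_sum hA z r s t (hprime s hs) (hprime t ht) V).trans ?_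
            have h4k : (4 : ℝ) ^ ((s ∩ t).card) ≤ (X : ℝ) ^ c := by
              have h1 : (4 : ℝ) ^ ((s ∩ t).card) =
                  (2 : ℝ) ^ ((s ∩ t).card) * (2 : ℝ) ^ ((s ∩ t).card) := by
                rw [← mul_pow]
                norm_num
              rw [h1]
              calc _ ≤ (X : ℝ) ^ (c / 2) * (X : ℝ) ^ (c / 2) := by
                    have := hpow2 s hs t
                    gcongr
                _ = (X : ℝ) ^ c := by
                    rw [← Real.rpow_add hX0]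
                    congr 1
                    ring
            have hlV0 : 0 ≤ 1 + Real.log V := by
              have := Real.log_natCast_nonneg V
              linarith
            gcongr
    have hfin : 128 * (Qz z : ℝ) ≤ ε * (X : ℝ) ^ c := by
      rw [div_le_iff₀ hε] at e3
      linarith
    calc (2 : ℝ) ^ ((s ∩ t).card) * (2 * ∑ v ∈ Finset.Icc 1 V, ∑ d ∈ Finset.Icc 1 X,
          |ρ d| * (RR z r n v d : ℝ))
        ≤ (X : ℝ) ^ (c / 2) * (2 * ((16 * Qz z * ((X : ℝ) ^ c * (2 * (X : ℝ) ^ (1 / 2 - 7 * c) *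
          (X : ℝ) ^ c))) * ((X : ℝ) ^ c * (X : ℝ) ^ c))) := by
          have := hpow2 s hs t
          have h0 : 0 ≤ ∑ v ∈ Finset.Icc 1 V, ∑ d ∈ Finset.Icc 1 X,
              |ρ d| * (RR z r n v d : ℝ) :=
            Finset.sum_nonneg fun v _ => Finset.sum_nonneg fun d _ => by positivity
          gcongr
      _ = 64 * Qz z * (X : ℝ) ^ (c / 2 + c + (1 / 2 - 7 * c) + c + c + c) := by
          rw [Real.rpow_add hX0, Real.rpow_add hX0, Real.rpow_add hX0, Real.rpow_add hX0,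
            Real.rpow_add hX0]
          ring
      _ ≤ 64 * Qz z * (X : ℝ) ^ (1 / 2 - c - c) := by
          apply mul_le_mul_of_nonneg_left _ (by positivity)
          exact Real.rpow_le_rpow_of_exponent_le hX1' (by linarith)
      _ ≤ (ε * (X : ℝ) ^ c / 2) * (X : ℝ) ^ (1 / 2 - c - c) * ((X : ℝ) ^ c * G) := by
          have h1 : 64 * (Qz z : ℝ) ≤ ε * (X : ℝ) ^ c / 2 := by linarith
          calc 64 * (Qz z : ℝ) * (X : ℝ) ^ (1 / 2 - c - c)
              ≤ (ε * (X : ℝ) ^ c / 2) * (X : ℝ) ^ (1 / 2 - c - c) := by gcongr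
            _ = (ε * (X : ℝ) ^ c / 2) * (X : ℝ) ^ (1 / 2 - c - c) * 1 := (mul_one _).symm
            _ ≤ _ := by gcongr
      _ = K := by
          rw [hK, hsX]
          have h1 : (X : ℝ) ^ (1 / 2 : ℝ) = (X : ℝ) ^ (1 / 2 - c - c) * (X : ℝ) ^ c *
              (X : ℝ) ^ c := by
            rw [← Real.rpow_add hX0, ← Real.rpow_add hX0]
            congr 1
            ring
          rw [h1]
          ring
  have hDg : ∀ s ∈ SA a X, ∀ t ∈ SA a X, (2 : ℝ) ^ ((s ∩ t).card) *
      (if IsSquare (prodS s * prodS t) then SD else 0) ≤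
      if s = t then (X : ℝ) ^ (c / 2) * (3 * X * G) else 0 := by
    intro s hs t ht
    by_cases hst : s = t
    · rw [if_pos hst]
      have h1 : (if IsSquare (prodS s * prodS t) then SD else 0) ≤ 3 * X * G := by
        split_ifs
        · exact hSDle
        · positivity
      have h2 := hpow2 s hs t
      have h3 : 0 ≤ (if IsSquare (prodS s * prodS t) then SD else 0) := by
        split_ifs
        · exact hSD0
        · exact le_rfl
      exact mul_le_mul h2 h1 h3 (by positivity)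
    · have hns : ¬ IsSquare (prodS s * prodS t) := fun hsq =>
        hst (isSquare_imp_eq (hprime s hs) (hprime t ht) hsq)
      rw [if_neg hns, if_neg hst, mul_zero]
  have hcard : ((SA a X).card : ℝ) = NA a X := by
    unfold SA NA CA
    rw [Finset.card_powersetCard]
  calc _ ≤ ∑ s ∈ SA a X, ∑ t ∈ SA a X,
        ((if s = t then (X : ℝ) ^ (c / 2) * (3 * X * G) else 0) + K) := by
        refine Finset.sum_le_sum fun s hs => Finset.sum_le_sum fun t ht => ?_
        rw [mul_add]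
        exact add_le_add (hDg s hs t ht) (hE s hs t ht)
    _ = NA a X * ((X : ℝ) ^ (c / 2) * (3 * X * G)) + (NA a X) ^ 2 * K := by
        simp_rw [Finset.sum_add_distrib]
        congr 1
        · rw [← hcard, ← nsmul_eq_mul, ← Finset.sum_const]
          refine Finset.sum_congr rfl fun s hs => ?_
          rw [Finset.sum_ite_eq, if_pos hs]
        · rw [Finset.sum_const, Finset.sum_const, nsmul_eq_mul, nsmul_eq_mul, hcard]
          ring
    _ ≤ NA a X * (ε / 2 * (G * √(X : ℝ)) * NA a X) + (NA a X) ^ 2 * K := by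
        refine add_le_add ?_ le_rfl
        apply mul_le_mul_of_nonneg_left _ hNA0
        have h6 : 6 ≤ ε * (X : ℝ) ^ c := by
          rw [div_le_iff₀ hε] at e4
          linarith
        calc (X : ℝ) ^ (c / 2) * (3 * X * G) = 3 * G * (X : ℝ) ^ (c / 2 + 1) := by
              rw [Real.rpow_add_one hX0.ne']
              ring
          _ ≤ 3 * G * (X : ℝ) ^ (2 * c + 1) := by
              apply mul_le_mul_of_nonneg_left _ (by positivity)
              exact Real.rpow_le_rpow_of_exponent_le hX1' (by linarith)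
          _ ≤ (ε * (X : ℝ) ^ c / 2) * G * (X : ℝ) ^ (2 * c + 1) := by
              gcongr
              linarith
          _ = ε / 2 * (G * (X : ℝ) ^ (1 / 2 : ℝ)) * (X : ℝ) ^ (1 / 2 + 3 * c) := by
              have h1 : (X : ℝ) ^ (1 / 2 : ℝ) * (X : ℝ) ^ (1 / 2 + 3 * c) =
                  (X : ℝ) ^ c * (X : ℝ) ^ (2 * c + 1) := by
                rw [← Real.rpow_add hX0, ← Real.rpow_add hX0]
                congr 1
                ring
              calc (ε * (X : ℝ) ^ c / 2) * G * (X : ℝ) ^ (2 * c + 1)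
                  = ε / 2 * G * ((X : ℝ) ^ c * (X : ℝ) ^ (2 * c + 1)) := by ring
                _ = _ := by
                  rw [← h1]
                  ring
          _ ≤ ε / 2 * (G * √(X : ℝ)) * NA a X := by
              rw [hsX]
              gcongr
    _ = ε * G * √(X : ℝ) * (NA a X) ^ 2 := by
        rw [hK]
        ring

end Pool.Agent.H52.W.CG2
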