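import Pool.Agent.H52.W.CG2.Stubs
import Pool.Agent.H52.V.S8.H38R2.CG.FIN

/-!
# Final step for the primes
-/

set_option autoImplicit false

namespace Pool.Agent.H52.W.CG2

variable [Lam]

open Finset Filter NumberField Pool.Agent.H38R2.CG
open scoped Classical

namespace PFh

open Pool.Agent.H38R2.CG.FINh

/-- D is attached to an exceptional prime. -/
def Rp (a : ℝ) (D : ℕ) : Prop := ∃ p : ℕ, p.Prime ∧ ¬ GoodA a p ∧ D = Dof p

lemma log_ineq (a : ℝ) (ha : 2 < a) : ∃ X1 : ℕ, 4 ≤ X1 ∧ ∀ X : ℕ, X1 ≤ X → ∀ d : ℝ,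
    (X : ℝ) / 4 ≤ d → (Real.log X) ^ a / 2 ≤ (Real.log d) ^ a := by
  have ht : Tendsto (fun X : ℕ => Real.log (X : ℝ)) atTop atTop :=
    Real.tendsto_log_atTop.comp tendsto_natCast_atTop_atTop
  obtain ⟨X1, hX1⟩ := Filter.eventually_atTop.1 (ht.eventually_ge_atTop (4 * a))
  refine ⟨max X1 4, le_max_right _ _, ?_⟩
  intro X hX d hd
  have hL := hX1 X (le_trans (le_max_left _ _) hX)
  have hX4 : (4 : ℝ) ≤ X := by exact_mod_cast le_trans (le_max_right _ _) hX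
  set L := Real.log (X : ℝ) with hLdef
  have hL0 : 0 < L := by linarith
  have h4 : Real.log 4 ≤ 2 := by
    have : (4 : ℝ) = 2 ^ 2 := by norm_num
    rw [this, Real.log_pow]
    have := Real.log_two_lt_d9
    push_cast
    linarith
  have hlow : L - 2 ≤ Real.log d := by
    have h1 : Real.log ((X : ℝ) / 4) ≤ Real.log d := Real.log_le_log (by positivity) hd
    rw [Real.log_div (by positivity) (by norm_num)] at h1
    linarith
  have h5 : (-1 : ℝ) ≤ -(2 / L) := by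
    rw [neg_le_neg_iff, div_le_one hL0]
    linarith
  have h6 := one_add_mul_self_le_rpow_one_add h5 (by linarith : (1 : ℝ) ≤ a)
  have h7 : (1 : ℝ) / 2 ≤ 1 + a * -(2 / L) := by
    have : a * (2 / L) ≤ 1 / 2 := by
      rw [← mul_div_assoc, div_le_div_iff₀ hL0 (by norm_num)]
      linarith
    linarith
  have h8 : 0 ≤ 1 + -(2 / L) := by linarith
  have h9 : L * (1 + -(2 / L)) = L - 2 := by
    field_simp
    ring
  calc L ^ a / 2 = L ^ a * (1 / 2) := by ring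
    _ ≤ L ^ a * (1 + -(2 / L)) ^ a := by
        apply mul_le_mul_of_nonneg_left _ (by positivity)
        exact h7.trans h6
    _ = (L - 2) ^ a := by
        rw [← Real.mul_rpow hL0.le h8, h9]
    _ ≤ (Real.log d) ^ a := by
        apply Real.rpow_le_rpow _ hlow (by linarith)
        rw [← h9]
        positivity

lemma Rp_bad (a : ℝ) (ha : 2 < a) (h0 : P_N0d) : ∃ X1 : ℕ, ∀ X : ℕ, X1 ≤ X → ∀ D : ℕ, X < D →
    Rp a D → (∃ p : ℕ, p.Prime ∧ (D = p ∨ D = 4 * p)) ∧ IsFund D ∧ BadA a X D := by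
  obtain ⟨X1, h4, hX1⟩ := log_ineq a ha
  refine ⟨X1, ?_⟩
  intro X hX D hXD hR
  obtain ⟨d, hp, hdg, rfl⟩ := hR
  have hd1 : 1 < d := hp.one_lt
  have hds : Squarefree d := hp.squarefree
  refine ⟨⟨d, hp, ?_⟩, isFund_Dof hd1 hds, ?_⟩
  · unfold Dof
    split_ifs <;> simp
  unfold GoodA at hdg
  push Not at hdg
  obtain ⟨K, iF, iN, hrank, hx, hng⟩ := hdg
  refine ⟨K, iF, iN, hrank, ?_, ?_⟩
  · rw [h0 K d hd1 hds hrank hx]
    unfold Dof
    split_ifs <;> simp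
  · intro hsg
    apply hng
    refine smallGen_mono K ?_ hsg
    apply hX1 X hX
    have h1 : X < 4 * d := lt_of_lt_of_le hXD (Dof_le d)
    have h2 : (X : ℝ) < 4 * d := by exact_mod_cast h1
    linarith

/-- iteration -/
lemma iter (f : ℕ → ℕ) (hf : ∀ Z, f Z ≤ Z) (hm : ∀ Z Z', Z ≤ Z' → f Z ≤ f Z') (η ε M : ℝ)
    (hη : 0 < η) (hη1 : η ≤ 1) (hε : 0 ≤ ε) (hM : 0 ≤ M)
    (step : ∀ X : ℕ, M ≤ X → (f ⌊(1 + η) * X⌋₊ : ℝ) ≤ f X + ε * η * X) (Z : ℕ) :
    (f Z : ℝ) ≤ 2 * ε * Z + (6 / η + 2 * M + 2) := by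
  set C : ℝ := 6 / η + 2 * M + 2 with hC
  have hC0 : 0 ≤ C := by positivity
  induction Z using Nat.strong_induction_on with
  | _ Z ih =>
    by_cases hZ : (Z : ℝ) ≤ C
    · have : (f Z : ℝ) ≤ Z := by exact_mod_cast hf Z
      have h2 : 0 ≤ 2 * ε * (Z : ℝ) := by positivity
      linarith
    · push Not at hZ
      have hZ6 : 6 / η < (Z : ℝ) := by linarith
      have hZη : 6 < Z * η := by
        rwa [div_lt_iff₀ hη] at hZ6
      have hZM : 2 * M < (Z : ℝ) := by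
        have : (0 : ℝ) < 6 / η := by positivity
        linarith
      have hZ0 : (0 : ℝ) < Z := by linarith
      have h1η : (0 : ℝ) < 1 + η := by linarith
      set X := ⌈(Z : ℝ) / (1 + η)⌉₊ with hX
      have hXge : (Z : ℝ) / (1 + η) ≤ X := Nat.le_ceil _
      have hXlt : (X : ℝ) < (Z : ℝ) / (1 + η) + 1 := Nat.ceil_lt_add_one (by positivity)
      have hXZ : (Z : ℝ) ≤ (1 + η) * X := by
        rw [div_le_iff₀ h1η] at hXge
        linarith
      have hXle : (1 + η) * (X : ℝ) < Z + (1 + η) := by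
        have : (X : ℝ) - 1 < (Z : ℝ) / (1 + η) := by linarith
        rw [lt_div_iff₀ h1η] at this
        nlinarith
      have hXltZ : X < Z := by
        have : (X : ℝ) < Z := by nlinarith
        exact_mod_cast this
      have hXM : M ≤ X := by nlinarith
      have ihX := ih X hXltZ
      have hst := step X hXM
      have hmono : (f Z : ℝ) ≤ f ⌊(1 + η) * (X : ℝ)⌋₊ := by
        exact_mod_cast hm _ _ (Nat.le_floor hXZ)
      have key : (2 * ε + ε * η) * X ≤ 2 * ε * Z := by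
        have h5 : (2 + η) * (X : ℝ) ≤ 2 * Z := by
          have h6 : (2 + η) * ((1 + η) * (X : ℝ)) ≤ (2 + η) * (Z + (1 + η)) := by
            apply mul_le_mul_of_nonneg_left hXle.le (by linarith)
          have h7 : (2 + η) * (Z + (1 + η)) ≤ 2 * Z * (1 + η) := by
            nlinarith
          have h8 : (1 + η) * ((2 + η) * (X : ℝ)) ≤ (1 + η) * (2 * Z) := by
            nlinarith
          exact le_of_mul_le_mul_left h8 h1η
        have : (2 * ε + ε * η) * X = ε * ((2 + η) * (X : ℝ)) := by ring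
        rw [this]
        have : 2 * ε * (Z : ℝ) = ε * (2 * Z) := by ring
        rw [this]
        exact mul_le_mul_of_nonneg_left h5 hε
      nlinarith

/-- counting function of the exceptional discriminants -/
noncomputable def NN (a : ℝ) (Z : ℕ) : ℕ := ((Finset.Ioc 0 Z).filter (Rp a)).card

lemma NN_le (a : ℝ) (Z : ℕ) : NN a Z ≤ Z := by
  unfold NN
  refine le_trans (Finset.card_filter_le _ _) ?_
  simp

lemma NN_mono (a : ℝ) (Z Z' : ℕ) (h : Z ≤ Z') : NN a Z ≤ NN a Z' := by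
  unfold NN
  apply Finset.card_le_card
  apply Finset.filter_subset_filter
  exact Finset.Ioc_subset_Ioc_right h

lemma NN_add (a : ℝ) {X Z : ℕ} (h : X ≤ Z) :
    NN a Z ≤ NN a X + ((Finset.Ioc X Z).filter (Rp a)).card := by
  unfold NN
  rw [← Finset.Ioc_union_Ioc_eq_Ioc (Nat.zero_le X) h, Finset.filter_union]
  exact Finset.card_union_le _ _

lemma NN_bound (a : ℝ) (ha : 2 < a) (h0 : P_N0d) (h1 : P2_AP) (ε : ℝ) (hε : 0 < ε) :
    ∃ C : ℝ, 0 ≤ C ∧ ∀ Z : ℕ, 2 ≤ Z →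
      (NN a Z : ℝ) ≤ 4 * ε * Z / Real.log Z + C + 2 * √(Z : ℝ) := by
  obtain ⟨η, hη, hη1, X0, hX0⟩ := h1 a ha ε hε
  obtain ⟨X1, hX1⟩ := Rp_bad a ha h0
  refine ⟨6 / η + 2 * ((X0 : ℝ) + X1) + 2, by positivity, fun Z hZ => ?_⟩
  have hZ2 : (2 : ℝ) ≤ Z := by exact_mod_cast hZ
  have hlZ : 0 < Real.log Z := Real.log_pos (by linarith)
  have hsZ : 0 ≤ √(Z : ℝ) := Real.sqrt_nonneg _
  have hstep : ∀ X : ℕ, (X0 : ℝ) + X1 + √(Z : ℝ) ≤ X →
      (NN a ⌊(1 + η) * X⌋₊ : ℝ) ≤ NN a X + 2 * ε / Real.log Z * η * X := by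
    intro X hX
    have hXX0 : X0 ≤ X := by
      have : (X0 : ℝ) ≤ X := by
        have : (0 : ℝ) ≤ X1 := by positivity
        linarith
      exact_mod_cast this
    have hXX1 : X1 ≤ X := by
      have : (X1 : ℝ) ≤ X := by
        have : (0 : ℝ) ≤ X0 := by positivity
        linarith
      exact_mod_cast this
    have hXZ : √(Z : ℝ) ≤ X := by
      have e1 : (0 : ℝ) ≤ X1 := by positivity
      have e2 : (0 : ℝ) ≤ X0 := by positivity
      linarith
    have hlog : Real.log Z / 2 ≤ Real.log X := by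
      have e1 := Real.log_le_log (Real.sqrt_pos.2 (by linarith : (0 : ℝ) < Z)) hXZ
      rwa [Real.log_sqrt (by linarith)] at e1
    have hle : X ≤ ⌊(1 + η) * (X : ℝ)⌋₊ := by
      apply Nat.le_floor
      have : (0 : ℝ) ≤ X := by positivity
      nlinarith
    have h2 := NN_add a hle
    have h3 : (((Finset.Ioc X ⌊(1 + η) * (X : ℝ)⌋₊).filter (Rp a)).card : ℝ) ≤
        ε * η * X / Real.log X := by
      refine le_trans ?_ (hX0 X hXX0)
      have : ((Finset.Ioc X ⌊(1 + η) * (X : ℝ)⌋₊).filter (Rp a)) ⊆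
          (Finset.Ioc X ⌊(1 + η) * (X : ℝ)⌋₊).filter
            (fun D => (∃ p : ℕ, p.Prime ∧ (D = p ∨ D = 4 * p)) ∧ IsFund D ∧ BadA a X D) := by
        intro D hD
        rw [Finset.mem_filter] at hD ⊢
        exact ⟨hD.1, hX1 X hXX1 D (Finset.mem_Ioc.1 hD.1).1 hD.2⟩
      exact_mod_cast Finset.card_le_card this
    have h2' : (NN a ⌊(1 + η) * (X : ℝ)⌋₊ : ℝ) ≤
        NN a X + (((Finset.Ioc X ⌊(1 + η) * (X : ℝ)⌋₊).filter (Rp a)).card : ℝ) := by
      exact_mod_cast h2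
    have h4 : ε * η * X / Real.log X ≤ 2 * ε / Real.log Z * η * X := by
      calc ε * η * X / Real.log X ≤ ε * η * X / (Real.log Z / 2) := by
            apply div_le_div_of_nonneg_left (by positivity) (by positivity) hlog
        _ = 2 * ε / Real.log Z * η * X := by
            field_simp
    linarith
  have h5 := iter (NN a) (NN_le a) (NN_mono a) η (2 * ε / Real.log Z)
    ((X0 : ℝ) + X1 + √(Z : ℝ)) hη hη1 (by positivity) (by positivity) hstep Z
  have h6 : 2 * (2 * ε / Real.log Z) * (Z : ℝ) = 4 * ε * Z / Real.log Z := by ring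
  rw [h6] at h5
  linarith

lemma count_le (a : ℝ) (Y : ℕ) :
    ((Finset.Icc 2 Y).filter (fun p => p.Prime ∧ ¬ GoodA a p)).card ≤ NN a (4 * Y) := by
  unfold NN
  refine Finset.card_le_card_of_injOn Dof ?_ ?_
  · intro d hd
    rw [Finset.mem_coe, Finset.mem_filter, Finset.mem_Icc] at hd
    rw [Finset.mem_coe, Finset.mem_filter, Finset.mem_Ioc]
    have h1 : 1 < d := by omega
    refine ⟨⟨?_, ?_⟩, d, hd.2.1, hd.2.2, rfl⟩
    · have := (isFund_Dof h1 hd.2.1.squarefree).1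
      omega
    · refine (Dof_le d).trans ?_
      omega
  · intro d _ d' _ h
    exact Dof_inj h

lemma primes_ge (h : P_NB) : ∃ Y0 : ℕ, ∀ Y ≥ Y0,
    (9 / 40 : ℝ) * Y / Real.log Y ≤ (((Finset.Icc 2 Y).filter Nat.Prime).card : ℝ) := by
  obtain ⟨-, y0, hy0⟩ := h
  refine ⟨2 * y0 + 4, fun Y hY => ?_⟩
  have h1 : y0 ≤ Y / 2 := by omega
  have h2 := (hy0 (Y / 2) h1).1
  have h3 : (PP (Y / 2)).card ≤ ((Finset.Icc 2 Y).filter Nat.Prime).card := by
    apply Finset.card_le_card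
    intro p hp
    rw [PP, Finset.mem_filter, Finset.mem_Ioc] at hp
    rw [Finset.mem_filter, Finset.mem_Icc]
    exact ⟨⟨hp.2.two_le, by omega⟩, hp.2⟩
  have h3' : ((PP (Y / 2)).card : ℝ) ≤ ((Finset.Icc 2 Y).filter Nat.Prime).card := by
    exact_mod_cast h3
  refine le_trans ?_ (h2.trans h3')
  have h4 : 2 ≤ Y / 2 := by omega
  have h4r : (2 : ℝ) ≤ ((Y / 2 : ℕ) : ℝ) := by exact_mod_cast h4
  have h5 : 0 < Real.log ((Y / 2 : ℕ) : ℝ) := Real.log_pos (by linarith)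
  have h6 : ((Y / 2 : ℕ) : ℝ) ≤ Y := by exact_mod_cast Nat.div_le_self Y 2
  have h7 : Real.log ((Y / 2 : ℕ) : ℝ) ≤ Real.log Y := Real.log_le_log (by linarith) h6
  have h8 : (Y : ℝ) ≤ 4 * ((Y / 2 : ℕ) : ℝ) := by
    have : Y ≤ 4 * (Y / 2) := by omega
    exact_mod_cast this
  calc (9 / 40 : ℝ) * Y / Real.log Y ≤ (9 / 40 : ℝ) * Y / Real.log ((Y / 2 : ℕ) : ℝ) := by
        apply div_le_div_of_nonneg_left (by positivity) h5 h7
    _ ≤ (9 / 10 : ℝ) * ((Y / 2 : ℕ) : ℝ) / Real.log ((Y / 2 : ℕ) : ℝ) := by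
        apply div_le_div_of_nonneg_right _ h5.le
        linarith

lemma sqrt_small (C ε : ℝ) (hε : 0 < ε) : ∃ Y0 : ℕ, ∀ Y ≥ Y0,
    C + 4 * √(Y : ℝ) ≤ ε * Y / Real.log Y := by
  have h1 := (isLittleO_log_rpow_atTop (by norm_num : (0 : ℝ) < 1 / 2)).bound
    (by positivity : (0 : ℝ) < ε / 5)
  have h2 : ∀ᶠ Y : ℕ in atTop, ‖Real.log (Y : ℝ)‖ ≤ ε / 5 * ‖(Y : ℝ) ^ (1 / 2 : ℝ)‖ :=
    tendsto_natCast_atTop_atTop.eventually h1
  obtain ⟨Y1, hY1⟩ := Filter.eventually_atTop.1 h2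
  refine ⟨max Y1 (⌈C ^ 2⌉₊ + 2), fun Y hY => ?_⟩
  have h3 := hY1 Y (le_trans (le_max_left _ _) hY)
  have h4 : ⌈C ^ 2⌉₊ + 2 ≤ Y := le_trans (le_max_right _ _) hY
  have h5 : C ^ 2 + 2 ≤ (Y : ℝ) := by
    have e1 : C ^ 2 ≤ (⌈C ^ 2⌉₊ : ℝ) := Nat.le_ceil _
    have e2 : ((⌈C ^ 2⌉₊ + 2 : ℕ) : ℝ) ≤ Y := by exact_mod_cast h4
    push_cast at e2
    linarith
  have hY2 : (2 : ℝ) ≤ Y := by nlinarith [sq_nonneg C]
  have hl : 0 < Real.log Y := Real.log_pos (by linarith)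
  rw [Real.norm_eq_abs, Real.norm_eq_abs, abs_of_pos hl, ← Real.sqrt_eq_rpow,
    abs_of_nonneg (Real.sqrt_nonneg _)] at h3
  have h6 : C ≤ √(Y : ℝ) := by
    apply Real.le_sqrt_of_sq_le
    linarith
  have h7 : √(Y : ℝ) * √(Y : ℝ) = Y := Real.mul_self_sqrt (by linarith)
  rw [le_div_iff₀ hl]
  calc (C + 4 * √(Y : ℝ)) * Real.log Y ≤ (5 * √(Y : ℝ)) * Real.log Y := by
        apply mul_le_mul_of_nonneg_right _ hl.le
        linarith
    _ ≤ (5 * √(Y : ℝ)) * (ε / 5 * √(Y : ℝ)) := by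
        apply mul_le_mul_of_nonneg_left h3 (by positivity)
    _ = ε * (√(Y : ℝ) * √(Y : ℝ)) := by ring
    _ = ε * Y := by rw [h7]

end PFh

open PFh in
theorem T2_PF : P_N0d → P2_AP → P2_CH → P_NB → FinalPrimes := by
  intro h0 h1 _ h3 a ha
  rw [Metric.tendsto_atTop]
  intro ε hε
  obtain ⟨C, hC0, hC⟩ := NN_bound a ha h0 h1 (ε / 200) (by positivity)
  obtain ⟨Y0, hY0⟩ := primes_ge h3
  obtain ⟨Y1, hY1⟩ := sqrt_small C (ε / 20) (by positivity)
  refine ⟨max (max Y0 Y1) 4, fun Y hY => ?_⟩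
  have hYa : Y0 ≤ Y := le_trans (le_max_left _ _) (le_trans (le_max_left _ _) hY)
  have hYb : Y1 ≤ Y := le_trans (le_max_right _ _) (le_trans (le_max_left _ _) hY)
  have hYc : 4 ≤ Y := le_trans (le_max_right _ _) hY
  have hYr : (4 : ℝ) ≤ Y := by exact_mod_cast hYc
  have hl : 0 < Real.log Y := Real.log_pos (by linarith)
  have hp := hY0 Y hYa
  have hpos : 0 < (9 / 40 : ℝ) * Y / Real.log Y := by positivity
  have hπ : 0 < (((Finset.Icc 2 Y).filter Nat.Prime).card : ℝ) := lt_of_lt_of_le hpos hp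
  rw [Real.dist_eq, sub_zero, abs_of_nonneg (by positivity), div_lt_iff₀ hπ]
  have hc : (((Finset.Icc 2 Y).filter (fun p => p.Prime ∧ ¬ GoodA a p)).card : ℝ) ≤
      NN a (4 * Y) := by exact_mod_cast count_le a Y
  have hb := hC (4 * Y) (by omega)
  have h4 : √(((4 * Y : ℕ) : ℝ)) = 2 * √(Y : ℝ) := by
    push_cast
    rw [Real.sqrt_mul (by norm_num)]
    congr 1
    rw [show (4 : ℝ) = 2 ^ 2 by norm_num]
    exact Real.sqrt_sq (by norm_num)
  have h5 : 4 * (ε / 200) * ((4 * Y : ℕ) : ℝ) / Real.log ((4 * Y : ℕ) : ℝ) ≤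
      4 * (ε / 200) * (4 * Y) / Real.log Y := by
    push_cast
    apply div_le_div_of_nonneg_left (by positivity) hl
    apply Real.log_le_log (by linarith)
    linarith
  have h6 := hY1 Y hYb
  have h7 : 4 * (ε / 200) * (4 * (Y : ℝ)) / Real.log Y = (2 / 25) * (ε * Y / Real.log Y) := by
    ring
  have h8 : ε / 20 * (Y : ℝ) / Real.log Y = (1 / 20) * (ε * Y / Real.log Y) := by ring
  have h9 : 0 < ε * Y / Real.log Y := by positivity
  have h10 : (9 / 40 : ℝ) * (ε * Y / Real.log Y) ≤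
      ε * (((Finset.Icc 2 Y).filter Nat.Prime).card : ℝ) := by
    calc (9 / 40 : ℝ) * (ε * Y / Real.log Y) = ε * ((9 / 40 : ℝ) * Y / Real.log Y) := by ring
      _ ≤ _ := mul_le_mul_of_nonneg_left hp hε.le
  rw [h4] at hb
  rw [h7] at h5
  rw [h8] at h6
  linarith

end Pool.Agent.H52.W.CG2
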