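import Pool.Agent.H52.W.CG2.Stubs
import Pool.Agent.H52.V.S8.H38R2.CG.M1L

/-!
# Weighted first moment of the ideal counts, lower bound
-/

set_option autoImplicit false

namespace Pool.Agent.H52.W.CG2

variable [Lam]

open Finset Filter NumberField Pool.Agent.H38R2.CG
open scoped Classical

namespace M1Lh

open Pool.Agent.H38R2.CG.M1Lh (chi_odd Q_pos prime_dvd_Q sq_dvd_of_not_fund prodS_pos)

variable {z X : ℕ} {P : Finset ℕ} {δ : ℝ} {C0 : ℕ} {ρ : ℕ → ℝ}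

lemma GG_pos (hX : 3 ≤ X) (h : SWt z X P δ C0 ρ) : 0 < GG X ρ := by
  have h1 : 1 < Real.log X := by
    rw [Real.lt_log_iff_exp_lt (by positivity)]
    have h3 : Real.exp 1 < 3 := by linarith [Real.exp_one_lt_d9]
    have h4 : (3 : ℝ) ≤ X := by exact_mod_cast hX
    linarith
  have h2 : 0 < ((Real.log X) ^ C0)⁻¹ := by positivity
  exact lt_of_lt_of_le h2 h.low

/-- the term of the sum in `P2_V0` for `e = l²` -/
lemma lcm_term (h : SWt z X P δ C0 ρ) {l : ℕ} (hl : l.Prime) (d : ℕ) :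
    ρ d / (Nat.lcm d (l ^ 2) : ℝ) =
      ((l : ℝ) ^ 2)⁻¹ * (ρ d / d + ((l : ℝ) - 1) * (if l ∣ d then ρ d / d else 0)) := by
  by_cases h0 : ρ d = 0
  · simp [h0]
  obtain ⟨hd1, -, hsq, -⟩ := h.supp d h0
  have hl0 : (l : ℝ) ≠ 0 := by exact_mod_cast hl.ne_zero
  have hd0 : (d : ℝ) ≠ 0 := by exact_mod_cast (by omega : d ≠ 0)
  by_cases hld : l ∣ d
  · obtain ⟨m, rfl⟩ := hld
    have hm : Nat.Coprime m l := by
      rw [Nat.coprime_comm, Nat.Prime.coprime_iff_not_dvd hl]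
      rintro ⟨q, rfl⟩
      have := (Nat.squarefree_iff_prime_squarefree.1 hsq) l hl
      apply this
      exact ⟨q, by ring⟩
    have e : Nat.lcm (l * m) (l ^ 2) = l * (m * l) := by
      rw [pow_two, Nat.lcm_mul_left, hm.lcm_eq_mul]
    rw [e, if_pos (dvd_mul_right l m)]
    push_cast at hd0 ⊢
    have hm0 : (m : ℝ) ≠ 0 := right_ne_zero_of_mul hd0
    field_simp
    ring
  · have hc : Nat.Coprime d (l ^ 2) := by
      apply Nat.Coprime.pow_right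
      rw [Nat.coprime_comm, Nat.Prime.coprime_iff_not_dvd hl]
      exact hld
    rw [hc.lcm_eq_mul, if_neg hld]
    push_cast
    field_simp
    ring

lemma lcm_sum (hX : 3 ≤ X) (hC : 1 ≤ C0) (h : SWt z X P δ C0 ρ) {l : ℕ} (hl : l.Prime) :
    ∑ d ∈ Finset.Icc 1 X, ρ d / (Nat.lcm d (l ^ 2) : ℝ) ≤ 2 * C0 * GG X ρ * ((l : ℝ) ^ 2)⁻¹ := by
  rw [sum_congr rfl fun d _ => lcm_term h hl d, ← mul_sum, sum_add_distrib, ← mul_sum, ← sum_filter]
  have hG := GG_pos hX h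
  have h1 := h.div l hl.squarefree
  rw [hl.primeFactors, card_singleton, pow_one] at h1
  have h2 := (abs_le.1 h1).2
  have hl1 : (1 : ℝ) ≤ l := by exact_mod_cast hl.one_le
  have hC' : (1 : ℝ) ≤ C0 := by exact_mod_cast hC
  have h3 : ((l : ℝ) - 1) * ∑ d ∈ (Finset.Icc 1 X).filter (fun d => l ∣ d), ρ d / d ≤
      C0 * GG X ρ := by
    calc ((l : ℝ) - 1) * ∑ d ∈ (Finset.Icc 1 X).filter (fun d => l ∣ d), ρ d / d
        ≤ ((l : ℝ) - 1) * (C0 * GG X ρ / l) := mul_le_mul_of_nonneg_left h2 (by linarith)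
      _ ≤ (l : ℝ) * (C0 * GG X ρ / l) := mul_le_mul_of_nonneg_right (by linarith) (by positivity)
      _ = C0 * GG X ρ := by field_simp
  have h4 : ∑ d ∈ Finset.Icc 1 X, ρ d / d = GG X ρ := rfl
  rw [h4]
  have h5 : GG X ρ + ((l : ℝ) - 1) * ∑ d ∈ (Finset.Icc 1 X).filter (fun d => l ∣ d), ρ d / d ≤
      2 * C0 * GG X ρ := by nlinarith
  calc ((l : ℝ) ^ 2)⁻¹ * (GG X ρ + ((l : ℝ) - 1) *
        ∑ d ∈ (Finset.Icc 1 X).filter (fun d => l ∣ d), ρ d / d)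
      ≤ ((l : ℝ) ^ 2)⁻¹ * (2 * C0 * GG X ρ) := mul_le_mul_of_nonneg_left h5 (by positivity)
    _ = _ := by ring

lemma wt_le (h : SWt z X P δ C0 ρ) (D : ℕ) : wt ρ D ≤ (X : ℝ) ^ δ := by
  unfold wt
  have h1 : ∑ d ∈ D.divisors, ρ d = ∑ d ∈ D.divisors.filter (fun d => ρ d ≠ 0), ρ d :=
    (sum_filter_ne_zero _).symm
  rw [h1]
  calc ∑ d ∈ D.divisors.filter (fun d => ρ d ≠ 0), ρ d
      ≤ ∑ _d ∈ D.divisors.filter (fun d => ρ d ≠ 0), (1 : ℝ) :=
        sum_le_sum fun d _ => (le_abs_self _).trans (h.bd d)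
    _ = ((D.divisors.filter (fun d => ρ d ≠ 0)).card : ℝ) := by simp
    _ ≤ ((Finset.Icc 1 ⌊(X : ℝ) ^ δ⌋₊).card : ℝ) := by
        have : D.divisors.filter (fun d => ρ d ≠ 0) ⊆ Finset.Icc 1 ⌊(X : ℝ) ^ δ⌋₊ := by
          intro d hd
          obtain ⟨-, hd⟩ := mem_filter.1 hd
          obtain ⟨h2, h3, -⟩ := h.supp d hd
          exact mem_Icc.2 ⟨h2, Nat.le_floor h3⟩
        exact_mod_cast card_le_card this
    _ = (⌊(X : ℝ) ^ δ⌋₊ : ℝ) := by simp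
    _ ≤ (X : ℝ) ^ δ := Nat.floor_le (by positivity)

/-- discriminants which are not fundamental -/
lemma nonfund (z r X : ℕ) (η : ℝ) (h1 : η ≤ 1) (hr : FundRes z r) (hX : 1 ≤ X)
    (f : ℕ → ℝ) (hf : ∀ D, 1 ≤ D → 0 ≤ f D) :
    ∑ D ∈ DD z r X η, f D ≤ ∑ D ∈ FD z r X η, f D +
      ∑ l ∈ (Ioc z (2 * X)).filter Nat.Prime,
        ∑ D ∈ (DD z r X η).filter (fun D => l ^ 2 ∣ D), f D := by
  have hsplit := sum_filter_add_sum_filter_not (DD z r X η) IsFund f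
  rw [← hsplit]
  unfold FD
  gcongr
  simp_rw [sum_filter (fun D => (_ ^ 2) ∣ D)]
  rw [sum_comm, sum_filter]
  apply sum_le_sum
  intro D hD
  simp only [DD, mem_filter, mem_Ioc] at hD
  have hD1 : 1 ≤ D := by omega
  have hnn : ∀ l ∈ (Ioc z (2 * X)).filter Nat.Prime, 0 ≤ if l ^ 2 ∣ D then f D else 0 := by
    intro l _; split_ifs
    · exact hf D hD1
    · exact le_rfl
  by_cases hn : IsFund D
  · simp only [hn, not_true_eq_false, if_false]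
    exact sum_nonneg hnn
  · simp only [hn, not_false_eq_true, if_true]
    obtain ⟨l, hl, hzl, hd⟩ := sq_dvd_of_not_fund z r D hr hD.2 (by omega) hn
    have hDle : D ≤ 2 * X := by
      have h2 : (D:ℝ) ≤ (1 + η) * X := by
        have := hD.1.2
        exact (Nat.le_floor_iff' (by omega)).1 this
      have hX0 : (0:ℝ) ≤ X := Nat.cast_nonneg X
      have h3 : (D:ℝ) ≤ 2 * X := by nlinarith
      exact_mod_cast h3
    have hll : l ≤ 2 * X := by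
      have h4 : l ^ 2 ≤ D := Nat.le_of_dvd (by omega) hd
      nlinarith [hl.one_lt]
    have hmem : l ∈ (Ioc z (2 * X)).filter Nat.Prime := by
      simp only [mem_filter, mem_Ioc]; exact ⟨⟨hzl, hll⟩, hl⟩
    have := single_le_sum hnn hmem
    simpa [hd] using this

lemma card_sq (z r X : ℕ) (η : ℝ) (h0 : 0 < η) (h1 : η ≤ 1) (l : ℕ) :
    (((DD z r X η).filter (fun D => l ^ 2 ∣ D)).card : ℝ) ≤ (2 * X) * ((l:ℝ) ^ 2)⁻¹ := by
  have hsub : (DD z r X η).filter (fun D => l ^ 2 ∣ D) ⊆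
      (Ioc 0 ⌊(1 + η) * X⌋₊).filter (fun D => l ^ 2 ∣ D) := by
    intro D hD
    simp only [DD, mem_filter, mem_Ioc] at hD ⊢
    exact ⟨⟨by omega, hD.1.1.2⟩, hD.2⟩
  have hcard : ((DD z r X η).filter (fun D => l ^ 2 ∣ D)).card ≤ ⌊(1 + η) * X⌋₊ / (l^2) := by
    refine (card_le_card hsub).trans (le_of_eq ?_)
    exact Nat.Ioc_filter_dvd_card_eq_div _ _
  calc (((DD z r X η).filter (fun D => l ^ 2 ∣ D)).card : ℝ)
      ≤ ((⌊(1 + η) * X⌋₊ / (l^2) : ℕ) : ℝ) := by exact_mod_cast hcard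
    _ ≤ ((⌊(1 + η) * X⌋₊ : ℕ) : ℝ) / ((l^2 : ℕ) : ℝ) := Nat.cast_div_le
    _ ≤ (2 * X) / ((l^2 : ℕ) : ℝ) := by
        gcongr
        have hX : (0:ℝ) ≤ X := Nat.cast_nonneg X
        have := Nat.floor_le (show (0:ℝ) ≤ (1 + η) * X by positivity)
        nlinarith
    _ = _ := by push_cast; rw [div_eq_mul_inv]

lemma copr_sq (hz : 2 ≤ z) {l : ℕ} (hl : l.Prime) (hzl : z < l) : (l ^ 2).Coprime (Qz z) := by
  apply Nat.Coprime.pow_left
  rw [Nat.Prime.coprime_iff_not_dvd hl]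
  intro h
  have := prime_dvd_Q z l hz hl h
  omega

/-- the sum over the square factors -/
lemma sum_bound (hV0 : P2_V0) (r L : ℕ) (η : ℝ) (h0 : 0 < η) (h1 : η ≤ 1) (hz : 2 ≤ z)
    (hr : r < Qz z) (hX : 3 ≤ X) (hδ : δ ≤ 1) (hC : 1 ≤ C0) (hL : 1 ≤ L)
    (h : SWt z X P δ C0 ρ) :
    ∑ l ∈ (Ioc z (2 * X)).filter Nat.Prime,
        ∑ D ∈ (DD z r X η).filter (fun D => l ^ 2 ∣ D), wt ρ D ≤
      2 * C0 / z * WW z X η ρ + L * (2 * (X : ℝ) ^ δ) + (X : ℝ) ^ δ * (2 * X) / L := by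
  have hQ : (0:ℝ) < (Qz z : ℝ) := by exact_mod_cast Q_pos z
  have hG := GG_pos hX h
  have hsq : ∀ m n : ℕ, 1 ≤ m → ∑ l ∈ Ioc m n, ((l:ℝ)^2)⁻¹ ≤ (m:ℝ)⁻¹ := by
    intro m n hm
    rcases le_or_gt m n with h | h
    · have := sum_Ioc_inv_sq_le_sub (α := ℝ) (k := m) (n := n) (by omega) h
      have h2 : (0:ℝ) ≤ (n:ℝ)⁻¹ := by positivity
      linarith
    · rw [Ioc_eq_empty (by omega)]; simp
  have hXδ : (0:ℝ) ≤ (X : ℝ) ^ δ := by positivity
  have hterm : ∀ l ∈ (Ioc z (2 * X)).filter Nat.Prime,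
      ∑ D ∈ (DD z r X η).filter (fun D => l ^ 2 ∣ D), wt ρ D ≤
        2 * C0 * WW z X η ρ * ((l:ℝ) ^ 2)⁻¹ + (if l ≤ L then 2 * (X : ℝ) ^ δ else 0) +
        (if l ≤ L then 0 else (X : ℝ) ^ δ * (2 * X) * ((l:ℝ) ^ 2)⁻¹) := by
    intro l hl
    simp only [mem_filter, mem_Ioc] at hl
    have hWW : 0 ≤ WW z X η ρ := by unfold WW; positivity
    have hnn : (0:ℝ) ≤ 2 * C0 * WW z X η ρ * ((l:ℝ) ^ 2)⁻¹ := by positivity
    split_ifs with hlL
    · have a1 := hV0 z r X η P δ C0 ρ (l ^ 2) hr h0 (by omega) hδ h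
        (Nat.one_le_iff_ne_zero.2 (pow_ne_zero 2 hl.2.ne_zero)) (copr_sq hz hl.2 hl.1.1)
      have a2 := (abs_le.1 a1).2
      have a3 := lcm_sum hX hC h hl.2
      have a4 : η * X / Qz z * ∑ d ∈ Finset.Icc 1 X, ρ d / (Nat.lcm d (l ^ 2) : ℝ) ≤
          2 * C0 * WW z X η ρ * ((l:ℝ) ^ 2)⁻¹ := by
        calc _ ≤ η * X / Qz z * (2 * C0 * GG X ρ * ((l : ℝ) ^ 2)⁻¹) :=
              mul_le_mul_of_nonneg_left a3 (by positivity)
          _ = _ := by unfold WW; ring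
      linarith
    · have a1 : ∑ D ∈ (DD z r X η).filter (fun D => l ^ 2 ∣ D), wt ρ D ≤
          (X : ℝ) ^ δ * ((2 * X) * ((l:ℝ) ^ 2)⁻¹) := by
        calc ∑ D ∈ (DD z r X η).filter (fun D => l ^ 2 ∣ D), wt ρ D
            ≤ ∑ _D ∈ (DD z r X η).filter (fun D => l ^ 2 ∣ D), (X : ℝ) ^ δ :=
              sum_le_sum fun D _ => wt_le h D
          _ = (X : ℝ) ^ δ * (((DD z r X η).filter (fun D => l ^ 2 ∣ D)).card : ℝ) := by
              rw [sum_const, nsmul_eq_mul]; ring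
          _ ≤ _ := mul_le_mul_of_nonneg_left (card_sq z r X η h0 h1 l) hXδ
      linarith
  refine (sum_le_sum hterm).trans ?_
  have hext : ∀ f : ℕ → ℝ, (∀ l, 0 ≤ f l) → ∑ l ∈ (Ioc z (2 * X)).filter Nat.Prime, f l ≤
      ∑ l ∈ Ioc z (2 * X), f l := by
    intro f hf
    exact sum_le_sum_of_subset_of_nonneg (filter_subset _ _) fun l _ _ => hf l
  have hWW : 0 ≤ WW z X η ρ := by unfold WW; positivity
  rw [sum_add_distrib, sum_add_distrib]
  have b1 : ∑ l ∈ (Ioc z (2 * X)).filter Nat.Prime, 2 * C0 * WW z X η ρ * ((l:ℝ) ^ 2)⁻¹ ≤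
      2 * C0 / z * WW z X η ρ := by
    refine (hext _ (fun l => by positivity)).trans ?_
    rw [← mul_sum]
    have := hsq z (2*X) (by omega)
    calc _ ≤ 2 * C0 * WW z X η ρ * (z : ℝ)⁻¹ := by gcongr
      _ = _ := by rw [div_eq_mul_inv]; ring
  have b2 : ∑ l ∈ (Ioc z (2 * X)).filter Nat.Prime, (if l ≤ L then 2 * (X : ℝ) ^ δ else 0) ≤
      L * (2 * (X : ℝ) ^ δ) := by
    refine (hext _ (fun l => by split_ifs <;> positivity)).trans ?_
    rw [← sum_filter, sum_const, nsmul_eq_mul]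
    gcongr
    have : (Ioc z (2 * X)).filter (fun l => l ≤ L) ⊆ Ioc 0 L := by
      intro l hl; simp only [mem_filter, mem_Ioc] at hl ⊢; omega
    refine (card_le_card this).trans ?_
    simp
  have b3 : ∑ l ∈ (Ioc z (2 * X)).filter Nat.Prime,
      (if l ≤ L then 0 else (X : ℝ) ^ δ * (2 * X) * ((l:ℝ) ^ 2)⁻¹) ≤
      (X : ℝ) ^ δ * (2 * X) / L := by
    refine (hext _ (fun l => by split_ifs <;> positivity)).trans ?_
    have e : ∑ l ∈ Ioc z (2 * X), (if l ≤ L then (0:ℝ) else (X : ℝ) ^ δ * (2 * X) * ((l:ℝ) ^ 2)⁻¹)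
        ≤ ∑ l ∈ Ioc L (2 * X), (X : ℝ) ^ δ * (2 * X) * ((l:ℝ) ^ 2)⁻¹ := by
      have e1 : ∑ l ∈ Ioc z (2 * X),
          (if l ≤ L then (0:ℝ) else (X : ℝ) ^ δ * (2 * X) * ((l:ℝ) ^ 2)⁻¹) =
          ∑ l ∈ (Ioc z (2 * X)).filter (fun l => ¬ l ≤ L),
            (X : ℝ) ^ δ * (2 * X) * ((l:ℝ) ^ 2)⁻¹ := by
        rw [sum_filter]
        refine sum_congr rfl fun l _ => ?_
        split_ifs <;> rfl
      rw [e1]
      apply sum_le_sum_of_subset_of_nonneg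
      · intro l hl; simp only [mem_filter, mem_Ioc] at hl ⊢; omega
      · intro l _ _; positivity
    refine e.trans ?_
    rw [← mul_sum, div_eq_mul_inv]
    have := hsq L (2*X) hL
    gcongr
  linarith

/-- expansion of the product -/
lemma jac_prodS (D : ℕ) (t : Finset ℕ) (ht : ∀ p ∈ t, p.Prime ∧ p ≠ 2) :
    ∏ p ∈ t, (chi D p : ℝ) = ((jacobiSym (D : ℤ) (prodS t) : ℤ) : ℝ) := by
  induction t using Finset.induction_on with
  | empty => simp [prodS]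
  | insert p t hp ih =>
    have ht' : ∀ q ∈ t, q.Prime ∧ q ≠ 2 := fun q hq => ht q (mem_insert_of_mem hq)
    have hp1 := ht p (mem_insert_self p t)
    have e : prodS (insert p t) = p * prodS t := by unfold prodS; rw [prod_insert hp]
    have : NeZero p := ⟨hp1.1.ne_zero⟩
    have : NeZero (prodS t) := ⟨(prodS_pos t ht').ne'⟩
    rw [prod_insert hp, ih ht', e, jacobiSym.mul_right, chi_odd p hp1.1 hp1.2]
    push_cast
    rfl

lemma expand (D : ℕ) (s : Finset ℕ) (hs : ∀ p ∈ s, p.Prime ∧ p ≠ 2) :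
    ∏ p ∈ s, (1 + (chi D p : ℝ)) =
      ∑ t ∈ s.powerset, ((jacobiSym (D : ℤ) (prodS t) : ℤ) : ℝ) := by
  rw [prod_one_add]
  refine sum_congr rfl fun t ht => ?_
  exact jac_prodS D t fun p hp => hs p (mem_powerset.1 ht hp)

lemma prodS_dvd (s t : Finset ℕ) (h : t ⊆ s) : prodS t ∣ prodS s := prod_dvd_prod_of_subset _ _ _ h

lemma prodS_sqf (t : Finset ℕ) (ht : ∀ p ∈ t, p.Prime) : Squarefree (prodS t) := by
  unfold prodS
  refine Finset.squarefree_prod_of_pairwise_isCoprime (fun p hp q hq hpq ↦ ?_)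
    fun p hp ↦ (ht p hp).squarefree
  simp only [← Nat.coprime_iff_isRelPrime]
  exact (Nat.coprime_primes (ht p hp) (ht q hq)).mpr hpq

lemma prodS_nsq (t : Finset ℕ) (ht : ∀ p ∈ t, p.Prime) (hne : t.Nonempty) :
    ¬ IsSquare (prodS t) := by
  rintro ⟨k, hk⟩
  obtain ⟨p, hp⟩ := hne
  have h1 := prodS_sqf t ht k ⟨1, by rw [hk]; ring⟩
  have h2 : k = 1 := Nat.isUnit_iff.1 h1
  have h3 : p ∣ prodS t := dvd_prod_of_mem _ hp
  rw [hk, h2] at h3
  exact (ht p hp).one_lt.ne' (Nat.dvd_one.1 h3)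

lemma prodS_copr (hz : 2 ≤ z) (t : Finset ℕ) (ht : ∀ p ∈ t, p.Prime ∧ z < p) :
    (prodS t).Coprime (Qz z) := by
  apply Nat.Coprime.prod_left
  intro p hp
  rw [Nat.Prime.coprime_iff_not_dvd (ht p hp).1]
  intro h
  have h1 := prime_dvd_Q z p hz (ht p hp).1 h
  have h2 := (ht p hp).2
  omega

end M1Lh

open M1Lh in
open Pool.Agent.H38R2.CG.M1Lh (chi_odd Q_pos prime_dvd_Q sq_dvd_of_not_fund prodS_pos) in
theorem T2_M1L : P2_SZ → P2_NB → P2_WT → P2_V0 → P2_V1 → P2_M1L := by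
  intro hSZ hNB hWT hV0 hV1 a ha z r hz hr η h0 h1 C0 hC ε hε
  have hQ : (0:ℝ) < (Qz z : ℝ) := by exact_mod_cast Q_pos z
  set c := cc a with hcdef
  have hc0 : 0 < c := by
    rw [hcdef]
    exact ccpos (by assumption)
  have hc1 : c < 1 / 32 := by
    rw [hcdef]
    have h32 := cclt (a := a) (by assumption)
    linarith
  have hth : th a = 1 - 8 * c := rfl
  obtain ⟨X1, hX1⟩ := hSZ a ha
  obtain ⟨X2, hX2⟩ := hNB a ha (c / 4) (by linarith)
  obtain ⟨X3, hX3⟩ := hV1 a ha z r hr η h0 h1 C0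
  have hyy : Tendsto (yA a) atTop atTop := by
    unfold yA
    apply tendsto_nat_floor_atTop.comp
    apply Tendsto.atTop_div_const (by norm_num)
    exact (tendsto_rpow_atTop (by linarith)).comp
      (Real.tendsto_log_atTop.comp tendsto_natCast_atTop_atTop)
  obtain ⟨X4, hX4⟩ := (tendsto_atTop.1 hyy z).exists_forall_of_atTop
  have hlo := isLittleO_log_rpow_rpow_atTop (s := 3 * c / 4) (C0 : ℝ) (by linarith)
  have hlo2 := hlo.bound (c := ε * η / (9 * Qz z)) (by positivity)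
  obtain ⟨X5, hX5⟩ := (tendsto_natCast_atTop_atTop.eventually hlo2).exists_forall_of_atTop
  refine ⟨max (max (max X1 X2) (max X3 X4)) (max X5 3), fun X hX ρ hρ s hs => ?_⟩
  simp only [ge_iff_le, max_le_iff] at hX
  obtain ⟨⟨⟨hXa, hXb⟩, ⟨hXc, hXd⟩⟩, ⟨hXe, hX3'⟩⟩ := hX
  have hXr : (1:ℝ) ≤ X := by exact_mod_cast (by omega : 1 ≤ X)
  have hXp : (0:ℝ) < X := by linarith
  have hlog : 0 < Real.log X := by
    apply Real.log_pos
    exact_mod_cast (by omega : 1 < X)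
  have hG := GG_pos hX3' hρ
  simp only [SA, mem_powersetCard] at hs
  obtain ⟨hsP, hsk⟩ := hs
  have hs1 : ∀ p ∈ s, p.Prime ∧ z < p := fun p hp => by
    have h := hsP hp
    simp only [PA, PP, mem_filter, mem_Ioc] at h
    exact ⟨h.2, lt_of_le_of_lt (hX4 X hXd) h.1.1⟩
  have hs2 : ∀ p ∈ s, p.Prime ∧ p ≠ 2 := fun p hp =>
    ⟨(hs1 p hp).1, by have := (hs1 p hp).2; omega⟩
  have hsz : (prodS s : ℝ) ≤ (X : ℝ) ^ (th a + c) := by
    have h := (hX1 X hXa ∅ s (empty_subset _) hsP (by rw [card_empty, zero_add, hsk])).2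
    have e : prodS ∅ = 1 := by unfold prodS; simp
    rw [e] at h
    simpa using h
  have hk2 : (2:ℝ) ^ s.card ≤ (X:ℝ) ^ (c / 4) := by
    rw [hsk]; exact (hX2 X hXb).2.2.1
  -- expansion
  have hexp : ∑ D ∈ FD z r X η, wt ρ D * ∏ p ∈ s, (1 + (chi D p : ℝ)) =
      ∑ D ∈ FD z r X η, wt ρ D +
      ∑ t ∈ s.powerset.erase ∅,
        ∑ D ∈ FD z r X η, wt ρ D * ((jacobiSym (D : ℤ) (prodS t) : ℤ) : ℝ) := by
    have e1 : ∑ D ∈ FD z r X η, wt ρ D * ∏ p ∈ s, (1 + (chi D p : ℝ)) =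
        ∑ t ∈ s.powerset,
          ∑ D ∈ FD z r X η, wt ρ D * ((jacobiSym (D : ℤ) (prodS t) : ℤ) : ℝ) := by
      rw [sum_comm]
      refine sum_congr rfl fun D _ => ?_
      rw [expand D s hs2, mul_sum]
    rw [e1, ← add_sum_erase _ _ (empty_mem_powerset s)]
    congr 1
    refine sum_congr rfl fun D _ => ?_
    have e : prodS ∅ = 1 := by unfold prodS; simp
    rw [e, jacobiSym.one_right]; simp
  -- the terms with t nonempty
  have hte : -(X:ℝ) ^ (1 - 3 * c / 4) ≤ ∑ t ∈ s.powerset.erase ∅,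
        ∑ D ∈ FD z r X η, wt ρ D * ((jacobiSym (D : ℤ) (prodS t) : ℤ) : ℝ) := by
    have hb : ∀ t ∈ s.powerset.erase ∅, -(X:ℝ) ^ (1 - c) ≤
        ∑ D ∈ FD z r X η, wt ρ D * ((jacobiSym (D : ℤ) (prodS t) : ℤ) : ℝ) := by
      intro t ht
      obtain ⟨hne, hts⟩ := mem_erase.1 ht
      have hts' := mem_powerset.1 hts
      have ht1 : ∀ p ∈ t, p.Prime ∧ z < p := fun p hp => hs1 p (hts' hp)
      have ht2 : ∀ p ∈ t, p.Prime ∧ p ≠ 2 := fun p hp => hs2 p (hts' hp)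
      have hm := ((hX3 X hXc ρ hρ (prodS t) (prodS_pos t ht2) (prodS_copr hz t ht1)
        (prodS_nsq t (fun p hp => (ht1 p hp).1) (nonempty_iff_ne_empty.2 hne))).2 ?_)
      · exact (abs_le.1 hm).1
      · have h2 : prodS t ≤ prodS s := Nat.le_of_dvd (prodS_pos s hs2) (prodS_dvd s t hts')
        have h3 : (prodS t : ℝ) ≤ prodS s := by exact_mod_cast h2
        refine (h3.trans hsz).trans ?_
        apply Real.rpow_le_rpow_of_exponent_le hXr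
        linarith
    have hcard : ((s.powerset.erase ∅).card : ℝ) ≤ (X:ℝ) ^ (c / 4) := by
      refine le_trans ?_ hk2
      have : (s.powerset.erase ∅).card ≤ 2 ^ s.card := by
        rw [← card_powerset]; exact card_le_card (erase_subset _ _)
      exact_mod_cast this
    calc -(X:ℝ) ^ (1 - 3 * c / 4) = -((X:ℝ) ^ (c / 4) * (X:ℝ) ^ (1 - c)) := by
          rw [← Real.rpow_add hXp]; congr 2; ring
      _ ≤ -(((s.powerset.erase ∅).card : ℝ) * (X:ℝ) ^ (1 - c)) := by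
          have : (0:ℝ) ≤ (X:ℝ) ^ (1 - c) := by positivity
          have h3 := mul_le_mul_of_nonneg_right hcard this
          linarith
      _ = ∑ _t ∈ s.powerset.erase ∅, -(X:ℝ) ^ (1 - c) := by
          rw [sum_const, nsmul_eq_mul]; ring
      _ ≤ _ := sum_le_sum hb
  -- the term with t empty
  have hWT' : ∀ D, 1 ≤ D → 0 ≤ wt ρ D := fun D hD =>
    (hWT z X (PA a X) c C0 ρ (by omega) (by linarith) hρ D hD).1
  have hB := nonfund z r X η h1 hr (by omega) (wt ρ) hWT'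
  set L := ⌊(X:ℝ) ^ (2 * c)⌋₊ with hLdef
  have hXL : (1:ℝ) ≤ (X:ℝ) ^ (2 * c) := Real.one_le_rpow hXr (by linarith)
  have hL1 : 1 ≤ L := Nat.le_floor (by simpa using hXL)
  have hLu : (L:ℝ) ≤ (X:ℝ) ^ (2 * c) := Nat.floor_le (by positivity)
  have hLl : (X:ℝ) ^ (2 * c) ≤ 2 * L := by
    have h2 := (Nat.lt_floor_add_one ((X:ℝ) ^ (2 * c))).le
    have h3 : (1:ℝ) ≤ L := by exact_mod_cast hL1
    linarith
  have hSB := sum_bound hV0 r L η h0 h1 hz hr.1 hX3' (by linarith) hC hL1 hρ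
  have hV := hV0 z r X η (PA a X) c C0 ρ 1 hr.1 h0 (by omega) (by linarith) hρ le_rfl
    (Nat.coprime_one_left _)
  have hV' : WW z X η ρ - 2 * (X:ℝ) ^ c ≤ ∑ D ∈ DD z r X η, wt ρ D := by
    have e1 : (DD z r X η).filter (fun D => 1 ∣ D) = DD z r X η := by
      apply filter_true_of_mem
      intro D _; exact one_dvd D
    have e2 : η * X / Qz z * ∑ d ∈ Finset.Icc 1 X, ρ d / (Nat.lcm d 1 : ℝ) = WW z X η ρ := by
      unfold WW GG
      simp only [Nat.lcm_one_right]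
    rw [e1, e2] at hV
    have := (abs_le.1 hV).1
    linarith
  -- error terms
  have p1 : (X:ℝ) ^ c ≤ (X:ℝ) ^ (1 - 3 * c / 4) :=
    Real.rpow_le_rpow_of_exponent_le hXr (by linarith)
  have p2 : (L:ℝ) * (2 * (X:ℝ) ^ c) ≤ 2 * (X:ℝ) ^ (1 - 3 * c / 4) := by
    calc (L:ℝ) * (2 * (X:ℝ) ^ c) ≤ (X:ℝ) ^ (2 * c) * (2 * (X:ℝ) ^ c) := by gcongr
      _ = 2 * (X:ℝ) ^ (3 * c) := by
          rw [show (X:ℝ) ^ (2 * c) * (2 * (X:ℝ) ^ c) = 2 * ((X:ℝ) ^ (2 * c) * (X:ℝ) ^ c) by ring,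
            ← Real.rpow_add hXp]
          congr 2; ring
      _ ≤ _ := by
          have := Real.rpow_le_rpow_of_exponent_le hXr (show 3 * c ≤ 1 - 3 * c / 4 by linarith)
          linarith
  have p3 : (X:ℝ) ^ c * (2 * X) / L ≤ 4 * (X:ℝ) ^ (1 - 3 * c / 4) := by
    have hLpos : (0:ℝ) < L := by exact_mod_cast hL1
    have e : (X:ℝ) ^ c * (2 * X) = 2 * ((X:ℝ) ^ (1 - c) * (X:ℝ) ^ (2 * c)) := by
      rw [← Real.rpow_add hXp, show 1 - c + 2 * c = c + 1 by ring, Real.rpow_add hXp,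
        Real.rpow_one]; ring
    have h5 : (X:ℝ) ^ c * (2 * X) / L ≤ 4 * (X:ℝ) ^ (1 - c) := by
      rw [div_le_iff₀ hLpos, e]
      have hp : (0:ℝ) ≤ (X:ℝ) ^ (1 - c) := by positivity
      nlinarith [mul_le_mul_of_nonneg_left hLl hp]
    have h6 := Real.rpow_le_rpow_of_exponent_le hXr (show 1 - c ≤ 1 - 3 * c / 4 by linarith)
    linarith
  have p4 : 9 * (X:ℝ) ^ (1 - 3 * c / 4) ≤ ε * WW z X η ρ := by
    have h5 := hX5 X hXe
    rw [Real.norm_of_nonneg (by positivity), Real.norm_of_nonneg (by positivity),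
      Real.rpow_natCast] at h5
    have h6 : (9 * Qz z : ℝ) * Real.log X ^ C0 ≤ ε * η * (X:ℝ) ^ (3 * c / 4) := by
      calc (9 * Qz z : ℝ) * Real.log X ^ C0
          ≤ (9 * Qz z : ℝ) * (ε * η / (9 * Qz z) * (X:ℝ) ^ (3 * c / 4)) := by gcongr
        _ = _ := by field_simp
    have h7 := hρ.low
    have h8 : ε * (η * X / Qz z * (Real.log X ^ C0)⁻¹) ≤ ε * WW z X η ρ := by
      unfold WW
      gcongr
    refine le_trans ?_ h8
    have hlC : 0 < Real.log X ^ C0 := by positivity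
    have e : (X:ℝ) = (X:ℝ) ^ (1 - 3 * c / 4) * (X:ℝ) ^ (3 * c / 4) := by
      rw [← Real.rpow_add hXp]
      have : 1 - 3 * c / 4 + 3 * c / 4 = (1:ℝ) := by ring
      rw [this, Real.rpow_one]
    have e2 : ε * (η * X / Qz z * (Real.log X ^ C0)⁻¹) =
        (X:ℝ) ^ (1 - 3 * c / 4) * ((ε * η * (X:ℝ) ^ (3 * c / 4)) / (Qz z * Real.log X ^ C0)) := by
      have e4 : (X:ℝ) ^ (1 - 3 * c / 4) *
          ((ε * η * (X:ℝ) ^ (3 * c / 4)) / (Qz z * Real.log X ^ C0)) =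
          ε * (η * ((X:ℝ) ^ (1 - 3 * c / 4) * (X:ℝ) ^ (3 * c / 4)) / Qz z *
            (Real.log X ^ C0)⁻¹) := by field_simp
      rw [e4, ← e]
    rw [e2, mul_comm (9:ℝ)]
    apply mul_le_mul_of_nonneg_left _ (by positivity)
    rw [le_div_iff₀ (by positivity)]
    linarith
  rw [hexp]
  have e3 : (1 - ε - 2 * C0 / (z:ℝ)) * WW z X η ρ =
    WW z X η ρ - ε * WW z X η ρ - 2 * C0 / z * WW z X η ρ := by ring
  rw [e3]
  linarith

end Pool.Agent.H52.W.CG2
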