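import Pool.Agent.H52.W.CG2.Stubs

set_option autoImplicit false

/-! Task V0: weighted number of D divisible by e. -/

namespace Pool.Agent.H52.W.CG2

variable [Lam]

open Finset Filter NumberField Pool.Agent.H38R2.CG
open scoped Classical

namespace V0h

theorem cntAP (X X' m v : ℕ) (h : X ≤ X') (hm : 0 < m) :
    |(((Finset.Ioc X X').filter (fun D => D ≡ v [MOD m])).card : ℝ) - ((X' : ℝ) - X) / m| ≤ 1 := by
  have h1 := Nat.Ioc_filter_modEq_card X X' hm v
  have key : |(((Finset.Ioc X X').filter (fun D => D ≡ v [MOD m])).card : ℚ) -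
      ((X' : ℚ) - X) / m| ≤ 1 := by
    have h2 : ((((Finset.Ioc X X').filter (fun D => D ≡ v [MOD m])).card : ℤ) : ℚ) =
        max ((⌊((X' : ℚ) - v) / m⌋ : ℚ) - ⌊((X : ℚ) - v) / m⌋) 0 := by
      rw [h1]; push_cast; rfl
    have h3 : (((Finset.Ioc X X').filter (fun D => D ≡ v [MOD m])).card : ℚ) =
        max ((⌊((X' : ℚ) - v) / m⌋ : ℚ) - ⌊((X : ℚ) - v) / m⌋) 0 := by
      rw [← h2]; push_cast; rfl
    rw [h3]
    have a1 := Int.floor_le (((X' : ℚ) - v) / m)
    have a2 := Int.lt_floor_add_one (((X' : ℚ) - v) / m)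
    have b1 := Int.floor_le (((X : ℚ) - v) / m)
    have b2 := Int.lt_floor_add_one (((X : ℚ) - v) / m)
    have hm' : (0 : ℚ) < m := by exact_mod_cast hm
    have hX : (X : ℚ) ≤ X' := by exact_mod_cast h
    have e : ((X' : ℚ) - X) / m = ((X' : ℚ) - v) / m - ((X : ℚ) - v) / m := by
      rw [← sub_div]; congr 1; ring
    have hpos : 0 ≤ ((X' : ℚ) - X) / m := div_nonneg (by linarith) hm'.le
    rw [e] at hpos ⊢
    rw [abs_le]
    constructor
    · have := le_max_left ((⌊((X' : ℚ) - v) / m⌋ : ℚ) - ⌊((X : ℚ) - v) / m⌋) 0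
      linarith
    · rw [sub_le_iff_le_add]
      apply max_le
      · linarith
      · linarith
  have key2 := (Rat.cast_le (K := ℝ)).2 key
  rw [Rat.cast_abs] at key2
  push_cast at key2
  exact key2

theorem one_d (z r X d e : ℕ) (η : ℝ) (hr : r < Qz z) (hη : 0 < η) (hd : 1 ≤ d) (he : 1 ≤ e)
    (hdc : d.Coprime (Qz z)) (hec : e.Coprime (Qz z)) :
    |((((DD z r X η).filter (fun D => e ∣ D)).filter (fun D => d ∣ D)).card : ℝ) -
      η * X / Qz z * (1 / (Nat.lcm d e : ℝ))| ≤ 2 := by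
  set L := Nat.lcm d e with hL
  have hL1 : 0 < L := Nat.lcm_pos hd he
  have hQ : 0 < Qz z := by omega
  have hcop : (Qz z).Coprime L := by
    rw [hL]
    exact (Nat.Coprime.coprime_dvd_left (Nat.lcm_dvd_mul d e)
      (Nat.Coprime.mul_left hdc hec)).symm
  set v0 := (Nat.chineseRemainder hcop r 0 : ℕ) with hv0
  have hv1 : v0 ≡ r [MOD Qz z] := (Nat.chineseRemainder hcop r 0).2.1
  have hv2 : v0 ≡ 0 [MOD L] := (Nat.chineseRemainder hcop r 0).2.2
  set X' := ⌊(1 + η) * X⌋₊ with hX'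
  have hXX : X ≤ X' := by
    rw [hX']
    apply Nat.le_floor
    have : (0 : ℝ) ≤ η * X := by positivity
    linarith
  have hset : ((DD z r X η).filter (fun D => e ∣ D)).filter (fun D => d ∣ D) =
      (Finset.Ioc X X').filter (fun D => D ≡ v0 [MOD (Qz z * L)]) := by
    unfold DD
    ext D
    simp only [Finset.mem_filter]
    rw [← Nat.modEq_and_modEq_iff_modEq_mul hcop]
    constructor
    · rintro ⟨⟨⟨h1, h2⟩, h3⟩, h4⟩
      refine ⟨h1, ?_, ?_⟩
      · refine Nat.ModEq.trans ?_ hv1.symm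
        unfold Nat.ModEq
        rw [h2, Nat.mod_eq_of_lt hr]
      · refine Nat.ModEq.trans ?_ hv2.symm
        rw [Nat.modEq_zero_iff_dvd]
        exact Nat.lcm_dvd h4 h3
    · rintro ⟨h1, h2, h3⟩
      have h2' := h2.trans hv1
      have h3' := (Nat.modEq_zero_iff_dvd).1 (h3.trans hv2)
      refine ⟨⟨⟨h1, ?_⟩, (Nat.dvd_lcm_right d e).trans h3'⟩, (Nat.dvd_lcm_left d e).trans h3'⟩
      unfold Nat.ModEq at h2'
      rw [h2', Nat.mod_eq_of_lt hr]
  rw [hset]
  have h1 := cntAP X X' (Qz z * L) v0 hXX (Nat.mul_pos hQ hL1)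
  have hQL : (1 : ℝ) ≤ ((Qz z * L : ℕ) : ℝ) := by exact_mod_cast Nat.mul_pos hQ hL1
  have hf1 : (X' : ℝ) ≤ (1 + η) * X := Nat.floor_le (by positivity)
  have hf2 : (1 + η) * X < (X' : ℝ) + 1 := Nat.lt_floor_add_one _
  have h2 : |((X' : ℝ) - X) / ((Qz z * L : ℕ) : ℝ) - η * X / Qz z * (1 / (L : ℝ))| ≤ 1 := by
    have e1 : η * X / Qz z * (1 / (L : ℝ)) = (η * X) / ((Qz z * L : ℕ) : ℝ) := by
      push_cast
      rw [div_mul_div_comm, mul_one]
    rw [e1, ← sub_div, abs_div, abs_of_pos (by linarith : (0 : ℝ) < ((Qz z * L : ℕ) : ℝ)),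
      div_le_one (by linarith)]
    refine le_trans ?_ hQL
    rw [abs_le]
    constructor <;> linarith
  have := abs_add_le
    ((((Finset.Ioc X X').filter (fun D => D ≡ v0 [MOD (Qz z * L)])).card : ℝ) -
      ((X' : ℝ) - X) / ((Qz z * L : ℕ) : ℝ))
    (((X' : ℝ) - X) / ((Qz z * L : ℕ) : ℝ) - η * X / Qz z * (1 / (L : ℝ)))
  rw [sub_add_sub_cancel] at this
  linarith

end V0h

open V0h in
theorem T2_V0 : P2_WT → P2_V0 := by
  intro hWT z r X η P δ C0 ρ e hr hη hX hδ hS he hec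
  have h1 : ∀ D ∈ (DD z r X η).filter (fun D => e ∣ D), wt ρ D =
      ∑ d ∈ Finset.Icc 1 X, (if d ∣ D then ρ d else 0) := by
    intro D hD
    have hD1 : 1 ≤ D := by
      unfold DD at hD
      simp only [Finset.mem_filter, Finset.mem_Ioc] at hD
      omega
    rw [(hWT z X P δ C0 ρ hX hδ hS D hD1).2, Finset.sum_filter]
  rw [Finset.sum_congr rfl h1, Finset.sum_comm, Finset.mul_sum, ← Finset.sum_sub_distrib]
  have h2 : ∀ d ∈ Finset.Icc 1 X,
      |(∑ D ∈ (DD z r X η).filter (fun D => e ∣ D), (if d ∣ D then ρ d else 0)) -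
        η * X / Qz z * (ρ d / (Nat.lcm d e : ℝ))| ≤ (if ρ d ≠ 0 then 2 else 0) := by
    intro d hd
    by_cases h0 : ρ d = 0
    · simp [h0]
    · rw [if_pos h0]
      have hs := hS.supp d h0
      have e1 : (∑ D ∈ (DD z r X η).filter (fun D => e ∣ D), (if d ∣ D then ρ d else 0)) =
          ρ d * ((((DD z r X η).filter (fun D => e ∣ D)).filter (fun D => d ∣ D)).card : ℝ) := by
        rw [← Finset.sum_filter, Finset.sum_const, nsmul_eq_mul, mul_comm]
      have e2 : η * X / Qz z * (ρ d / (Nat.lcm d e : ℝ)) =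
          ρ d * (η * X / Qz z * (1 / (Nat.lcm d e : ℝ))) := by ring
      rw [e1, e2, ← mul_sub, abs_mul]
      have h3 := one_d z r X d e η hr hη hs.1 he hs.2.2.2.1 hec
      calc |ρ d| * _ ≤ 1 * 2 := mul_le_mul (hS.bd d) h3 (abs_nonneg _) zero_le_one
        _ = 2 := one_mul _
  refine (Finset.abs_sum_le_sum_abs _ _).trans ((Finset.sum_le_sum h2).trans ?_)
  rw [← Finset.sum_filter, Finset.sum_const, nsmul_eq_mul, mul_comm]
  refine mul_le_mul_of_nonneg_left ?_ (by norm_num)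
  have h4 : (Finset.Icc 1 X).filter (fun d => ρ d ≠ 0) ⊆ Finset.Icc 1 ⌊(X : ℝ) ^ δ⌋₊ := by
    intro d hd
    rw [Finset.mem_filter] at hd
    have hs := hS.supp d hd.2
    rw [Finset.mem_Icc]
    exact ⟨hs.1, Nat.le_floor hs.2.1⟩
  have h5 := Finset.card_le_card h4
  rw [Nat.card_Icc, Nat.add_sub_cancel] at h5
  calc (((Finset.Icc 1 X).filter (fun d => ρ d ≠ 0)).card : ℝ) ≤ (⌊(X : ℝ) ^ δ⌋₊ : ℝ) := by
        exact_mod_cast h5
    _ ≤ (X : ℝ) ^ δ := Nat.floor_le (by positivity)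

end Pool.Agent.H52.W.CG2
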