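import Pool.Agent.H52.W.CG2.Stubs

/-!
# Class groups, second part: pairs of disjoint sets
-/

set_option autoImplicit false

namespace Pool.Agent.H52.W.CG2

variable [Lam]

open Finset Filter NumberField Pool.Agent.H38R2.CG
open scoped Classical

namespace TMah

theorem prodS_empty : prodS ∅ = 1 := by simp [prodS]

theorem chi_abs (D : ℤ) (n : ℕ) : |(chi D n : ℝ)| ≤ 1 := by
  have h1 : |chi D n| ≤ 1 := by
    unfold chi
    rw [abs_mul, abs_pow]
    have h2 : |chi2 D| ≤ 1 := by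
      unfold chi2
      split_ifs <;> simp
    have h3 : |chi2 D| ^ (padicValNat 2 n) ≤ 1 := pow_le_one₀ (abs_nonneg _) h2
    have h4 : |jacobiSym D (n / 2 ^ padicValNat 2 n)| ≤ 1 := by
      rcases jacobiSym.trichotomy D (n / 2 ^ padicValNat 2 n) with h | h | h <;> rw [h] <;> simp
    have h5 : 0 ≤ |chi2 D| ^ (padicValNat 2 n) := by positivity
    have h6 : 0 ≤ |jacobiSym D (n / 2 ^ padicValNat 2 n)| := abs_nonneg _
    nlinarith
  exact_mod_cast h1

theorem PiR_pos (z r : ℕ) : 0 < PiR z r := by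
  unfold PiR
  refine Finset.prod_pos fun l hl => ?_
  rw [mem_filter, mem_Icc] at hl
  have h1 : (2 : ℝ) ≤ l := by exact_mod_cast hl.1.1
  have h2 := chi_abs r l
  rw [abs_le] at h2
  have h3 : (chi r l : ℝ) / l < 1 := by
    rw [div_lt_one (by linarith)]
    linarith [h2.2]
  linarith

theorem Qz_pos (z : ℕ) : 0 < Qz z := by
  unfold Qz
  refine Nat.mul_pos (by norm_num) (Finset.prod_pos fun l hl => ?_)
  rw [mem_filter, mem_Icc] at hl
  have : 0 < l := by omega
  positivity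

theorem exists_kappa (ε : ℝ) (hε : 0 < ε) : ∃ κ : ℝ, 0 < κ ∧ κ ≤ 1 ∧
    (1 + κ) * (Real.exp (κ / 2) * Real.exp (κ / 2)) * (1 + κ) ≤ 1 + ε := by
  have h1 : ContinuousAt (fun κ : ℝ => (1 + κ) * (Real.exp (κ / 2) * Real.exp (κ / 2)) * (1 + κ)) 0 := by
    fun_prop
  have h2 : Tendsto (fun κ : ℝ => (1 + κ) * (Real.exp (κ / 2) * Real.exp (κ / 2)) * (1 + κ))
      (nhds 0) (nhds 1) := by
    have := h1.tendsto
    simpa using this
  have h3 : ∀ᶠ κ in nhds (0 : ℝ),
      (1 + κ) * (Real.exp (κ / 2) * Real.exp (κ / 2)) * (1 + κ) < 1 + ε :=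
    h2.eventually (gt_mem_nhds (by linarith))
  rw [Metric.eventually_nhds_iff] at h3
  obtain ⟨δ, hδ, h4⟩ := h3
  refine ⟨min (δ / 2) 1, by positivity, min_le_right _ _, (h4 ?_).le⟩
  rw [Real.dist_eq, sub_zero, abs_of_pos (by positivity)]
  exact lt_of_le_of_lt (min_le_left _ _) (by linarith)

theorem cc_pos (a : ℝ) (ha : 2 < a) : 0 < cc a := by
  exact ccpos (by assumption)

theorem cc_lt (a : ℝ) (ha : 2 < a) : cc a < 1 / 32 := by
  have h32 := cclt (a := a) (by assumption)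
  linarith

/-- bound at zero -/
theorem F0_bound (hTB : P_TB2) (a : ℝ) (ha : 2 < a) (X : ℕ) (hX : 3 ≤ X) (η : ℝ) (hη0 : 0 < η)
    (hη1 : η ≤ 1) (t : ℝ) (ht : 2 * th a * Real.log X - 1 ≤ t) (v : ℝ) :
    om X η v (Real.exp t) ≤ η * (X : ℝ) ^ (1 / 4 : ℝ) := by
  have h1 := (hTB X η (by omega) hη0 hη1 (Real.exp t) (Real.exp_pos t)).2.2.1 v
  refine h1.trans ?_
  have hXR : (3 : ℝ) ≤ X := by exact_mod_cast hX
  have hX0 : (0 : ℝ) < X := by linarith
  have hX1 : (1 : ℝ) ≤ X := by linarith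
  have h2 : √(Real.exp t) = Real.exp (t / 2) := by
    rw [Real.sqrt_eq_rpow, ← Real.exp_mul]
    congr 1
    ring
  rw [h2]
  have h3 : (X : ℝ) ^ (th a) / 2 ≤ Real.exp (t / 2) := by
    have h4 : (X : ℝ) ^ (th a) * Real.exp (-(1 / 2)) ≤ Real.exp (t / 2) := by
      rw [Real.rpow_def_of_pos hX0, ← Real.exp_add, Real.exp_le_exp]
      linarith
    have h5 : (1 / 2 : ℝ) ≤ Real.exp (-(1 / 2)) := by
      have := Real.add_one_le_exp (-(1 / 2) : ℝ)
      linarith
    have h6 : 0 ≤ (X : ℝ) ^ (th a) := by positivity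
    nlinarith
  have hth : 3 / 4 ≤ th a := by
    unfold th
    linarith [cc_lt a ha]
  have h7 : (X : ℝ) ^ (3 / 4 : ℝ) ≤ (X : ℝ) ^ (th a) := Real.rpow_le_rpow_of_exponent_le hX1 hth
  have h8 : (0 : ℝ) < (X : ℝ) ^ (3 / 4 : ℝ) := by positivity
  have h9 : (X : ℝ) = (X : ℝ) ^ (1 / 4 : ℝ) * (X : ℝ) ^ (3 / 4 : ℝ) := by
    rw [← Real.rpow_add hX0]
    norm_num
  have h10 : (0 : ℝ) < (X : ℝ) ^ (1 / 4 : ℝ) := by positivity
  rw [div_le_iff₀ (by positivity)]
  have h11 : (X : ℝ) ^ (3 / 4 : ℝ) ≤ 4 * Real.exp (t / 2) := by linarith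
  calc η * (X : ℝ) = η * (X : ℝ) ^ (1 / 4 : ℝ) * (X : ℝ) ^ (3 / 4 : ℝ) := by
        conv_lhs => rw [h9]
        ring
    _ ≤ η * (X : ℝ) ^ (1 / 4 : ℝ) * (4 * Real.exp (t / 2)) := by gcongr

/-- the rescaled density -/
theorem F_props (hTB : P_TB2) (X : ℕ) (hX : 1 ≤ X) (η : ℝ) (hη0 : 0 < η) (hη1 : η ≤ 1)
    (η' : ℝ) (t : ℝ) :
    AntitoneOn (fun v : ℝ => om X η (v * Real.exp (-(η' / 2))) (Real.exp t)) (Set.Ici 0) ∧
    (∀ v : ℝ, 0 ≤ om X η (v * Real.exp (-(η' / 2))) (Real.exp t)) ∧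
    (∀ V : ℝ, 0 ≤ V → ∫ x in (0 : ℝ)..V, om X η (x * Real.exp (-(η' / 2))) (Real.exp t) ≤
      Real.exp (η' / 2) * (η * √(X : ℝ) / 8)) := by
  obtain ⟨h1, h2, -, h3, -⟩ := hTB X η hX hη0 hη1 (Real.exp t) (Real.exp_pos t)
  have he : 0 < Real.exp (-(η' / 2)) := Real.exp_pos _
  refine ⟨?_, fun v => h2 _, ?_⟩
  · intro x hx y hy hxy
    rw [Set.mem_Ici] at hx hy
    exact h1 (Set.mem_Ici.2 (by positivity)) (Set.mem_Ici.2 (by positivity))
      (mul_le_mul_of_nonneg_right hxy he.le)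
  · intro V hV
    have h4 := intervalIntegral.integral_comp_mul_right (a := 0) (b := V)
      (fun x => om X η x (Real.exp t)) he.ne'
    rw [h4, zero_mul, smul_eq_mul, ← Real.exp_neg, neg_neg]
    exact mul_le_mul_of_nonneg_left (h3 _ (by positivity)) (Real.exp_pos _).le

end TMah

open TMah in
theorem T2_TMa : P2_SZ → P2_NB → P_TB2 → P2_FJ → P2_JP → P2_OMC → P2_OM → P2_TA → P2_TMa := by
  intro hSZ _ hTB hFJ hJP hOMC hOM hTA a ha z r hz hr η hη0 hη1 C0 hC0 ε hε
  obtain ⟨hf0, hfn, hfc, hf4, -⟩ := hFJ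
  have hP := PiR_pos z r
  obtain ⟨κ, hκ, hκ1, hκε⟩ := exists_kappa ε hε
  obtain ⟨l, hl, hom⟩ := hOM κ κ hκ hκ hκ1
  set ε₁ : ℝ := κ * PiR z r / (1 + 3 * l / fejI) with hε₁
  have hden : 0 < 1 + 3 * l / fejI := by positivity
  have hε₁0 : 0 < ε₁ := by positivity
  obtain ⟨X1, hX1⟩ := hTA a ha z r hz hr C0 hC0 l ε₁ hl hε₁0
  obtain ⟨X2, hX2⟩ := hSZ a ha
  set q : ℝ := ((∏ q ∈ (Finset.Icc 2 z).filter Nat.Prime, q : ℕ) : ℝ) with hq
  have hq0 : 0 ≤ q := Nat.cast_nonneg _
  have hlim : Tendsto (fun X : ℕ => (X : ℝ) ^ (1 / 4 : ℝ)) atTop atTop :=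
    (tendsto_rpow_atTop (by norm_num)).comp tendsto_natCast_atTop_atTop
  obtain ⟨X3, hX3⟩ := Filter.eventually_atTop.1 (hlim.eventually_ge_atTop (16 * q / κ))
  refine ⟨max (max X1 X2) (max X3 3), ?_⟩
  intro X hX ρ hρ
  have hXa : X1 ≤ X := le_trans (le_trans (le_max_left _ _) (le_max_left _ _)) hX
  have hXb : X2 ≤ X := le_trans (le_trans (le_max_right _ _) (le_max_left _ _)) hX
  have hXc : X3 ≤ X := le_trans (le_trans (le_max_left _ _) (le_max_right _ _)) hX
  have hXd : 3 ≤ X := le_trans (le_trans (le_max_right _ _) (le_max_right _ _)) hX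
  have hXR : (3 : ℝ) ≤ X := by exact_mod_cast hXd
  have hX0 : (0 : ℝ) < X := by linarith
  have hXone : 1 ≤ X := by omega
  have hlog : 1 ≤ Real.log X := by
    rw [Real.le_log_iff_exp_le hX0]
    linarith [Real.exp_one_lt_three]
  set L := Real.log X with hL
  set T0 : ℝ := 2 * th a * L - 1 with hT0
  set T1 : ℝ := 2 * (th a + cc a) * L + 1 with hT1
  have hccp := cc_pos a ha
  have hccl := cc_lt a ha
  have hT01 : T1 - T0 ≤ 3 * L := by
    rw [hT0, hT1]
    nlinarith
  have hT01' : T0 ≤ T1 := by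
    rw [hT0, hT1]
    nlinarith
  have hGG : 0 < GG X ρ := lt_of_lt_of_le (by positivity) hρ.low
  have hQ : (0 : ℝ) < Qz z := by exact_mod_cast Qz_pos z
  set V : ℕ := ⌊(X : ℝ) ^ (1 - cc a)⌋₊ with hV
  have hVX : (V : ℝ) ≤ (X : ℝ) ^ (1 - cc a) := Nat.floor_le (by positivity)
  set I : ℝ := Real.exp (κ / 2) * (η * √(X : ℝ) / 8) with hI
  have hI0 : 0 < I := by positivity
  -- the functions
  set F : ℝ → ℝ → ℝ := fun t v => om X η (v * Real.exp (-(κ / 2))) (Real.exp t) with hF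
  have hFc : ∀ v : ℝ, 0 ≤ v → Continuous (fun t => F t v) := by
    intro v hv
    exact hOMC X η (v * Real.exp (-(κ / 2))) hXone hη0 hη1 (by positivity)
  set w : Finset ℕ → Finset ℕ → ℕ → ℝ := fun s t v =>
    (rhoQ z r (prodS s * prodS t) v : ℝ) * JJ z X ρ ∅ (prodS s * prodS t) v with hw
  have hw0 : ∀ s t v, 0 ≤ w s t v := by
    intro s t v
    exact mul_nonneg (Nat.cast_nonneg _) (hJP z X _ _ C0 ρ ∅ _ v hρ)
  set x : Finset ℕ → Finset ℕ → ℝ := fun s t => Real.log (prodS s * prodS t : ℕ) with hx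
  have hxr : ∀ s ∈ SA a X, ∀ t ∈ SA a X, 0 < ((prodS s * prodS t : ℕ) : ℝ) ∧
      T0 + κ ≤ x s t ∧ x s t + κ ≤ T1 := by
    intro s hs t ht
    unfold SA at hs ht
    rw [mem_powersetCard] at hs ht
    have h1 := hX2 X hXb ∅ s (Finset.empty_subset _) hs.1 (by rw [card_empty, zero_add, hs.2])
    have h2 := hX2 X hXb ∅ t (Finset.empty_subset _) ht.1 (by rw [card_empty, zero_add, ht.2])
    rw [prodS_empty, Nat.cast_one, one_mul] at h1 h2
    have h3 : (0 : ℝ) < (X : ℝ) ^ (th a) := by positivity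
    have h4 : (0 : ℝ) < (prodS s : ℝ) := lt_of_lt_of_le h3 h1.1
    have h5 : (0 : ℝ) < (prodS t : ℝ) := lt_of_lt_of_le h3 h2.1
    have h6 : ∀ u : ℝ, (X : ℝ) ^ (th a) ≤ u → u ≤ (X : ℝ) ^ (th a + cc a) →
        th a * L ≤ Real.log u ∧ Real.log u ≤ (th a + cc a) * L := by
      intro u hu1 hu2
      have hu0 : 0 < u := lt_of_lt_of_le h3 hu1
      have e1 := Real.log_le_log h3 hu1
      have e2 := Real.log_le_log hu0 hu2
      rw [Real.log_rpow hX0] at e1 e2
      exact ⟨e1, e2⟩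
    have h7 := h6 _ h1.1 h1.2
    have h8 := h6 _ h2.1 h2.2
    have h9 : x s t = Real.log (prodS s) + Real.log (prodS t) := by
      simp only [hx]
      push_cast
      rw [Real.log_mul h4.ne' h5.ne']
    refine ⟨by push_cast; positivity, ?_, ?_⟩
    · rw [h9, hT0]; linarith [h7.1, h8.1]
    · rw [h9, hT1]; linarith [h7.2, h8.2]
  set c : ℝ := l / fejI with hc
  have hc0 : 0 < c := by positivity
  have hfejc : ∀ y : ℝ, Continuous (fun t => fej (l * (y - t))) := by
    intro y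
    exact hfc.comp (by fun_prop)
  -- the integrated quantity
  set G : ℝ → ℝ := fun t => ∑ v ∈ Finset.Icc 1 V, F t v * ∑ s ∈ SA a X, ∑ t' ∈ SA a X,
    (rhoQ z r (prodS s * prodS t') v : ℝ) * JJ z X ρ ∅ (prodS s * prodS t') v *
      fej (l * (Real.log (prodS s * prodS t' : ℕ) - t)) with hG
  have hGc : Continuous G := by
    simp only [hG]
    refine continuous_finsetSum _ fun v _ => ?_
    refine (hFc v (Nat.cast_nonneg _)).mul ?_
    refine continuous_finsetSum _ fun s _ => continuous_finsetSum _ fun t' _ => ?_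
    exact continuous_const.mul (hfejc _)
  -- Step 1
  have hstep1 : ∑ s ∈ SA a X, ∑ t ∈ SA a X, MT a z r X η ρ ∅ s t ≤
      (1 + κ) * Real.exp (κ / 2) / Qz z * ∫ t in T0..T1, c * G t := by
    have h1 : ∀ s ∈ SA a X, ∀ t ∈ SA a X, MT a z r X η ρ ∅ s t ≤
        ∑ v ∈ Finset.Icc 1 V, (1 + κ) * Real.exp (κ / 2) / Qz z *
          ∫ u in T0..T1, c * (F u v * (w s t v * fej (l * (x s t - u)))) := by
      intro s hs t ht
      unfold MT
      rw [prodS_empty, one_pow, one_mul]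
      refine Finset.sum_le_sum fun v _ => ?_
      obtain ⟨hn, hx1, hx2⟩ := hxr s hs t ht
      have h2 := hom X η v (x s t) T0 T1 hXone hη0 hη1 (Nat.cast_nonneg v) hx1 hx2
      have h3 : Real.exp (x s t) = ((prodS s * prodS t : ℕ) : ℝ) := Real.exp_log hn
      rw [h3] at h2
      have h4 : ∫ u in T0..T1, c * (F u v * (w s t v * fej (l * (x s t - u)))) =
          w s t v * ∫ u in T0..T1, om X η (v * Real.exp (-(κ / 2))) (Real.exp u) *
            (l / fejI * fej (l * (x s t - u))) := by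
        rw [← intervalIntegral.integral_const_mul]
        refine intervalIntegral.integral_congr fun u _ => ?_
        simp only [hF, hc]
        ring
      rw [h4]
      calc om X η v ((prodS s * prodS t : ℕ) : ℝ) / Qz z * w s t v
          ≤ ((1 + κ) * Real.exp (κ / 2) * (∫ t_1 in T0..T1,
            om X η (v * Real.exp (-(κ / 2))) (Real.exp t_1) *
              (l / fejI * fej (l * (x s t - t_1))))) / Qz z * w s t v := by
            have := hw0 s t v
            gcongr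
        _ = _ := by ring
    refine (Finset.sum_le_sum fun s hs => Finset.sum_le_sum fun t ht => h1 s hs t ht).trans ?_
    have h5 : ∫ t in T0..T1, c * G t = ∑ v ∈ Finset.Icc 1 V, ∑ s ∈ SA a X, ∑ t ∈ SA a X,
        ∫ u in T0..T1, c * (F u v * (w s t v * fej (l * (x s t - u)))) := by
      have h6 : ∀ u, c * G u = ∑ v ∈ Finset.Icc 1 V, ∑ s ∈ SA a X, ∑ t ∈ SA a X,
          c * (F u v * (w s t v * fej (l * (x s t - u)))) := by
        intro u
        simp only [hG, Finset.mul_sum]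
        refine Finset.sum_congr rfl fun v _ => Finset.sum_congr rfl fun s _ =>
          Finset.sum_congr rfl fun t _ => ?_
        simp only [hw, hx]
      simp only [h6]
      have hcont : ∀ (v : ℕ) (s t : Finset ℕ), Continuous
          (fun u => c * (F u v * (w s t v * fej (l * (x s t - u))))) := fun v s t =>
        continuous_const.mul ((hFc v (Nat.cast_nonneg _)).mul (continuous_const.mul (hfejc _)))
      rw [intervalIntegral.integral_finsetSum]
      · refine Finset.sum_congr rfl fun v _ => ?_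
        rw [intervalIntegral.integral_finsetSum]
        · refine Finset.sum_congr rfl fun s _ => ?_
          rw [intervalIntegral.integral_finsetSum]
          intro t _
          exact (hcont v s t).intervalIntegrable _ _
        · intro s _
          exact (continuous_finsetSum _ fun t _ => hcont v s t).intervalIntegrable _ _
      · intro v _
        exact (continuous_finsetSum _ fun s _ =>
          continuous_finsetSum _ fun t _ => hcont v s t).intervalIntegrable _ _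
    rw [h5]
    simp only [Finset.mul_sum]
    have h7 : ∀ f : Finset ℕ → Finset ℕ → ℕ → ℝ, ∑ s ∈ SA a X, ∑ t ∈ SA a X,
        ∑ v ∈ Finset.Icc 1 V, f s t v = ∑ v ∈ Finset.Icc 1 V, ∑ s ∈ SA a X, ∑ t ∈ SA a X,
        f s t v := by
      intro f
      have e1 : ∀ s ∈ SA a X, ∑ t ∈ SA a X, ∑ v ∈ Finset.Icc 1 V, f s t v =
          ∑ v ∈ Finset.Icc 1 V, ∑ t ∈ SA a X, f s t v := fun s _ => Finset.sum_comm
      rw [Finset.sum_congr rfl e1, Finset.sum_comm]
    rw [h7]
  -- Step 2: the bound for one t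
  set N2 : ℝ := (NA a X) ^ 2 with hN2
  have hN20 : 0 ≤ N2 := sq_nonneg _
  have hSF0 : ∀ t, 0 ≤ SF a X (kA a X) ∅ l t := by
    intro t
    unfold SF
    exact Finset.sum_nonneg fun s _ => Finset.sum_nonneg fun t' _ => hfn _
  have hF0 : ∀ t, T0 ≤ t → q * F t 0 ≤ κ / 2 * I := by
    intro t ht
    have h1 := F0_bound hTB a ha X hXd η hη0 hη1 t ht (0 * Real.exp (-(κ / 2)))
    have h2 : F t 0 ≤ η * (X : ℝ) ^ (1 / 4 : ℝ) := h1
    have h3 := hX3 X hXc
    rw [div_le_iff₀ hκ] at h3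
    have h4 : √(X : ℝ) = (X : ℝ) ^ (1 / 4 : ℝ) * (X : ℝ) ^ (1 / 4 : ℝ) := by
      rw [← Real.rpow_add hX0, Real.sqrt_eq_rpow]
      norm_num
    have h5 : 1 ≤ Real.exp (κ / 2) := Real.one_le_exp (by positivity)
    have h6 : (0 : ℝ) < (X : ℝ) ^ (1 / 4 : ℝ) := by positivity
    calc q * F t 0 ≤ q * (η * (X : ℝ) ^ (1 / 4 : ℝ)) := by gcongr
      _ = (16 * q) * (η * (X : ℝ) ^ (1 / 4 : ℝ)) / 16 := by ring
      _ ≤ ((X : ℝ) ^ (1 / 4 : ℝ) * κ) * (η * (X : ℝ) ^ (1 / 4 : ℝ)) / 16 := by gcongr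
      _ = κ / 2 * (1 * (η * √(X : ℝ) / 8)) := by rw [h4]; ring
      _ ≤ κ / 2 * I := by rw [hI]; gcongr
  have hstep2 : ∀ t, T0 ≤ t → G t ≤ GG X ρ *
      ((2 * PiR z r * ((1 + κ / 2) * I) + ε₁ * I) * SF a X (kA a X) ∅ l t + ε₁ * I * (N2 / L)) := by
    intro t ht
    obtain ⟨g1, g2, g3⟩ := F_props hTB X hXone η hη0 hη1 κ t
    have h1 := hX1 X hXa ρ hρ V (F t) I t g1 g2 g3 hVX
    refine h1.trans ?_
    refine mul_le_mul_of_nonneg_left ?_ hGG.le
    have h2 := hF0 t ht
    have h3 := hSF0 t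
    have h4 : 2 * PiR z r * (q * F t 0 + I) * SF a X (kA a X) ∅ l t ≤
        2 * PiR z r * ((1 + κ / 2) * I) * SF a X (kA a X) ∅ l t := by
      refine mul_le_mul_of_nonneg_right (mul_le_mul_of_nonneg_left ?_ (by positivity)) h3
      linarith
    calc _ ≤ 2 * PiR z r * ((1 + κ / 2) * I) * SF a X (kA a X) ∅ l t +
          ε₁ * I * (SF a X (kA a X) ∅ l t + N2 / L) := by gcongr
      _ = _ := by ring
  -- Step 3: integration
  have hSFc : Continuous (fun t => SF a X (kA a X) ∅ l t) := by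
    unfold SF
    exact continuous_finsetSum _ fun s _ => continuous_finsetSum _ fun t' _ => hfejc _
  have hSFI : ∫ t in T0..T1, c * SF a X (kA a X) ∅ l t ≤ N2 := by
    have h1 : ∀ t, c * SF a X (kA a X) ∅ l t = ∑ s ∈ (PA a X).powersetCard (kA a X),
        ∑ t' ∈ (PA a X).powersetCard (kA a X), (1 / fejI) *
          (l * fej (l * (Real.log (prodS ∅ ^ 2 * (prodS s * prodS t') : ℕ) - t))) := by
      intro t
      unfold SF
      simp only [Finset.mul_sum]
      refine Finset.sum_congr rfl fun s _ => Finset.sum_congr rfl fun t' _ => ?_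
      rw [hc]
      ring
    simp only [h1]
    have hcont : ∀ (s t' : Finset ℕ), Continuous (fun t => (1 / fejI) *
          (l * fej (l * (Real.log (prodS ∅ ^ 2 * (prodS s * prodS t') : ℕ) - t)))) := fun s t' =>
      continuous_const.mul (continuous_const.mul (hfejc _))
    rw [intervalIntegral.integral_finsetSum]
    · have h2 : ∀ s ∈ (PA a X).powersetCard (kA a X), ∫ t in T0..T1,
          ∑ t' ∈ (PA a X).powersetCard (kA a X), (1 / fejI) *
          (l * fej (l * (Real.log (prodS ∅ ^ 2 * (prodS s * prodS t') : ℕ) - t))) ≤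
          ∑ t' ∈ (PA a X).powersetCard (kA a X), (1 : ℝ) := by
        intro s _
        rw [intervalIntegral.integral_finsetSum]
        · refine Finset.sum_le_sum fun t' _ => ?_
          rw [intervalIntegral.integral_const_mul]
          have h3 := hf4 l (Real.log (prodS ∅ ^ 2 * (prodS s * prodS t') : ℕ)) T0 T1 hl hT01'
          rw [one_div, inv_mul_le_iff₀ hf0, mul_one]
          exact h3
        · intro t' _
          exact (hcont s t').intervalIntegrable _ _
      refine (Finset.sum_le_sum h2).trans (le_of_eq ?_)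
      simp only [Finset.sum_const, Finset.card_powersetCard, nsmul_eq_mul, mul_one]
      rw [hN2]
      unfold NA CA
      ring
    · intro s _
      exact (continuous_finsetSum _ fun t' _ => hcont s t').intervalIntegrable _ _
  have hstep3 : ∫ t in T0..T1, c * G t ≤ GG X ρ *
      ((2 * PiR z r * ((1 + κ / 2) * I) + ε₁ * I) * N2 + ε₁ * I * (3 * c) * N2) := by
    have h1 : ∫ t in T0..T1, c * G t ≤ ∫ t in T0..T1, c * (GG X ρ *
      ((2 * PiR z r * ((1 + κ / 2) * I) + ε₁ * I) * SF a X (kA a X) ∅ l t +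
        ε₁ * I * (N2 / L))) := by
      refine intervalIntegral.integral_mono_on hT01' ?_ ?_ ?_
      · exact (continuous_const.mul hGc).intervalIntegrable _ _
      · exact (continuous_const.mul (continuous_const.mul
          ((continuous_const.mul hSFc).add continuous_const))).intervalIntegrable _ _
      · intro t ht
        exact mul_le_mul_of_nonneg_left (hstep2 t ht.1) hc0.le
    refine h1.trans ?_
    have h2 : ∀ t, c * (GG X ρ *
      ((2 * PiR z r * ((1 + κ / 2) * I) + ε₁ * I) * SF a X (kA a X) ∅ l t +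
        ε₁ * I * (N2 / L))) = GG X ρ * (2 * PiR z r * ((1 + κ / 2) * I) + ε₁ * I) *
          (c * SF a X (kA a X) ∅ l t) + GG X ρ * (c * (ε₁ * I * (N2 / L))) := by
      intro t
      ring
    simp only [h2]
    rw [intervalIntegral.integral_add, intervalIntegral.integral_const_mul,
      intervalIntegral.integral_const, smul_eq_mul]
    · have hA : 0 ≤ GG X ρ * (2 * PiR z r * ((1 + κ / 2) * I) + ε₁ * I) := by positivity
      have h3 := mul_le_mul_of_nonneg_left hSFI hA
      have h4 : (T1 - T0) * (GG X ρ * (c * (ε₁ * I * (N2 / L)))) ≤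
          (3 * L) * (GG X ρ * (c * (ε₁ * I * (N2 / L)))) := by
        refine mul_le_mul_of_nonneg_right hT01 ?_
        have : 0 < L := by linarith
        positivity
      have h5 : (3 * L) * (GG X ρ * (c * (ε₁ * I * (N2 / L)))) =
          GG X ρ * (ε₁ * I * (3 * c) * N2) := by
        have : L ≠ 0 := by linarith
        field_simp
      rw [h5] at h4
      calc _ ≤ GG X ρ * (2 * PiR z r * ((1 + κ / 2) * I) + ε₁ * I) * N2 +
            GG X ρ * (ε₁ * I * (3 * c) * N2) := add_le_add h3 h4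
        _ = _ := by ring
    · exact (continuous_const.mul (continuous_const.mul hSFc)).intervalIntegrable _ _
    · exact continuous_const.intervalIntegrable _ _
  -- Conclusion
  refine hstep1.trans ?_
  have h1 : (1 + κ) * Real.exp (κ / 2) / Qz z * ∫ t in T0..T1, c * G t ≤
      (1 + κ) * Real.exp (κ / 2) / Qz z * (GG X ρ *
      ((2 * PiR z r * ((1 + κ / 2) * I) + ε₁ * I) * N2 + ε₁ * I * (3 * c) * N2)) :=
    mul_le_mul_of_nonneg_left hstep3 (by positivity)
  refine h1.trans ?_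
  have h2 : ε₁ + ε₁ * (3 * c) = κ * PiR z r := by
    rw [hε₁, hc]
    field_simp
  have h3 : (2 * PiR z r * ((1 + κ / 2) * I) + ε₁ * I) * N2 + ε₁ * I * (3 * c) * N2 =
      2 * PiR z r * (1 + κ) * I * N2 := by
    calc _ = (2 * PiR z r * (1 + κ / 2) + (ε₁ + ε₁ * (3 * c))) * I * N2 := by ring
      _ = _ := by rw [h2]; ring
  rw [h3, hI]
  have h4 : (1 + κ) * Real.exp (κ / 2) / Qz z * (GG X ρ *
      (2 * PiR z r * (1 + κ) * (Real.exp (κ / 2) * (η * √(X : ℝ) / 8)) * N2)) =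
      ((1 + κ) * (Real.exp (κ / 2) * Real.exp (κ / 2)) * (1 + κ)) *
        (PiR z r / (4 * Qz z) * GG X ρ * η * √(X : ℝ) * N2) := by
    field_simp
    ring
  rw [h4]
  calc _ ≤ (1 + ε) * (PiR z r / (4 * Qz z) * GG X ρ * η * √(X : ℝ) * N2) :=
        mul_le_mul_of_nonneg_right hκε (by positivity)
    _ = _ := by ring

end Pool.Agent.H52.W.CG2
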