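import Pool.Agent.H52.W.CG2.Stubs

/-!
# CG2 task JP: the kernel is nonnegative
-/

set_option autoImplicit false

namespace Pool.Agent.H52.W.CG2

variable [Lam]

open Finset Filter NumberField Pool.Agent.H38R2.CG
open scoped Classical

namespace JPh

theorem jac_bd (m : ℤ) (p : ℕ) :
    0 ≤ 1 + (jacobiSym m p : ℝ) ∧ 1 + (jacobiSym m p : ℝ) ≤ 2 := by
  rcases jacobiSym.trichotomy m p with h | h | h
  · rw [h]; norm_num
  · rw [h]; norm_num
  · rw [h]; norm_num

theorem tau_nonneg (c : Finset ℕ) (v : ℕ) : 0 ≤ tau c v := by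
  unfold tau
  exact Finset.prod_nonneg fun p _ => by positivity

/-- the values -/
noncomputable def xx (m v p : ℕ) : ℝ :=
  if p.Prime then (p : ℝ)⁻¹ * (if p ∣ v then 1 else 1 + (jacobiSym (m : ℤ) p : ℝ)) else 0

theorem xx_bd (m v p : ℕ) : 0 ≤ xx m v p ∧ xx m v p ≤ 1 := by
  unfold xx
  split_ifs with h1 h2
  · have hp : (2 : ℝ) ≤ p := by exact_mod_cast h1.two_le
    constructor
    · positivity
    · rw [mul_one]
      exact inv_le_one_of_one_le₀ (by linarith)
  · have hp : (2 : ℝ) ≤ p := by exact_mod_cast h1.two_le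
    have hj := jac_bd (m : ℤ) p
    constructor
    · exact mul_nonneg (by positivity) hj.1
    · rw [inv_mul_le_iff₀ (by linarith)]
      linarith [hj.2]
  · exact ⟨le_refl _, zero_le_one⟩

theorem prod_xx (m v d : ℕ) (hd : Squarefree d) :
    ∏ p ∈ d.primeFactors, xx m v p = (d : ℝ)⁻¹ *
      ∏ p ∈ d.primeFactors.filter (fun p => ¬ p ∣ v), (1 + (jacobiSym (m : ℤ) p : ℝ)) := by
  have e1 : ∏ p ∈ d.primeFactors, xx m v p = ∏ p ∈ d.primeFactors,
      ((p : ℝ)⁻¹ * (if ¬ p ∣ v then 1 + (jacobiSym (m : ℤ) p : ℝ) else 1)) := by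
    refine Finset.prod_congr rfl fun p hp => ?_
    unfold xx
    rw [if_pos (Nat.prime_of_mem_primeFactors hp)]
    by_cases h : p ∣ v <;> simp [h]
  have e2 : (d : ℝ)⁻¹ = ∏ p ∈ d.primeFactors, (p : ℝ)⁻¹ := by
    rw [Finset.prod_inv_distrib]
    congr 1
    conv_lhs => rw [← Nat.prod_primeFactors_of_squarefree hd]
    rw [Nat.cast_prod]
  rw [e1, Finset.prod_mul_distrib, e2, Finset.prod_filter]

end JPh

theorem T2_JP : P2_JP := by
  intro z X P δ C0 ρ c m v h
  unfold JJ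
  refine mul_nonneg (mul_nonneg (JPh.tau_nonneg c v)
    (Finset.prod_nonneg fun p _ => (JPh.jac_bd (m : ℤ) p).1)) ?_
  have hp := h.pos (JPh.xx m v) (JPh.xx_bd m v)
  refine hp.trans (le_of_eq ?_)
  refine Finset.sum_congr rfl fun d _ => ?_
  by_cases hd : ρ d = 0
  · simp [hd]
  · obtain ⟨-, -, hs, -, -⟩ := h.supp d hd
    rw [JPh.prod_xx m v d hs]
    ring

end Pool.Agent.H52.W.CG2
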