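import Pool.Agent.H52.W.CG2.Stubs

/-!
# The main term for one t (helper265)
-/

set_option autoImplicit false

namespace Pool.Agent.H52.W.CG2

variable [Lam]

open Finset Filter NumberField Pool.Agent.H38R2.CG
open scoped Classical

namespace TAh

lemma Qz_pos (z : ℕ) : 0 < Qz z := by
  unfold Qz
  refine Nat.mul_pos (by norm_num) (Finset.prod_pos fun l hl => ?_)
  rw [Finset.mem_filter] at hl
  exact pow_pos hl.2.pos 2

lemma prime_dvd_Qz {z p : ℕ} (hz : 2 ≤ z) (hp : p.Prime) (h : p ∣ Qz z) : p ≤ z := by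
  unfold Qz at h
  rcases hp.dvd_mul.1 h with h | h
  · have : p ∣ 2 ^ 4 := by simpa using h
    have := (Nat.prime_dvd_prime_iff_eq hp Nat.prime_two).1 (hp.dvd_of_dvd_pow this)
    omega
  · obtain ⟨l, hl, hpl⟩ := (hp.prime.dvd_finsetProd_iff _).1 h
    rw [Finset.mem_filter, Finset.mem_Icc] at hl
    have := (Nat.prime_dvd_prime_iff_eq hp hl.2).1 (hp.dvd_of_dvd_pow hpl)
    omega

lemma qpart_pos (z v : ℕ) : 0 < qpart z v := by
  unfold qpart
  refine Finset.prod_pos fun p hp => ?_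
  rw [Finset.mem_filter] at hp
  exact pow_pos (Nat.prime_of_mem_primeFactors hp.1).pos _

lemma qpart_dvd (z v : ℕ) (hv : 1 ≤ v) : qpart z v ∣ v := by
  have h : ∏ p ∈ v.primeFactors, p ^ (v.factorization p) = v :=
    Nat.prod_factorization_pow_eq_self (by omega)
  unfold qpart
  calc _ ∣ ∏ p ∈ v.primeFactors, p ^ (v.factorization p) :=
        Finset.prod_dvd_prod_of_subset _ _ _ (Finset.filter_subset _ _)
    _ = v := h

lemma prime_dvd_qpart {z v p : ℕ} (hp : p.Prime) (h : p ∣ qpart z v) : p ∣ Qz z := by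
  unfold qpart at h
  obtain ⟨l, hl, hpl⟩ := (hp.prime.dvd_finsetProd_iff _).1 h
  rw [Finset.mem_filter] at hl
  have := (Nat.prime_dvd_prime_iff_eq hp (Nat.prime_of_mem_primeFactors hl.1)).1
    (hp.dvd_of_dvd_pow hpl)
  rw [this]; exact hl.2

/-- small tail of the harmonic sum over the integers composed of the primes dividing `Q` -/
lemma tail (Q : ℕ) (hQ : 0 < Q) (ε : ℝ) (hε : 0 < ε) : ∃ W0 : ℕ, ∀ T : Finset ℕ,
    (∀ w ∈ T, W0 < w ∧ ∀ p : ℕ, p.Prime → p ∣ w → p ∣ Q) → ∑ w ∈ T, (1 : ℝ) / w ≤ ε := by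
  let f : ℕ →* ℝ :=
    { toFun := fun n => ((n : ℝ))⁻¹
      map_one' := by simp
      map_mul' := by intro a b; push_cast; rw [mul_inv] }
  have hs := (EulerProduct.summable_and_hasSum_smoothNumbers_prod_primesBelow_geometric
    (f := f) (fun {p} hp => by
      show ‖((p : ℝ))⁻¹‖ < 1
      rw [norm_inv, Real.norm_natCast]
      exact inv_lt_one_of_one_lt₀ (by exact_mod_cast hp.one_lt)) (Q + 1)).1
  have hs' : Summable ((Nat.smoothNumbers (Q + 1)).indicator fun n : ℕ => ‖f n‖) :=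
    summable_subtype_iff_indicator.1 hs
  obtain ⟨s, hsv⟩ := summable_iff_vanishing_norm.1 hs' ε hε
  refine ⟨s.sup id, fun T hT => ?_⟩
  have hdis : Disjoint T s := by
    rw [Finset.disjoint_left]
    intro w hw hws
    have h1 := (hT w hw).1
    have h2 : id w ≤ s.sup id := Finset.le_sup hws
    simp only [id] at h2
    omega
  have h := hsv T hdis
  have he : ∑ w ∈ T, (Nat.smoothNumbers (Q + 1)).indicator (fun n : ℕ => ‖f n‖) w =
      ∑ w ∈ T, (1 : ℝ) / w := by
    refine Finset.sum_congr rfl fun w hw => ?_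
    have hwm : w ∈ Nat.smoothNumbers (Q + 1) := by
      rw [Nat.mem_smoothNumbers']
      intro p hp hpw
      have := Nat.le_of_dvd hQ ((hT w hw).2 p hp hpw)
      omega
    rw [Set.indicator_of_mem hwm]
    show ‖((w : ℝ))⁻¹‖ = 1 / w
    rw [norm_inv, Real.norm_natCast, one_div]
  rw [he] at h
  exact (le_trans (le_abs_self _) h.le)

lemma yA_tendsto (a : ℝ) (ha : 0 < a) : Tendsto (yA a) atTop atTop := by
  unfold yA
  have h1 : Tendsto (fun X : ℕ => (Real.log X) ^ a / 4) atTop atTop := by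
    apply Tendsto.atTop_div_const (by norm_num)
    exact (tendsto_rpow_atTop ha).comp (Real.tendsto_log_atTop.comp tendsto_natCast_atTop_atTop)
  exact tendsto_nat_floor_atTop.comp h1


/-- primes of the family do not divide `Q` -/
lemma PA_ndvd {a : ℝ} {z X : ℕ} (hz : 2 ≤ z) (hy : z ≤ yA a X) :
    ∀ p ∈ PA a X, p.Prime ∧ ¬ p ∣ Qz z := by
  intro p hp
  unfold PA PP at hp
  rw [Finset.mem_filter, Finset.mem_Ioc] at hp
  refine ⟨hp.2, fun h => ?_⟩
  have := prime_dvd_Qz hz hp.2 h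
  omega

lemma prodS_coprime {a : ℝ} {z X : ℕ} (hz : 2 ≤ z) (hy : z ≤ yA a X) {s : Finset ℕ}
    (hs : s ∈ SA a X) : (prodS s).Coprime (Qz z) := by
  unfold prodS
  refine Nat.Coprime.prod_left fun p hp => ?_
  unfold SA at hs
  rw [Finset.mem_powersetCard] at hs
  obtain ⟨h1, h2⟩ := PA_ndvd hz hy p (hs.1 hp)
  exact (Nat.Prime.coprime_iff_not_dvd h1).2 h2

end TAh

open TAh in
theorem T2_TA : P_TB3c → P_TB6b → P_TB6c → P2_FJ → P2_JP → P2_TC → P2_TE → P2_TA := by
  intro hB3 hB6b hB6c hFJ hJP hTC hTE a ha z r hz hr C0 hC0 l ε hl hε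
  obtain ⟨hrb0, hrbp, hrbs⟩ := hB6b z r hz hr
  set K : ℝ := (Qz z : ℝ) * 8 * 2 ^ z with hK
  have hKpos : 0 < K := by
    have := Qz_pos z
    have h2 : (0 : ℝ) < Qz z := by exact_mod_cast this
    positivity
  obtain ⟨W0, hW0⟩ := tail (Qz z) (Qz_pos z) (ε / (4 * K)) (by positivity)
  -- thresholds
  obtain ⟨XC, hXC⟩ := hTC a ha z C0 0 hC0 l 1 hl one_pos
  have hE : ∀ w : ℕ, ∃ X0 : ℕ, 1 ≤ w → ∀ X ≥ X0, ∀ ρ : ℕ → ℝ,
      SWt z X (PA a X) (cc a) C0 ρ → ∀ (V : ℕ) (F : ℝ → ℝ) (I t : ℝ),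
      AntitoneOn F (Set.Ici 0) → (∀ x, 0 ≤ F x) →
      (∀ V : ℝ, 0 ≤ V → ∫ x in (0 : ℝ)..V, F x ≤ I) → (V : ℝ) ≤ (X : ℝ) ^ (1 - cc a) →
      ∑ v ∈ (Finset.Icc 1 V).filter (fun v => qpart z v = w),
        F v * ∑ s ∈ SA a X, ∑ t' ∈ SA a X, (rhoQ z r (prodS s * prodS t') v : ℝ) *
          JJ z X ρ ∅ (prodS s * prodS t') v * fej (l * (Real.log (prodS s * prodS t' : ℕ) - t)) ≤
        GG X ρ * ((∑ v ∈ (Finset.Icc 1 V).filter (fun v => qpart z v = w), F v * rbar z r v) *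
            SF a X (kA a X) ∅ l t +
          (ε / (2 * (W0 + 1))) * I * (SF a X (kA a X) ∅ l t + (NA a X) ^ 2 / Real.log X)) := by
    intro w
    by_cases hw : 1 ≤ w
    · obtain ⟨X0, h⟩ := hTE a ha z r hz hr C0 w hC0 hw l (ε / (2 * (W0 + 1))) hl (by positivity)
      exact ⟨X0, fun _ => h⟩
    · exact ⟨0, fun h => absurd h hw⟩
  choose XE hXE using hE
  obtain ⟨XY, hXY⟩ := ((yA_tendsto a (by linarith)).eventually_ge_atTop z).exists_forall_of_atTop
  refine ⟨max (max XC XY) ((Finset.Icc 1 W0).sup XE), fun X hX ρ hρ V F I t hF hF0 hI hV => ?_⟩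
  have hX1 : XC ≤ X := le_trans (le_trans (le_max_left _ _) (le_max_left _ _)) hX
  have hX2 : XY ≤ X := le_trans (le_trans (le_max_right _ _) (le_max_left _ _)) hX
  have hX3 : ∀ w ∈ Finset.Icc 1 W0, XE w ≤ X := fun w hw =>
    le_trans (le_trans (Finset.le_sup hw) (le_max_right _ _)) hX
  have hy : z ≤ yA a X := hXY X hX2
  -- signs
  have hI0 : 0 ≤ I := by simpa using hI 0 le_rfl
  have hlog : 0 ≤ Real.log X := Real.log_natCast_nonneg X
  have hGG : 0 ≤ GG X ρ := le_trans (inv_nonneg.2 (pow_nonneg hlog _)) hρ.low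
  have hfej := hFJ.2.1
  have hSF : 0 ≤ SF a X (kA a X) ∅ l t :=
    Finset.sum_nonneg fun s _ => Finset.sum_nonneg fun t' _ => hfej _
  have hN2 : 0 ≤ (NA a X) ^ 2 / Real.log X := div_nonneg (sq_nonneg _) hlog
  -- the terms
  set Tm : ℕ → ℝ := fun v => F v * ∑ s ∈ SA a X, ∑ t' ∈ SA a X,
    (rhoQ z r (prodS s * prodS t') v : ℝ) * JJ z X ρ ∅ (prodS s * prodS t') v *
      fej (l * (Real.log (prodS s * prodS t' : ℕ) - t)) with hTm
  have hUJ0 : ∀ v, 0 ≤ UJ a z X (kA a X) ρ ∅ F l t v := by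
    intro v
    unfold UJ
    refine mul_nonneg (hF0 _) (Finset.sum_nonneg fun s _ => Finset.sum_nonneg fun t' _ => ?_)
    exact mul_nonneg (hJP z X (PA a X) (cc a) C0 ρ _ _ _ hρ) (hfej _)
  have hTle : ∀ v ∈ Finset.Icc 1 V, Tm v ≤ K * UJ a z X (kA a X) ρ ∅ F l t v := by
    intro v hv
    rw [Finset.mem_Icc] at hv
    rw [hTm]
    simp only
    unfold UJ
    rw [← mul_assoc, mul_comm K, mul_assoc]
    refine mul_le_mul_of_nonneg_left ?_ (hF0 _)
    rw [Finset.mul_sum]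
    refine Finset.sum_le_sum fun s hs => ?_
    rw [Finset.mul_sum]
    refine Finset.sum_le_sum fun t' ht' => ?_
    have hcop : (prodS s * prodS t').Coprime (Qz z) :=
      Nat.Coprime.mul_left (prodS_coprime hz hy hs) (prodS_coprime hz hy ht')
    have h1 : (rhoQ z r (prodS s * prodS t') v : ℝ) ≤ K := by
      have := hB3 z r (prodS s * prodS t') v hv.1 hcop
      rw [hK]; exact_mod_cast this
    have e : prodS (∅ : Finset ℕ) ^ 2 * (prodS s * prodS t') = prodS s * prodS t' := by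
      unfold prodS; simp
    rw [e, ← mul_assoc]
    refine mul_le_mul_of_nonneg_right ?_ (hfej _)
    exact mul_le_mul_of_nonneg_right h1 (hJP z X (PA a X) (cc a) C0 ρ _ _ _ hρ)
  -- small part
  have hsmall : ∑ v ∈ (Finset.Icc 1 V).filter (fun v => qpart z v ≤ W0), Tm v ≤
      GG X ρ * (2 * PiR z r * (((∏ q ∈ (Finset.Icc 2 z).filter Nat.Prime, q : ℕ) : ℝ) * F 0 + I) *
        SF a X (kA a X) ∅ l t +
      (ε / 2) * I * (SF a X (kA a X) ∅ l t + (NA a X) ^ 2 / Real.log X)) := by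
    have hmaps : ∀ v ∈ (Finset.Icc 1 V).filter (fun v => qpart z v ≤ W0),
        qpart z v ∈ Finset.Icc 1 W0 := by
      intro v hv
      rw [Finset.mem_filter] at hv
      rw [Finset.mem_Icc]
      exact ⟨qpart_pos z v, hv.2⟩
    have hfib : ∀ g : ℕ → ℝ, ∑ v ∈ (Finset.Icc 1 V).filter (fun v => qpart z v ≤ W0), g v =
        ∑ w ∈ Finset.Icc 1 W0, ∑ v ∈ (Finset.Icc 1 V).filter (fun v => qpart z v = w), g v := by
      intro g
      rw [← Finset.sum_fiberwise_of_maps_to hmaps]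
      refine Finset.sum_congr rfl fun w hw => ?_
      rw [Finset.mem_Icc] at hw
      rw [Finset.filter_filter]
      refine Finset.sum_congr ?_ fun _ _ => rfl
      ext v
      simp only [Finset.mem_filter, Finset.mem_Icc]
      constructor
      · rintro ⟨h1, h2, h3⟩; exact ⟨h1, h3⟩
      · rintro ⟨h1, h3⟩; exact ⟨h1, by omega, h3⟩
    rw [hfib]
    have hstep : ∀ w ∈ Finset.Icc 1 W0,
        ∑ v ∈ (Finset.Icc 1 V).filter (fun v => qpart z v = w), Tm v ≤
        GG X ρ * ((∑ v ∈ (Finset.Icc 1 V).filter (fun v => qpart z v = w), F v * rbar z r v) *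
            SF a X (kA a X) ∅ l t +
          (ε / (2 * (W0 + 1))) * I * (SF a X (kA a X) ∅ l t + (NA a X) ^ 2 / Real.log X)) :=
      fun w hw => hXE w (Finset.mem_Icc.1 hw).1 X (hX3 w hw) ρ hρ V F I t hF hF0 hI hV
    refine le_trans (Finset.sum_le_sum hstep) ?_
    rw [← Finset.mul_sum]
    refine mul_le_mul_of_nonneg_left ?_ hGG
    rw [Finset.sum_add_distrib, ← Finset.sum_mul, ← hfib, Finset.sum_const, Nat.card_Icc,
      nsmul_eq_mul]
    refine add_le_add ?_ ?_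
    · refine mul_le_mul_of_nonneg_right ?_ hSF
      have h1 : ∑ v ∈ (Finset.Icc 1 V).filter (fun v => qpart z v ≤ W0), F v * rbar z r v ≤
          ∑ v ∈ Finset.Icc 1 V, rbar z r v * F v := by
        refine le_trans (Finset.sum_le_sum_of_subset_of_nonneg (Finset.filter_subset _ _)
          fun v _ _ => mul_nonneg (hF0 _) (hrb0 v)) (le_of_eq ?_)
        exact Finset.sum_congr rfl fun v _ => mul_comm _ _
      refine h1.trans ?_
      have hq1 : 1 ≤ ∏ q ∈ (Finset.Icc 2 z).filter Nat.Prime, q := by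
        refine Nat.one_le_iff_ne_zero.2 (Finset.prod_ne_zero_iff.2 fun q hq => ?_)
        rw [Finset.mem_filter] at hq
        exact hq.2.ne_zero
      exact hB6c _ (rbar z r) F I (2 * PiR z r) hq1 hrb0 hrbp hrbs hF hF0 hI V
    · have h1 : ((W0 + 1 - 1 : ℕ) : ℝ) * (ε / (2 * (W0 + 1))) ≤ ε / 2 := by
        rw [Nat.add_sub_cancel]
        have hW : (0 : ℝ) < (W0 : ℝ) + 1 := by positivity
        rw [mul_div_assoc', div_le_div_iff₀ (by positivity) (by norm_num)]
        nlinarith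
      calc ((W0 + 1 - 1 : ℕ) : ℝ) * ((ε / (2 * (W0 + 1))) * I *
            (SF a X (kA a X) ∅ l t + (NA a X) ^ 2 / Real.log X)) =
            (((W0 + 1 - 1 : ℕ) : ℝ) * (ε / (2 * (W0 + 1)))) * (I *
            (SF a X (kA a X) ∅ l t + (NA a X) ^ 2 / Real.log X)) := by ring
        _ ≤ (ε / 2) * (I * (SF a X (kA a X) ∅ l t + (NA a X) ^ 2 / Real.log X)) :=
            mul_le_mul_of_nonneg_right h1 (mul_nonneg hI0 (add_nonneg hSF hN2))
        _ = _ := by ring
  -- large part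
  have hlarge : ∑ v ∈ (Finset.Icc 1 V).filter (fun v => ¬ qpart z v ≤ W0), Tm v ≤
      GG X ρ * ((ε / 2) * I * (SF a X (kA a X) ∅ l t + (NA a X) ^ 2 / Real.log X)) := by
    have h1 : ∑ v ∈ (Finset.Icc 1 V).filter (fun v => ¬ qpart z v ≤ W0), Tm v ≤
        ∑ v ∈ (Finset.Icc 1 V).filter (fun v => ¬ qpart z v ≤ W0),
          K * UJ a z X (kA a X) ρ ∅ F l t v :=
      Finset.sum_le_sum fun v hv => hTle v (Finset.mem_filter.1 hv).1
    refine h1.trans ?_
    set T : Finset ℕ := ((Finset.Icc 1 V).filter (fun v => ¬ qpart z v ≤ W0)).image (qpart z)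
      with hT
    have hTprop : ∀ w ∈ T, W0 < w ∧ ∀ p : ℕ, p.Prime → p ∣ w → p ∣ Qz z := by
      intro w hw
      rw [hT, Finset.mem_image] at hw
      obtain ⟨v, hv, rfl⟩ := hw
      rw [Finset.mem_filter] at hv
      exact ⟨by omega, fun p hp h => prime_dvd_qpart hp h⟩
    rw [← Finset.sum_fiberwise_of_maps_to (t := T) (g := qpart z)
      (fun v hv => Finset.mem_image_of_mem _ hv)]
    have h2 : ∀ w ∈ T, ∑ v ∈ ((Finset.Icc 1 V).filter (fun v => ¬ qpart z v ≤ W0)).filter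
        (fun v => qpart z v = w), K * UJ a z X (kA a X) ρ ∅ F l t v ≤
        (K * GG X ρ * I * (2 * (SF a X (kA a X) ∅ l t + (NA a X) ^ 2 / Real.log X))) *
          ((1 : ℝ) / w) := by
      intro w hw
      have hwpos : 1 ≤ w := by
        have := (hTprop w hw).1
        omega
      have hsub : ((Finset.Icc 1 V).filter (fun v => ¬ qpart z v ≤ W0)).filter
          (fun v => qpart z v = w) ⊆ (Finset.Icc 1 V).filter (fun v => w ∣ v) := by
        intro v hv
        rw [Finset.mem_filter, Finset.mem_filter] at hv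
        rw [Finset.mem_filter]
        refine ⟨hv.1.1, ?_⟩
        rw [← hv.2]
        exact qpart_dvd z v (Finset.mem_Icc.1 hv.1.1).1
      have h3 := hXC X hX1 ρ hρ ∅ w V F I t (Finset.empty_subset _) (by simp) hwpos
        (hTprop w hw).2 hF hF0 hI hV
      rw [Finset.card_empty, Nat.sub_zero, pow_zero, one_mul] at h3
      have hCA : CA a X (kA a X) = NA a X := rfl
      rw [hCA] at h3
      calc ∑ v ∈ ((Finset.Icc 1 V).filter (fun v => ¬ qpart z v ≤ W0)).filter
            (fun v => qpart z v = w), K * UJ a z X (kA a X) ρ ∅ F l t v ≤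
            ∑ v ∈ (Finset.Icc 1 V).filter (fun v => w ∣ v), K * UJ a z X (kA a X) ρ ∅ F l t v :=
            Finset.sum_le_sum_of_subset_of_nonneg hsub
              fun v _ _ => mul_nonneg hKpos.le (hUJ0 v)
        _ = K * ∑ v ∈ (Finset.Icc 1 V).filter (fun v => w ∣ v), UJ a z X (kA a X) ρ ∅ F l t v := by
            rw [Finset.mul_sum]
        _ ≤ K * (GG X ρ * (I / w) * ((1 + 1) * SF a X (kA a X) ∅ l t +
              1 / Real.log X * (NA a X) ^ 2)) := mul_le_mul_of_nonneg_left h3 hKpos.le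
        _ = (K * GG X ρ * I * (2 * SF a X (kA a X) ∅ l t + (NA a X) ^ 2 / Real.log X)) *
              ((1 : ℝ) / w) := by ring
        _ ≤ _ := by
            refine mul_le_mul_of_nonneg_right ?_ (by positivity)
            refine mul_le_mul_of_nonneg_left ?_ (mul_nonneg (mul_nonneg hKpos.le hGG) hI0)
            linarith
    refine (Finset.sum_le_sum h2).trans ?_
    rw [← Finset.mul_sum]
    have h4 := hW0 T hTprop
    have h5 : 0 ≤ K * GG X ρ * I * (2 * (SF a X (kA a X) ∅ l t + (NA a X) ^ 2 / Real.log X)) :=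
      mul_nonneg (mul_nonneg (mul_nonneg hKpos.le hGG) hI0)
        (mul_nonneg (by norm_num) (add_nonneg hSF hN2))
    refine (mul_le_mul_of_nonneg_left h4 h5).trans (le_of_eq ?_)
    field_simp
    ring
  -- conclusion
  have hsplit : ∑ v ∈ Finset.Icc 1 V, Tm v =
      ∑ v ∈ (Finset.Icc 1 V).filter (fun v => qpart z v ≤ W0), Tm v +
      ∑ v ∈ (Finset.Icc 1 V).filter (fun v => ¬ qpart z v ≤ W0), Tm v :=
    (Finset.sum_filter_add_sum_filter_not _ _ _).symm
  show ∑ v ∈ Finset.Icc 1 V, Tm v ≤ _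
  rw [hsplit]
  refine (add_le_add hsmall hlarge).trans (le_of_eq ?_)
  ring

end Pool.Agent.H52.W.CG2
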