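import Pool.Agent.H52.W.CG2.Stubs
import Pool.Agent.H52.V.S8.H38R2.CG.AS1

set_option autoImplicit false

namespace Pool.Agent.H52.W.CG2

variable [Lam]

open Finset Filter NumberField Pool.Agent.H38R2.CG Pool.Agent.H38R2.CG.AS1h
open scoped Classical

theorem T2_AS1 : P2_TRIV → P2_AS0 → P2_AS1 := by
  intro ht h a ha ε hε
  obtain ⟨z0, hz0⟩ := h a ha 1 le_rfl ε hε
  obtain ⟨η1, hη1, H⟩ := hz0 z0 le_rfl
  have hηpos : 0 < min η1 1 := lt_min hη1 one_pos
  refine ⟨min η1 1, hηpos, min_le_right _ _, ?_⟩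
  have H' : ∀ r : ℕ, ∃ X0 : ℕ, ∀ X ≥ X0, FundRes z0 r → ∀ ρ : ℕ → ℝ,
      SWt z0 X (PA a X) (cc a) 1 ρ →
      ∑ D ∈ (FD z0 r X (min η1 1)).filter (fun D => BadA a X D), wt ρ D ≤
        ε * WW z0 X (min η1 1) ρ := by
    intro r
    by_cases hr : FundRes z0 r
    · obtain ⟨X0, hX0⟩ := H (min η1 1) hηpos (min_le_left _ _) r hr
      exact ⟨X0, fun X hX _ => hX0 X hX⟩
    · exact ⟨0, fun X _ hr' => absurd hr' hr⟩
  choose X0 hX0 using H'
  refine ⟨max 3 ((Finset.range (Qz z0)).sup X0), ?_⟩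
  intro X hX
  have hX3 : 3 ≤ X := le_trans (le_max_left _ _) hX
  have hXs : (Finset.range (Qz z0)).sup X0 ≤ X := le_trans (le_max_right _ _) hX
  have hcc : 0 < cc a := by
    exact ccpos (by assumption)
  obtain ⟨hSW, hGG, hwt⟩ := ht z0 X (PA a X) (cc a) 1 hX3 hcc le_rfl
    (fun p hp => (Finset.mem_filter.1 hp).2)
  set η := min η1 1 with hη
  set ρ : ℕ → ℝ := fun d => if d = 1 then 1 else 0 with hρ
  have hWW : WW z0 X η ρ = η * X / Qz z0 := by
    unfold WW
    rw [hGG, mul_one]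
  set S := (Finset.Ioc X ⌊(1 + η) * X⌋₊).filter (fun D => IsFund D ∧ BadA a X D) with hS
  have hcard : S.card = ∑ r ∈ Finset.range (Qz z0), (S.filter (fun D => D % Qz z0 = r)).card := by
    apply Finset.card_eq_sum_card_fiberwise
    intro D _
    simp only [Finset.coe_range, Set.mem_Iio]
    exact Nat.mod_lt _ (Qz_pos z0)
  have hQ : (0 : ℝ) < Qz z0 := by exact_mod_cast Qz_pos z0
  have hnn : 0 ≤ ε * (η * X / Qz z0) := by positivity
  have hle : ∀ r ∈ Finset.range (Qz z0),
      ((S.filter (fun D => D % Qz z0 = r)).card : ℝ) ≤ ε * (η * X / Qz z0) := by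
    intro r hr
    by_cases hfr : FundRes z0 r
    · have h1 := hX0 r X (le_trans (Finset.le_sup hr) hXs) hfr ρ hSW
      rw [hWW] at h1
      refine le_trans ?_ h1
      have hcardsum : ∑ D ∈ (FD z0 r X η).filter (fun D => BadA a X D), wt ρ D =
          (((FD z0 r X η).filter (fun D => BadA a X D)).card : ℝ) := by
        rw [Finset.card_eq_sum_ones]
        push_cast
        apply Finset.sum_congr rfl
        intro D hD
        apply hwt
        have h2 := (Finset.mem_filter.1 (Finset.mem_filter.1 hD).1).2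
        exact h2.1.le
      rw [hcardsum]
      have : (S.filter (fun D => D % Qz z0 = r)) ⊆
          ((FD z0 r X η).filter (fun D => BadA a X D)) := by
        intro D hD
        simp only [hS, FD, DD, Finset.mem_filter] at hD ⊢
        exact ⟨⟨⟨hD.1.1, hD.2⟩, hD.1.2.1⟩, hD.1.2.2⟩
      exact_mod_cast Finset.card_le_card this
    · have : (S.filter (fun D => D % Qz z0 = r)) = ∅ := by
        rw [Finset.filter_eq_empty_iff]
        intro D hD hDr
        apply hfr
        rw [← hDr]
        exact fundRes z0 D (Finset.mem_filter.1 hD).2.1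
      rw [this]
      simpa using hnn
  rw [hcard]
  push_cast
  refine le_trans (Finset.sum_le_sum hle) ?_
  rw [Finset.sum_const, Finset.card_range, nsmul_eq_mul]
  have : (Qz z0 : ℝ) * (ε * (η * X / Qz z0)) = ε * η * X := by
    field_simp
  rw [this]

end Pool.Agent.H52.W.CG2
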