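import Pool.Agent.H52.W.CG2.Stubs

set_option autoImplicit false

/-! P2_COMB: binomial sums. -/

namespace Pool.Agent.H52.W.CG2

variable [Lam]

open Finset Filter NumberField Pool.Agent.H38R2.CG
open scoped Classical

namespace COMBh

theorem step (n k m : ℕ) (hn : 1 ≤ n) (hk : 2 * k ≤ n) (hm : m + 1 ≤ k) :
    (n.choose m : ℝ) ≤ (2 * k / n) * (n.choose (m + 1) : ℝ) := by
  have h1 := Nat.choose_succ_right_eq n m
  have h2 : (n.choose (m + 1) : ℝ) * ((m : ℝ) + 1) = (n.choose m : ℝ) * ((n : ℝ) - m) := by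
    have h3 : ((n.choose (m + 1) * (m + 1) : ℕ) : ℝ) = ((n.choose m * (n - m) : ℕ) : ℝ) := by
      exact_mod_cast h1
    rw [Nat.cast_mul, Nat.cast_mul, Nat.cast_sub (by omega)] at h3
    push_cast at h3
    exact h3
  have hn' : (0 : ℝ) < n := by exact_mod_cast hn
  have h4 : (n : ℝ) / 2 ≤ (n : ℝ) - m := by
    have : (2 : ℝ) * m ≤ n := by exact_mod_cast (by omega : 2 * m ≤ n)
    linarith
  have h5 : (m : ℝ) + 1 ≤ k := by exact_mod_cast hm
  have h6 : (0 : ℝ) ≤ (n.choose m : ℝ) := Nat.cast_nonneg _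
  have h7 : (0 : ℝ) ≤ (n.choose (m + 1) : ℝ) := Nat.cast_nonneg _
  have h8 : (n.choose m : ℝ) * ((n : ℝ) / 2) ≤ (n.choose (m + 1) : ℝ) * k := by
    calc (n.choose m : ℝ) * ((n : ℝ) / 2) ≤ (n.choose m : ℝ) * ((n : ℝ) - m) :=
          mul_le_mul_of_nonneg_left h4 h6
      _ = (n.choose (m + 1) : ℝ) * ((m : ℝ) + 1) := h2.symm
      _ ≤ (n.choose (m + 1) : ℝ) * k := mul_le_mul_of_nonneg_left h5 h7
  have h9 : (2 * (k : ℝ) / n) * (n.choose (m + 1) : ℝ) = ((n.choose (m + 1) : ℝ) * k) / (n / 2) := by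
    field_simp
  rw [h9, le_div_iff₀ (by positivity)]
  exact h8

theorem pow_bound (n k : ℕ) (hn : 1 ≤ n) (hk : 2 * k ≤ n) (i : ℕ) (hi : i ≤ k) :
    (n.choose (k - i) : ℝ) ≤ (2 * k / n) ^ i * (n.choose k : ℝ) := by
  induction i with
  | zero => simp
  | succ i ih =>
    have h1 := ih (by omega)
    have h2 := step n k (k - (i + 1)) hn hk (by omega)
    rw [show k - (i + 1) + 1 = k - i by omega] at h2
    have h3 : (0 : ℝ) ≤ 2 * k / n := by positivity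
    calc (n.choose (k - (i + 1)) : ℝ) ≤ (2 * k / n) * (n.choose (k - i) : ℝ) := h2
      _ ≤ (2 * k / n) * ((2 * k / n) ^ i * (n.choose k : ℝ)) := mul_le_mul_of_nonneg_left h1 h3
      _ = (2 * k / n) ^ (i + 1) * (n.choose k : ℝ) := by ring

theorem term_bound (n k : ℕ) (B : ℝ) (hB : 0 ≤ B) (hn : 1 ≤ n) (hk : 2 * k ≤ n) (i : ℕ)
    (hi : i ≤ k) :
    (n.choose i : ℝ) * B ^ i * (n.choose (k - i) : ℝ) ^ 2 ≤
      (4 * B * k ^ 2 / n) ^ i / (i.factorial : ℝ) * (n.choose k : ℝ) ^ 2 := by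
  have hn' : (0 : ℝ) < n := by exact_mod_cast hn
  have h1 : (n.choose i : ℝ) ≤ (n : ℝ) ^ i / (i.factorial : ℝ) := Nat.choose_le_pow_div i n
  have h2 := pow_bound n k hn hk i hi
  have h3 : (n.choose (k - i) : ℝ) ^ 2 ≤ ((2 * k / n) ^ i * (n.choose k : ℝ)) ^ 2 :=
    pow_le_pow_left₀ (Nat.cast_nonneg _) h2 2
  calc (n.choose i : ℝ) * B ^ i * (n.choose (k - i) : ℝ) ^ 2
      ≤ ((n : ℝ) ^ i / (i.factorial : ℝ)) * B ^ i * ((2 * k / n) ^ i * (n.choose k : ℝ)) ^ 2 := by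
        apply mul_le_mul _ h3 (by positivity) (by positivity)
        exact mul_le_mul_of_nonneg_right h1 (by positivity)
    _ = ((n : ℝ) * B * (2 * k / n) ^ 2) ^ i / (i.factorial : ℝ) * (n.choose k : ℝ) ^ 2 := by
        generalize (2 * (k : ℝ) / n) = x
        rw [mul_pow ((n : ℝ) * B), mul_pow (n : ℝ) B]
        ring
    _ = (4 * B * k ^ 2 / n) ^ i / (i.factorial : ℝ) * (n.choose k : ℝ) ^ 2 := by
        have h4 : (n : ℝ) * B * (2 * k / n) ^ 2 = 4 * B * k ^ 2 / n := by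
          field_simp
          ring
        rw [h4]

end COMBh

theorem T2_COMB : P2_COMB := by
  intro n k i0 B hB hn hk
  set u : ℝ := 4 * B * k ^ 2 / n with hu
  have hu0 : 0 ≤ u := by positivity
  have h1 : ∑ i ∈ Finset.Icc (i0 + 1) k, (n.choose i : ℝ) * B ^ i * (n.choose (k - i) : ℝ) ^ 2 ≤
      ∑ i ∈ Finset.Icc (i0 + 1) k, u ^ i / (i.factorial : ℝ) * (n.choose k : ℝ) ^ 2 := by
    refine Finset.sum_le_sum fun i hi => ?_
    exact COMBh.term_bound n k B hB hn hk i (Finset.mem_Icc.1 hi).2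
  have h2 : ∑ i ∈ Finset.Icc (i0 + 1) k, u ^ i / (i.factorial : ℝ) ≤ u ^ (i0 + 1) * Real.exp u := by
    have hI : Finset.Icc (i0 + 1) k = Finset.Ico (i0 + 1) (k + 1) := by
      ext x
      simp only [Finset.mem_Icc, Finset.mem_Ico]
      omega
    rw [hI, Finset.sum_Ico_eq_sum_range]
    have h3 : ∀ j ∈ Finset.range (k + 1 - (i0 + 1)),
        u ^ (i0 + 1 + j) / ((i0 + 1 + j).factorial : ℝ) ≤
          u ^ (i0 + 1) * (u ^ j / (j.factorial : ℝ)) := by
      intro j _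
      have h4 : (j.factorial : ℝ) ≤ ((i0 + 1 + j).factorial : ℝ) := by
        exact_mod_cast Nat.factorial_le (by omega : j ≤ i0 + 1 + j)
      rw [pow_add, mul_div_assoc]
      apply mul_le_mul_of_nonneg_left _ (by positivity)
      exact div_le_div_of_nonneg_left (by positivity) (by positivity) h4
    refine (Finset.sum_le_sum h3).trans ?_
    rw [← Finset.mul_sum]
    apply mul_le_mul_of_nonneg_left _ (by positivity)
    exact Real.sum_le_exp_of_nonneg hu0 _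
  calc ∑ i ∈ Finset.Icc (i0 + 1) k, (n.choose i : ℝ) * B ^ i * (n.choose (k - i) : ℝ) ^ 2
      ≤ ∑ i ∈ Finset.Icc (i0 + 1) k, u ^ i / (i.factorial : ℝ) * (n.choose k : ℝ) ^ 2 := h1
    _ = (∑ i ∈ Finset.Icc (i0 + 1) k, u ^ i / (i.factorial : ℝ)) * (n.choose k : ℝ) ^ 2 := by
        rw [Finset.sum_mul]
    _ ≤ u ^ (i0 + 1) * Real.exp u * (n.choose k : ℝ) ^ 2 :=
        mul_le_mul_of_nonneg_right h2 (by positivity)

end Pool.Agent.H52.W.CG2
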