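import Pool.Agent.H52.W.CG2.Stubs

/-!
# HB: product formula for the block weights
-/

set_option autoImplicit false

namespace Pool.Agent.H52.W.CG2.HBh

variable [Lam]

open Finset Filter NumberField Pool.Agent.H38R2.CG
open scoped Classical

/-- the weight of a set of primes -/
noncomputable def w (x : ℕ → ℝ) (A : Finset ℕ) : ℝ := (-1 : ℝ) ^ A.card * ∏ p ∈ A, x p

theorem w_union (x : ℕ → ℝ) {A A' : Finset ℕ} (h : Disjoint A A') :
    w x (A ∪ A') = w x A * w x A' := by
  rw [w, w, w, card_union_of_disjoint h, prod_union h, pow_add]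
  ring

/-- the union of the blocks -/
noncomputable def U (B : ℕ → Finset ℕ) (J : ℕ) : Finset ℕ := (range J).biUnion B

theorem mem_U {B : ℕ → Finset ℕ} {J p : ℕ} : p ∈ U B J ↔ ∃ j < J, p ∈ B j := by
  simp [U]

/-- the sets that occur -/
noncomputable def FS (B : ℕ → Finset ℕ) (b : ℕ → ℕ) (J : ℕ) : Finset (Finset ℕ) :=
  (U B J).powerset.filter (fun T => ∀ j < J, (T ∩ B j).card ≤ 2 * b j)

theorem sum_FS (B : ℕ → Finset ℕ) (b : ℕ → ℕ) (x : ℕ → ℝ) (J : ℕ)
    (hB : ∀ i < J, ∀ j < J, i ≠ j → Disjoint (B i) (B j)) :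
    ∑ T ∈ FS B b J, w x T =
      ∏ j ∈ range J, ∑ A ∈ (B j).powerset.filter (fun A => A.card ≤ 2 * b j), w x A := by
  induction J with
  | zero =>
    have h : FS B b 0 = {∅} := by
      ext T
      simp [FS, U]
    rw [h, sum_singleton, prod_range_zero]
    simp [w]
  | succ J ih =>
    have hdis : Disjoint (U B J) (B J) := by
      rw [disjoint_left]
      intro p hp hp'
      obtain ⟨j, hj, hpj⟩ := mem_U.1 hp
      exact disjoint_left.1 (hB j (by omega) J (by omega) (by omega)) hpj hp'
    have hsub : ∀ j < J, B j ⊆ U B J := fun j hj p hp => mem_U.2 ⟨j, hj, hp⟩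
    rw [prod_range_succ, ← ih (fun i hi j hj hij => hB i (by omega) j (by omega) hij),
      sum_mul_sum, ← sum_product']
    refine sum_nbij' (fun T => (T ∩ U B J, T ∩ B J)) (fun P => P.1 ∪ P.2) ?_ ?_ ?_ ?_ ?_
    · intro T hT
      simp only [FS, mem_filter, mem_powerset] at hT
      simp only [FS, mem_product, mem_filter, mem_powerset]
      refine ⟨⟨inter_subset_right, fun j hj => ?_⟩, inter_subset_right, hT.2 J (by omega)⟩
      refine le_trans (card_le_card ?_) (hT.2 j (by omega))
      exact inter_subset_inter_right inter_subset_left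
    · intro P hP
      simp only [FS, mem_product, mem_filter, mem_powerset] at hP
      obtain ⟨⟨h1, h2⟩, h3, h4⟩ := hP
      simp only [FS, mem_filter, mem_powerset]
      refine ⟨fun p hp => ?_, fun j hj => ?_⟩
      · rcases mem_union.1 hp with hp | hp
        · obtain ⟨j, hj, hpj⟩ := mem_U.1 (h1 hp)
          exact mem_U.2 ⟨j, by omega, hpj⟩
        · exact mem_U.2 ⟨J, by omega, h3 hp⟩
      · rcases Nat.lt_succ_iff_lt_or_eq.1 hj with hj' | rfl
        · refine le_trans (card_le_card fun p hp => ?_) (h2 j hj')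
          rw [mem_inter, mem_union] at hp
          rw [mem_inter]
          rcases hp with ⟨hp | hp, hp'⟩
          · exact ⟨hp, hp'⟩
          · exact absurd hp' (disjoint_right.1 (hB j (by omega) J (by omega) (by omega)) (h3 hp))
        · refine le_trans (card_le_card fun p hp => ?_) h4
          rw [mem_inter, mem_union] at hp
          rcases hp with ⟨hp | hp, hp'⟩
          · exact absurd hp' (disjoint_left.1 hdis (h1 hp))
          · exact hp
    · intro T hT
      simp only [FS, mem_filter, mem_powerset] at hT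
      dsimp only
      ext p
      simp only [mem_union, mem_inter]
      constructor
      · rintro (h | h) <;> exact h.1
      · intro hp
        obtain ⟨j, hj, hpj⟩ := mem_U.1 (hT.1 hp)
        rcases Nat.lt_succ_iff_lt_or_eq.1 hj with hj' | rfl
        · exact Or.inl ⟨hp, hsub j hj' hpj⟩
        · exact Or.inr ⟨hp, hpj⟩
    · intro P hP
      simp only [FS, mem_product, mem_filter, mem_powerset] at hP
      obtain ⟨⟨h1, h2⟩, h3, h4⟩ := hP
      refine Prod.ext ?_ ?_
      · ext p
        simp only [mem_union, mem_inter]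
        constructor
        · rintro ⟨h | h, h'⟩
          · exact h
          · exact absurd (h3 h) (disjoint_left.1 hdis h')
        · exact fun h => ⟨Or.inl h, h1 h⟩
      · ext p
        simp only [mem_union, mem_inter]
        constructor
        · rintro ⟨h | h, h'⟩
          · exact absurd h' (disjoint_left.1 hdis (h1 h))
          · exact h
        · exact fun h => ⟨Or.inr h, h3 h⟩
    · intro T hT
      simp only [FS, mem_filter, mem_powerset] at hT
      dsimp only
      have h1 : Disjoint (T ∩ U B J) (T ∩ B J) :=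
        disjoint_of_subset_left inter_subset_right (disjoint_of_subset_right inter_subset_right hdis)
      rw [← w_union x h1]
      congr 1
      ext p
      simp only [mem_union, mem_inter]
      constructor
      · intro hp
        obtain ⟨j, hj, hpj⟩ := mem_U.1 (hT.1 hp)
        rcases Nat.lt_succ_iff_lt_or_eq.1 hj with hj' | rfl
        · exact Or.inl ⟨hp, hsub j hj' hpj⟩
        · exact Or.inr ⟨hp, hpj⟩
      · rintro (h | h) <;> exact h.1

theorem squarefree_prod_primes (T : Finset ℕ) (hT : ∀ p ∈ T, p.Prime) :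
    Squarefree (∏ p ∈ T, p) := by
  induction T using Finset.induction_on with
  | empty => simp
  | insert q T hq ih =>
    rw [prod_insert hq]
    have h1 : Nat.Coprime q (∏ p ∈ T, p) := by
      refine Nat.Coprime.prod_right fun p hp => ?_
      exact (Nat.coprime_primes (hT q (mem_insert_self _ _)) (hT p (mem_insert_of_mem hp))).2
        (fun h => hq (h ▸ hp))
    exact (Nat.squarefree_mul h1).2 ⟨(hT q (mem_insert_self _ _)).squarefree,
      ih fun p hp => hT p (mem_insert_of_mem hp)⟩

end Pool.Agent.H52.W.CG2.HBh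

namespace Pool.Agent.H52.W.CG2

variable [Lam]

open Finset Filter NumberField Pool.Agent.H38R2.CG
open scoped Classical
open HBh

theorem T2_HB : P2_HB := by
  intro J X B b x hp hB hX
  have h0 := sum_FS B b x J hB
  simp only [w] at h0
  rw [← h0]
  have h1 : ∑ d ∈ Icc 1 X, rhoB J B b d * ∏ p ∈ d.primeFactors, x p =
      ∑ d ∈ (Icc 1 X).filter (fun d => Squarefree d ∧ (∀ p ∈ d.primeFactors, ∃ j < J, p ∈ B j) ∧
      (∀ j < J, (d.primeFactors ∩ B j).card ≤ 2 * b j)),
        (-1 : ℝ) ^ d.primeFactors.card * ∏ p ∈ d.primeFactors, x p := by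
    rw [sum_filter]
    refine sum_congr rfl fun d _ => ?_
    rw [rhoB]
    split_ifs
    · rfl
    · rw [zero_mul]
  rw [h1]
  refine sum_nbij' (fun d => d.primeFactors) (fun T => ∏ p ∈ T, p) ?_ ?_ ?_ ?_ ?_
  · intro d hd
    simp only [mem_filter] at hd
    simp only [FS, mem_filter, mem_powerset]
    exact ⟨fun p hp => mem_U.2 (hd.2.2.1 p hp), hd.2.2.2⟩
  · intro T hT
    simp only [FS, mem_filter, mem_powerset] at hT
    have hTp : ∀ p ∈ T, p.Prime := fun p hpT => by
      obtain ⟨j, hj, hpj⟩ := mem_U.1 (hT.1 hpT)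
      exact hp j hj p hpj
    have hpf : (∏ p ∈ T, p).primeFactors = T := Nat.primeFactors_prod hTp
    have hc : Squarefree (∏ p ∈ T, p) ∧ (∀ p ∈ (∏ p ∈ T, p).primeFactors, ∃ j < J, p ∈ B j) ∧
      (∀ j < J, ((∏ p ∈ T, p).primeFactors ∩ B j).card ≤ 2 * b j) := by
      rw [hpf]
      exact ⟨squarefree_prod_primes T hTp, fun p hpT => mem_U.1 (hT.1 hpT), hT.2⟩
    simp only [mem_filter, mem_Icc]
    refine ⟨⟨Nat.pos_of_ne_zero (prod_ne_zero_iff.2 fun p hpT => (hTp p hpT).ne_zero), ?_⟩, hc⟩
    apply hX
    rw [rhoB, if_pos hc]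
    exact pow_ne_zero _ (by norm_num)
  · intro d hd
    simp only [mem_filter] at hd
    exact Nat.prod_primeFactors_of_squarefree hd.2.1
  · intro T hT
    simp only [FS, mem_filter, mem_powerset] at hT
    exact Nat.primeFactors_prod fun p hpT => by
      obtain ⟨j, hj, hpj⟩ := mem_U.1 (hT.1 hpT)
      exact hp j hj p hpj
  · intro d hd
    rfl

end Pool.Agent.H52.W.CG2
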