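import Pool.Agent.H52.W.CG2.Stubs

/-!
# KB: sum over v of the coefficients
-/

set_option autoImplicit false

namespace Pool.Agent.H52.W.CG2

variable [Lam]

open Finset Filter NumberField Pool.Agent.H38R2.CG
open scoped Classical

namespace KBh

/-- sums of an antitone function over multiples of `m` -/
theorem sum_mult (F : ℝ → ℝ) (I : ℝ) (V m : ℕ) (hm : 1 ≤ m) (hF : AntitoneOn F (Set.Ici 0))
    (hI : ∀ V : ℝ, 0 ≤ V → ∫ x in (0 : ℝ)..V, F x ≤ I) :
    ∑ v ∈ (Finset.Icc 1 V).filter (fun v => m ∣ v), F v ≤ I / m := by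
  have hm0 : (0 : ℝ) < m := by exact_mod_cast hm
  have h1 : ∑ v ∈ (Finset.Icc 1 V).filter (fun v => m ∣ v), F v =
      ∑ i ∈ Finset.range (V / m), F (m * ((0 : ℝ) + ((i + 1 : ℕ) : ℝ))) := by
    symm
    refine Finset.sum_nbij (fun i => m * (i + 1)) ?_ ?_ ?_ ?_
    · intro i hi
      rw [Finset.mem_range] at hi
      rw [Finset.mem_filter, Finset.mem_Icc]
      refine ⟨⟨?_, ?_⟩, Dvd.intro _ rfl⟩
      · exact Nat.mul_pos hm (Nat.succ_pos i)
      · calc m * (i + 1) ≤ m * (V / m) := Nat.mul_le_mul_left m hi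
          _ ≤ V := Nat.mul_div_le V m
    · intro i _ j _ hij
      have := Nat.eq_of_mul_eq_mul_left hm hij
      omega
    · intro v hv
      simp only [Finset.coe_filter, Finset.mem_Icc, Set.mem_ofPred_eq] at hv
      obtain ⟨⟨hv1, hvV⟩, k, rfl⟩ := hv
      have hk : 1 ≤ k := by
        rcases Nat.eq_zero_or_pos k with h | h
        · subst h; omega
        · exact h
      refine ⟨k - 1, ?_, ?_⟩
      · simp only [Finset.coe_range, Set.mem_Iio]
        have : k ≤ V / m := (Nat.le_div_iff_mul_le hm).mpr (by rw [mul_comm]; exact hvV)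
        omega
      · show m * (k - 1 + 1) = m * k
        rw [Nat.sub_add_cancel hk]
    · intro i _
      congr 1
      push_cast
      ring
  rw [h1]
  have h2 : AntitoneOn (fun x => F (m * x)) (Set.Icc (0 : ℝ) (0 + ((V / m : ℕ) : ℝ))) := by
    intro x hx y hy hxy
    refine hF ?_ ?_ ?_
    · exact mul_nonneg hm0.le hx.1
    · exact mul_nonneg hm0.le hy.1
    · exact mul_le_mul_of_nonneg_left hxy hm0.le
  have h3 := h2.sum_le_integral
  refine h3.trans ?_
  rw [intervalIntegral.integral_comp_mul_left _ hm0.ne', smul_eq_mul, mul_zero, zero_add,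
    div_eq_inv_mul]
  exact mul_le_mul_of_nonneg_left (hI _ (by positivity)) (inv_pos.mpr hm0).le

theorem card_div_le (f : ℕ) (hf : Squarefree f) : (f.divisors.card : ℝ) ≤ 2 ^ f.primeFactors.card := by
  have h0 : f ≠ 0 := hf.ne_zero
  rw [Nat.card_divisors h0]
  have h1 : f.primeFactors.prod (fun p => f.factorization p + 1) ≤
      f.primeFactors.prod (fun _ => 2) := by
    refine Finset.prod_le_prod' fun p _ => ?_
    have := hf.natFactorization_le_one p
    omega
  rw [Finset.prod_const] at h1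
  exact_mod_cast h1

theorem prodS_pos {c : Finset ℕ} (hc : ∀ p ∈ c, p.Prime) : 0 < prodS c :=
  Finset.prod_pos fun p hp => (hc p hp).pos

/-- expansion of `tau` times the greatest common divisor -/
theorem tau_gcd_le (f w v : ℕ) (c : Finset ℕ) (hv : 1 ≤ v) (hf : 1 ≤ f) (hwf : w.Coprime f)
    (hc : ∀ p ∈ c, p.Prime ∧ ¬ p ∣ f ∧ ¬ p ∣ w) (hwv : w ∣ v) :
    tau c v * (Nat.gcd f v : ℝ) ≤ ∑ c' ∈ c.powerset, ∑ f' ∈ f.divisors,
      (if w * prodS c' * f' ∣ v then (∏ p ∈ c', (2 * p - 1 : ℝ)) * (Nat.totient f' : ℝ) else 0) := by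
  have h1 : tau c v = ∑ c' ∈ (c.filter (fun p => p ∣ v)).powerset, ∏ p ∈ c', (2 * p - 1 : ℝ) := by
    rw [tau, ← Finset.prod_one_add]
    refine Finset.prod_congr rfl fun p _ => ?_
    ring
  have h2 : (Nat.gcd f v : ℝ) = ∑ f' ∈ (Nat.gcd f v).divisors, (Nat.totient f' : ℝ) := by
    rw [← Nat.cast_sum, Nat.sum_totient]
  rw [h1, h2, Finset.sum_mul_sum]
  have hpos : ∀ c' ∈ c.powerset, 0 ≤ ∏ p ∈ c', (2 * p - 1 : ℝ) := by
    intro c' hc'
    refine Finset.prod_nonneg fun p hp => ?_
    have h3 : 1 ≤ p := (hc p (Finset.mem_powerset.mp hc' hp)).1.one_lt.le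
    have h4 : (1 : ℝ) ≤ p := by exact_mod_cast h3
    linarith
  have hsub1 : (c.filter (fun p => p ∣ v)).powerset ⊆ c.powerset :=
    Finset.powerset_mono.mpr (Finset.filter_subset _ _)
  have hsub2 : (Nat.gcd f v).divisors ⊆ f.divisors :=
    Nat.divisors_subset_of_dvd (by omega) (Nat.gcd_dvd_left f v)
  calc ∑ c' ∈ (c.filter (fun p => p ∣ v)).powerset, ∑ f' ∈ (Nat.gcd f v).divisors,
        (∏ p ∈ c', (2 * p - 1 : ℝ)) * (Nat.totient f' : ℝ)
      = ∑ c' ∈ (c.filter (fun p => p ∣ v)).powerset, ∑ f' ∈ (Nat.gcd f v).divisors,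
        (if w * prodS c' * f' ∣ v then (∏ p ∈ c', (2 * p - 1 : ℝ)) * (Nat.totient f' : ℝ)
          else 0) := by
        refine Finset.sum_congr rfl fun c' hc' => Finset.sum_congr rfl fun f' hf' => ?_
        rw [if_pos]
        have hc'' := Finset.mem_powerset.mp hc'
        have hf'' := Nat.dvd_of_mem_divisors hf'
        have hf1 : f' ∣ f := hf''.trans (Nat.gcd_dvd_left f v)
        have hf2 : f' ∣ v := hf''.trans (Nat.gcd_dvd_right f v)
        have hcv : prodS c' ∣ v := by
          refine Finset.prod_primes_dvd v (fun p hp => ?_) (fun p hp => ?_)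
          · exact (hc p (Finset.mem_filter.mp (hc'' hp)).1).1.prime
          · exact (Finset.mem_filter.mp (hc'' hp)).2
        have hcw : Nat.Coprime w (prodS c') := by
          refine Nat.Coprime.prod_right fun p hp => ?_
          have hp1 := hc p (Finset.mem_filter.mp (hc'' hp)).1
          exact ((Nat.Prime.coprime_iff_not_dvd hp1.1).mpr hp1.2.2).symm
        have hcf : Nat.Coprime (prodS c') f' := by
          refine Nat.Coprime.prod_left fun p hp => ?_
          have hp1 := hc p (Finset.mem_filter.mp (hc'' hp)).1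
          exact (Nat.Prime.coprime_iff_not_dvd hp1.1).mpr (fun hd => hp1.2.1 (hd.trans hf1))
        have hwf' : Nat.Coprime w f' := hwf.coprime_dvd_right hf1
        exact Nat.Coprime.mul_dvd_of_dvd_of_dvd (Nat.Coprime.mul_left hwf' hcf)
          (Nat.Coprime.mul_dvd_of_dvd_of_dvd hcw hwv hcv) hf2
    _ ≤ ∑ c' ∈ c.powerset, ∑ f' ∈ (Nat.gcd f v).divisors,
        (if w * prodS c' * f' ∣ v then (∏ p ∈ c', (2 * p - 1 : ℝ)) * (Nat.totient f' : ℝ)
          else 0) := by
        refine Finset.sum_le_sum_of_subset_of_nonneg hsub1 fun c' hc' _ => ?_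
        refine Finset.sum_nonneg fun f' _ => ?_
        split_ifs
        · exact mul_nonneg (hpos c' hc') (Nat.cast_nonneg _)
        · exact le_rfl
    _ ≤ _ := by
        refine Finset.sum_le_sum fun c' hc' => ?_
        refine Finset.sum_le_sum_of_subset_of_nonneg hsub2 fun f' _ _ => ?_
        split_ifs
        · exact mul_nonneg (hpos c' hc') (Nat.cast_nonneg _)
        · exact le_rfl

/-- the sum over `v` of `F v` times `tau` times the greatest common divisor -/
theorem sum_tau_gcd (V f w : ℕ) (c : Finset ℕ) (F : ℝ → ℝ) (I : ℝ) (hw : 1 ≤ w) (hf : 1 ≤ f)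
    (hsf : Squarefree f) (hwf : w.Coprime f) (hc : ∀ p ∈ c, p.Prime ∧ ¬ p ∣ f ∧ ¬ p ∣ w)
    (hF : AntitoneOn F (Set.Ici 0)) (hF0 : ∀ x, 0 ≤ F x)
    (hI : ∀ V : ℝ, 0 ≤ V → ∫ x in (0 : ℝ)..V, F x ≤ I) :
    ∑ v ∈ (Finset.Icc 1 V).filter (fun v => w ∣ v), F v * (tau c v * (Nat.gcd f v : ℝ)) ≤
      I / w * (3 ^ c.card * 2 ^ f.primeFactors.card) := by
  have hw0 : (0 : ℝ) < w := by exact_mod_cast hw
  have hI0 : 0 ≤ I := by
    have := hI 0 le_rfl
    rwa [intervalIntegral.integral_same] at this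
  have hpos : ∀ c' ∈ c.powerset, 0 ≤ ∏ p ∈ c', (2 * p - 1 : ℝ) := by
    intro c' hc'
    refine Finset.prod_nonneg fun p hp => ?_
    have h3 : 1 ≤ p := (hc p (Finset.mem_powerset.mp hc' hp)).1.one_lt.le
    have h4 : (1 : ℝ) ≤ p := by exact_mod_cast h3
    linarith
  calc ∑ v ∈ (Finset.Icc 1 V).filter (fun v => w ∣ v), F v * (tau c v * (Nat.gcd f v : ℝ))
      ≤ ∑ v ∈ Finset.Icc 1 V, F v * ∑ c' ∈ c.powerset, ∑ f' ∈ f.divisors,
        (if w * prodS c' * f' ∣ v then (∏ p ∈ c', (2 * p - 1 : ℝ)) * (Nat.totient f' : ℝ)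
          else 0) := by
        have hnn : ∀ v : ℕ, 0 ≤ ∑ c' ∈ c.powerset, ∑ f' ∈ f.divisors,
            (if w * prodS c' * f' ∣ v then (∏ p ∈ c', (2 * p - 1 : ℝ)) * (Nat.totient f' : ℝ)
              else 0) := by
          intro v
          refine Finset.sum_nonneg fun c' hc' => Finset.sum_nonneg fun f' _ => ?_
          split_ifs
          · exact mul_nonneg (hpos c' hc') (Nat.cast_nonneg _)
          · exact le_rfl
        refine le_trans (Finset.sum_le_sum fun v hv => ?_)
          (Finset.sum_le_sum_of_subset_of_nonneg (Finset.filter_subset _ _) fun v _ _ => ?_)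
        · rw [Finset.mem_filter, Finset.mem_Icc] at hv
          exact mul_le_mul_of_nonneg_left (tau_gcd_le f w v c hv.1.1 hf hwf hc hv.2) (hF0 _)
        · exact mul_nonneg (hF0 _) (hnn v)
    _ = ∑ c' ∈ c.powerset, ∑ f' ∈ f.divisors, ((∏ p ∈ c', (2 * p - 1 : ℝ)) *
          (Nat.totient f' : ℝ)) *
          ∑ v ∈ (Finset.Icc 1 V).filter (fun v => w * prodS c' * f' ∣ v), F v := by
        simp_rw [Finset.mul_sum]
        rw [Finset.sum_comm]
        refine Finset.sum_congr rfl fun c' _ => ?_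
        rw [Finset.sum_comm]
        refine Finset.sum_congr rfl fun f' _ => ?_
        rw [Finset.sum_filter]
        refine Finset.sum_congr rfl fun v _ => ?_
        split_ifs
        · ring
        · ring
    _ ≤ ∑ c' ∈ c.powerset, ∑ f' ∈ f.divisors, ((∏ p ∈ c', (2 * p - 1 : ℝ)) *
          (Nat.totient f' : ℝ)) * (I / ((w * prodS c' * f' : ℕ) : ℝ)) := by
        refine Finset.sum_le_sum fun c' hc' => Finset.sum_le_sum fun f' hf' => ?_
        refine mul_le_mul_of_nonneg_left ?_ (mul_nonneg (hpos c' hc') (Nat.cast_nonneg _))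
        refine sum_mult F I V _ ?_ hF hI
        have h1 : 0 < prodS c' := prodS_pos fun p hp => (hc p (Finset.mem_powerset.mp hc' hp)).1
        have h2 : 0 < f' := Nat.pos_of_mem_divisors hf'
        exact Nat.mul_pos (Nat.mul_pos hw h1) h2
    _ = I / w * ((∑ c' ∈ c.powerset, ∏ p ∈ c', ((2 * p - 1 : ℝ) / p)) *
          ∑ f' ∈ f.divisors, (Nat.totient f' : ℝ) / f') := by
        rw [Finset.sum_mul_sum, Finset.mul_sum]
        refine Finset.sum_congr rfl fun c' _ => ?_
        rw [Finset.mul_sum]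
        refine Finset.sum_congr rfl fun f' _ => ?_
        rw [Finset.prod_div_distrib]
        have e1 : ((w * prodS c' * f' : ℕ) : ℝ) = w * (∏ p ∈ c', (p : ℝ)) * f' := by
          unfold prodS
          push_cast
          ring
        rw [e1]
        simp only [div_eq_mul_inv, mul_inv]
        ring
    _ ≤ I / w * (3 ^ c.card * 2 ^ f.primeFactors.card) := by
        refine mul_le_mul_of_nonneg_left ?_ (div_nonneg hI0 hw0.le)
        refine mul_le_mul ?_ ?_ ?_ (by positivity)
        · rw [← Finset.prod_one_add, ← Finset.prod_const]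
          refine Finset.prod_le_prod (fun p hp => ?_) fun p hp => ?_
          · have h3 : 1 ≤ p := (hc p hp).1.one_lt.le
            have h4 : (1 : ℝ) ≤ p := by exact_mod_cast h3
            have : 0 ≤ (2 * p - 1 : ℝ) / p := div_nonneg (by linarith) (by linarith)
            linarith
          · have h3 : 1 ≤ p := (hc p hp).1.one_lt.le
            have h4 : (1 : ℝ) ≤ p := by exact_mod_cast h3
            have : (2 * p - 1 : ℝ) / p ≤ 2 := by
              rw [div_le_iff₀ (by linarith)]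
              linarith
            linarith
        · refine le_trans ?_ (card_div_le f hsf)
          calc ∑ f' ∈ f.divisors, (Nat.totient f' : ℝ) / f' ≤ ∑ f' ∈ f.divisors, (1 : ℝ) := by
                refine Finset.sum_le_sum fun f' hf' => ?_
                have h2 : 0 < f' := Nat.pos_of_mem_divisors hf'
                have h3 : (0 : ℝ) < f' := by exact_mod_cast h2
                rw [div_le_one h3]
                exact_mod_cast Nat.totient_le f'
            _ = (f.divisors.card : ℝ) := by rw [Finset.sum_const, nsmul_eq_mul, mul_one]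
        · refine Finset.sum_nonneg fun f' _ => ?_
          positivity

theorem GG_nonneg {z X : ℕ} {P : Finset ℕ} {δ : ℝ} {C0 : ℕ} {ρ : ℕ → ℝ}
    (h : SWt z X P δ C0 ρ) : 0 ≤ GG X ρ := by
  refine le_trans ?_ h.low
  have : 0 ≤ Real.log X := Real.log_natCast_nonneg X
  positivity

theorem kap_le {z X : ℕ} {P : Finset ℕ} {δ : ℝ} {C0 : ℕ} {ρ : ℕ → ℝ}
    (h : SWt z X P δ C0 ρ) (hC : 1 ≤ C0) (f v : ℕ) (hf : 1 ≤ f) (hsf : Squarefree f) :
    |kap X ρ f v| ≤ (C0 : ℝ) ^ f.primeFactors.card * GG X ρ / f * (Nat.gcd f v : ℝ) := by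
  have hg : 0 < Nat.gcd f v := Nat.gcd_pos_of_pos_left v hf
  have hd : f / Nat.gcd f v ∣ f := Nat.div_dvd_of_dvd (Nat.gcd_dvd_left f v)
  have h1 := h.div (f / Nat.gcd f v) (hsf.squarefree_of_dvd hd)
  have hG := GG_nonneg h
  have hf0 : (0 : ℝ) < f := by exact_mod_cast hf
  have hg0 : (0 : ℝ) < (Nat.gcd f v : ℝ) := by exact_mod_cast hg
  unfold kap
  refine h1.trans ?_
  have h2 : (f / Nat.gcd f v).primeFactors.card ≤ f.primeFactors.card :=
    Finset.card_le_card (Nat.primeFactors_mono hd (by omega))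
  have h3 : ((f / Nat.gcd f v : ℕ) : ℝ) = f / (Nat.gcd f v : ℝ) :=
    Nat.cast_div (Nat.gcd_dvd_left f v) hg0.ne'
  rw [h3, div_div_eq_mul_div, mul_div_right_comm]
  refine mul_le_mul_of_nonneg_right ?_ hg0.le
  refine div_le_div_of_nonneg_right ?_ hf0.le
  refine mul_le_mul_of_nonneg_right ?_ hG
  exact pow_le_pow_right₀ (by exact_mod_cast hC) h2

theorem tau_nonneg (c : Finset ℕ) (v : ℕ) : 0 ≤ tau c v := by
  unfold tau
  exact Finset.prod_nonneg fun p _ => by positivity

end KBh

open KBh in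
theorem T2_KB : P2_KB := by
  intro z X V f w P δ C0 ρ c F I hS hC hw hf hsf hwf hc hF hF0 hI
  have hG := GG_nonneg hS
  have hf0 : (0 : ℝ) < f := by exact_mod_cast hf
  have hA : 0 ≤ (C0 : ℝ) ^ f.primeFactors.card * GG X ρ / f := by positivity
  calc ∑ v ∈ (Finset.Icc 1 V).filter (fun v => w ∣ v), F v * (tau c v * |kap X ρ f v|)
      ≤ ∑ v ∈ (Finset.Icc 1 V).filter (fun v => w ∣ v),
        ((C0 : ℝ) ^ f.primeFactors.card * GG X ρ / f) *
          (F v * (tau c v * (Nat.gcd f v : ℝ))) := by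
        refine Finset.sum_le_sum fun v _ => ?_
        have h1 := kap_le hS hC f v hf hsf
        have h2 := tau_nonneg c v
        calc F v * (tau c v * |kap X ρ f v|)
            ≤ F v * (tau c v * ((C0 : ℝ) ^ f.primeFactors.card * GG X ρ / f *
              (Nat.gcd f v : ℝ))) :=
              mul_le_mul_of_nonneg_left (mul_le_mul_of_nonneg_left h1 h2) (hF0 _)
          _ = _ := by ring
    _ = ((C0 : ℝ) ^ f.primeFactors.card * GG X ρ / f) *
        ∑ v ∈ (Finset.Icc 1 V).filter (fun v => w ∣ v),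
          (F v * (tau c v * (Nat.gcd f v : ℝ))) := by rw [Finset.mul_sum]
    _ ≤ ((C0 : ℝ) ^ f.primeFactors.card * GG X ρ / f) *
        (I / w * (3 ^ c.card * 2 ^ f.primeFactors.card)) :=
        mul_le_mul_of_nonneg_left (sum_tau_gcd V f w c F I hw hf hsf hwf hc hF hF0 hI) hA
    _ = 3 ^ c.card * (2 * C0 : ℝ) ^ f.primeFactors.card * GG X ρ / f * (I / w) := by
        rw [mul_pow]
        ring

end Pool.Agent.H52.W.CG2
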