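import Pool.Agent.H52.W.CG2.Stubs

/-!
Task NB of part two (helper311): size of the parameters.
-/

set_option autoImplicit false

namespace Pool.Agent.H52.W.CG2

variable [Lam]

open Finset Filter NumberField Pool.Agent.H38R2.CG
open scoped Classical

namespace NBh

theorem ev_log (C s : ℝ) (hs : 0 < s) : ∀ᶠ l : ℝ in atTop, C * Real.log l ≤ l ^ s := by
  have h := (isLittleO_log_rpow_atTop hs).def (show (0 : ℝ) < 1 / (|C| + 1) by positivity)
  filter_upwards [h, eventually_ge_atTop 1] with l hl hl1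
  have h0 : 0 ≤ Real.log l := Real.log_nonneg hl1
  have h1 : 0 ≤ l ^ s := by positivity
  rw [Real.norm_eq_abs, Real.norm_eq_abs, abs_of_nonneg h0, abs_of_nonneg h1] at hl
  have h2 : (|C| + 1) * Real.log l ≤ l ^ s := by
    have h3 : (|C| + 1) * Real.log l ≤ (|C| + 1) * (1 / (|C| + 1) * l ^ s) :=
      mul_le_mul_of_nonneg_left hl (by positivity)
    have h4 : (|C| + 1) * (1 / (|C| + 1) * l ^ s) = l ^ s := by
      have : |C| + 1 ≠ 0 := by positivity
      field_simp
    linarith
  have h5 : C * Real.log l ≤ (|C| + 1) * Real.log l := by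
    apply mul_le_mul_of_nonneg_right _ h0
    have := le_abs_self C
    linarith
  linarith

theorem ev_loglog (C : ℝ) : ∀ᶠ l : ℝ in atTop, C ≤ Real.log l :=
  Real.tendsto_log_atTop.eventually_ge_atTop C

theorem th_bounds {a : ℝ} (ha : 2 < a) : 0 < cc a ∧ 3 / 4 < th a ∧ th a < 1 ∧
    0 < th a * (a - 1) / a - (1 / 2 + 3 * cc a) := by
  have h1 : 0 < a - 2 := by linarith
  have h2 : 0 < a - 1 := by linarith
  have h3 : 0 < cc a := ccpos ha
  have h4 : cc a < 1 / 32 := cclt ha
  refine ⟨h3, ?_, ?_, ?_⟩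
  · unfold th; linarith
  · unfold th; linarith
  · have h5 := cc_le_base ha
    have ha0 : 0 < a := by linarith
    have h6 : th a * (a - 1) / a - (1 / 2 + 3 * cc a) =
        (a - 2) / (2 * a) - cc a * ((11 * a - 8) / a) := by
      unfold th
      field_simp
      ring
    have h7 : cc a * ((11 * a - 8) / a) ≤
        (a - 2) / (32 * (a - 1)) * ((11 * a - 8) / a) :=
      mul_le_mul_of_nonneg_right h5 (div_nonneg (by linarith) ha0.le)
    have h8 : (a - 2) / (2 * a) - (a - 2) / (32 * (a - 1)) * ((11 * a - 8) / a) =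
        (a - 2) * (5 * a - 8) / (32 * a * (a - 1)) := by
      field_simp
      ring
    have h9 : 0 < (a - 2) * (5 * a - 8) / (32 * a * (a - 1)) :=
      div_pos (mul_pos h1 (by linarith)) (by positivity)
    rw [h6]
    linarith

/-- the lower bound for the binomial coefficient -/
theorem choose_bound {n k : ℕ} {q : ℝ} (hk : 1 ≤ k) (hkn : 2 * k ≤ n) (hq : 0 < q)
    (h : q * k ≤ (n : ℝ) / 2) : q ^ k ≤ (n.choose k : ℝ) := by
  have hkr : (0 : ℝ) < k := by exact_mod_cast hk
  have hch := Nat.pow_le_choose (α := ℝ) k n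
  have hfac : ((k.factorial : ℕ) : ℝ) ≤ (k : ℝ) ^ k := by
    exact_mod_cast Nat.factorial_le_pow k
  have hcast : ((n + 1 - k : ℕ) : ℝ) = (n : ℝ) + 1 - k := by
    rw [Nat.cast_sub (by omega)]
    push_cast
    ring
  have hkn' : 2 * (k : ℝ) ≤ n := by exact_mod_cast hkn
  have hbase : q ≤ ((n : ℝ) + 1 - k) / k := by
    rw [le_div_iff₀ hkr]
    linarith
  calc q ^ k ≤ (((n : ℝ) + 1 - k) / k) ^ k := pow_le_pow_left₀ hq.le hbase k
    _ = ((n : ℝ) + 1 - k) ^ k / (k : ℝ) ^ k := div_pow _ _ _
    _ ≤ ((n : ℝ) + 1 - k) ^ k / ((k.factorial : ℕ) : ℝ) := by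
        refine div_le_div_of_nonneg_left ?_ (by exact_mod_cast Nat.factorial_pos k) hfac
        have : 0 ≤ (n : ℝ) + 1 - k := by linarith
        positivity
    _ ≤ (n.choose k : ℝ) := by
        rw [← hcast]
        exact_mod_cast hch

end NBh

theorem T2_NB : P_NB → P2_NB := by
  rintro ⟨-, y0, hy0⟩ a ha ε hε
  obtain ⟨hcc, hth1, hth2, hdiff⟩ := NBh.th_bounds ha
  have ha0 : 0 < a := by linarith
  obtain ⟨δ0, hδ0⟩ : ∃ δ0 : ℝ, δ0 = th a * (a - 1) / a - (1 / 2 + 3 * cc a) := ⟨_, rfl⟩
  have hδ0p : 0 < δ0 := by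
    rw [hδ0]
    exact hdiff
  have hlog : Tendsto (fun X : ℕ => Real.log X) atTop atTop :=
    Real.tendsto_log_atTop.comp tendsto_natCast_atTop_atTop
  have hev : ∀ᶠ X : ℕ in atTop,
      ((kA a X : ℝ)) ^ 2 ≤ (Real.log X) ^ (-((a - 2) / 2)) * (PA a X).card ∧
      (X : ℝ) ^ (1 / 2 + 3 * cc a) ≤ NA a X ∧
      (2 : ℝ) ^ (kA a X) ≤ (X : ℝ) ^ ε ∧ (kA a X : ℝ) ≤ Real.log X ∧
      √(Real.log X) ≤ kA a X ∧ (yA a X : ℝ) ≤ (X : ℝ) ^ ε ∧ 4 * (kA a X) ^ 2 ≤ (PA a X).card ∧
      ((PA a X).card : ℝ) ≤ (X : ℝ) ^ ε := by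
    have e1 := NBh.ev_log (a / ε) 1 (by norm_num)
    have e2 := NBh.ev_log a 1 (by norm_num)
    have e3 := NBh.ev_log (4 / 3 * a) (1 / 2) (by norm_num)
    have e4 := NBh.ev_log (a / (9 / 50)) ((a - 2) / 2) (by linarith)
    have e5 : ∀ᶠ l : ℝ in atTop, (4 : ℝ) ≤ l ^ ((a - 2) / 2) :=
      (tendsto_rpow_atTop (by linarith : 0 < (a - 2) / 2)).eventually_ge_atTop 4
    filter_upwards [hlog.eventually e1, hlog.eventually e2, hlog.eventually e3,
      hlog.eventually e4, hlog.eventually e5,
      hlog.eventually (NBh.ev_loglog (4 / (a * δ0))), hlog.eventually (NBh.ev_loglog (2 / ε + 4)),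
      hlog.eventually_ge_atTop 100, hlog.eventually_ge_atTop (2 / ε),
      hlog.eventually_ge_atTop (5 * (y0 : ℝ)),
      eventually_ge_atTop 1] with X h1 h2 h3 h4 h5 h6 h7 h8 h9 h10 h11
    obtain ⟨l, hl⟩ : ∃ l, l = Real.log X := ⟨_, rfl⟩
    obtain ⟨L, hL⟩ : ∃ L, L = Real.log l := ⟨_, rfl⟩
    rw [← hl] at h1 h2 h3 h4 h5 h6 h7 h8 h9 h10 ⊢
    rw [← hL] at h1 h2 h3 h4 h6 h7
    rw [Real.rpow_one] at h1 h2
    have hl0 : 0 < l := by linarith
    have hX0 : (0 : ℝ) < X := by exact_mod_cast h11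
    have hXr : ∀ x : ℝ, (X : ℝ) ^ x = Real.exp (l * x) := by
      intro x
      rw [Real.rpow_def_of_pos hX0, hl]
    have hεi : 0 < 2 / ε := by positivity
    have hL4 : 4 ≤ L := by linarith
    -- y
    obtain ⟨y, hy⟩ : ∃ y, y = yA a X := ⟨_, rfl⟩
    have hlaexp : l ^ a = Real.exp (a * L) := by
      rw [Real.rpow_def_of_pos hl0, hL]
      ring_nf
    have hla : l * l ≤ l ^ a := by
      have : l ^ (2:ℝ) ≤ l ^ a := Real.rpow_le_rpow_of_exponent_le (by linarith) ha.le
      rw [Real.rpow_two] at this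
      nlinarith
    have hy1 : (y : ℝ) ≤ l ^ a / 4 := by
      rw [hy, yA, ← hl]
      exact Nat.floor_le (by positivity)
    have hy2 : l ^ a / 5 ≤ y := by
      have : l ^ a / 4 - 1 < y := by
        rw [hy, yA, ← hl]
        exact Nat.sub_one_lt_floor _
      nlinarith
    have hypos : (0 : ℝ) < y := by
      have : 0 < l ^ a / 5 := by positivity
      linarith
    have hyl : l ≤ y := by nlinarith
    have hyy0 : y0 ≤ y := by
      have h12 : (y0 : ℝ) ≤ y := by
        have : (0:ℝ) ≤ y0 := Nat.cast_nonneg _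
        linarith
      exact_mod_cast h12
    obtain ⟨hn1, hn2⟩ := hy0 y hyy0
    -- Λ
    obtain ⟨Λ, hΛ⟩ : ∃ Λ, Λ = Real.log y := ⟨_, rfl⟩
    have hΛ1 : Λ ≤ a * L := by
      have : Real.log y ≤ Real.log (Real.exp (a * L)) := by
        apply Real.log_le_log hypos
        rw [← hlaexp]
        have : 0 < l ^ a := by positivity
        linarith
      rw [Real.log_exp] at this
      rw [hΛ]; exact this
    have hΛ2 : a * L - 2 ≤ Λ := by
      have h12 : Real.exp (a * L - 2) ≤ y := by
        refine le_trans ?_ hy2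
        rw [hlaexp, Real.exp_sub]
        apply div_le_div_of_nonneg_left (Real.exp_pos _).le (by norm_num)
        have h13 := Real.exp_one_gt_d9
        have h14 : Real.exp 2 = Real.exp 1 * Real.exp 1 := by rw [← Real.exp_add]; norm_num
        rw [h14]
        nlinarith
      have h13 := Real.log_le_log (Real.exp_pos _) h12
      rw [Real.log_exp] at h13
      rw [hΛ]; exact h13
    have hΛ3 : L ≤ Λ := by nlinarith
    have hΛ4 : 2 / ε + 4 ≤ Λ := by linarith
    have hΛ0 : 0 < Λ := by linarith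
    have hΛl : Λ ≤ l := by linarith
    rw [← hΛ] at hn1 hn2
    -- k
    obtain ⟨k, hk⟩ : ∃ k, k = kA a X := ⟨_, rfl⟩
    have hk1 : 1 ≤ k := by rw [hk, kA]; omega
    have hkr1 : (1 : ℝ) ≤ k := by exact_mod_cast hk1
    have hk2 : th a * l / Λ ≤ k := by
      rw [hk, kA, ← hy, ← hl, ← hΛ]
      push_cast
      exact (Nat.lt_floor_add_one _).le
    have hk3 : (k : ℝ) ≤ th a * l / Λ + 1 := by
      rw [hk, kA, ← hy, ← hl, ← hΛ]
      push_cast
      have h0 : 0 ≤ th a * l / Λ := by
        have : 0 ≤ th a := by linarith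
        positivity
      have := Nat.floor_le h0
      linarith
    obtain ⟨n, hn⟩ : ∃ n, n = (PA a X).card := ⟨_, rfl⟩
    have hn' : (PP y).card = n := by rw [hn, PA, hy]
    rw [hn'] at hn1 hn2
    rw [← hk, ← hy, NA, CA, ← hk, ← hn]
    -- (4)
    have c4 : (k : ℝ) ≤ l := by
      have h12 : th a * l / Λ ≤ l / 4 := by
        rw [div_le_div_iff₀ hΛ0 (by norm_num)]
        nlinarith
      linarith
    -- lower bound of n
    have hn3 : (9 / 50 : ℝ) * l ^ a / (a * L) ≤ n := by
      refine le_trans ?_ hn1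
      have h12 : (9 / 50 : ℝ) * l ^ a ≤ 9 / 10 * y := by linarith
      exact div_le_div₀ (by positivity) h12 hΛ0 hΛ1
    have haL : 0 < a * L := by positivity
    -- (1)
    have c1 : (k : ℝ) ^ 2 ≤ l ^ (-((a - 2) / 2)) * n := by
      have h12 : (k : ℝ) ^ 2 ≤ l ^ 2 := pow_le_pow_left₀ (by linarith) c4 2
      refine h12.trans ?_
      have h13 : l ^ (-((a - 2) / 2)) * ((9 / 50 : ℝ) * l ^ a / (a * L)) ≤
          l ^ (-((a - 2) / 2)) * n := mul_le_mul_of_nonneg_left hn3 (by positivity)
      refine le_trans ?_ h13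
      have h14 : l ^ (-((a - 2) / 2)) * ((9 / 50 : ℝ) * l ^ a / (a * L)) =
          l ^ 2 * (l ^ ((a - 2) / 2) * ((9 / 50) / (a * L))) := by
        have h15 : l ^ (-((a - 2) / 2)) * l ^ a = l ^ 2 * l ^ ((a - 2) / 2) := by
          rw [← Real.rpow_add hl0, ← Real.rpow_two, ← Real.rpow_add hl0]
          congr 1
          ring
        calc l ^ (-((a - 2) / 2)) * ((9 / 50 : ℝ) * l ^ a / (a * L))
            = (l ^ (-((a - 2) / 2)) * l ^ a) * ((9 / 50) / (a * L)) := by ring
          _ = _ := by rw [h15]; ring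
      rw [h14]
      have h16 : 1 ≤ l ^ ((a - 2) / 2) * ((9 / 50) / (a * L)) := by
        rw [← mul_div_assoc, le_div_iff₀ haL]
        have h17 : a / (9 / 50) * L = a * L / (9 / 50) := by ring
        rw [h17, div_le_iff₀ (by norm_num)] at h4
        linarith
      have h18 : 0 ≤ l ^ 2 := by positivity
      nlinarith
    -- (7)
    have hneg : l ^ (-((a - 2) / 2)) ≤ 1 / 4 := by
      rw [Real.rpow_neg hl0.le, ← one_div]
      exact one_div_le_one_div_of_le (by norm_num) h5
    have c7' : 4 * (k : ℝ) ^ 2 ≤ n := by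
      have h12 : l ^ (-((a - 2) / 2)) * n ≤ 1 / 4 * n :=
        mul_le_mul_of_nonneg_right hneg (Nat.cast_nonneg _)
      linarith
    have c7 : 4 * k ^ 2 ≤ n := by exact_mod_cast c7'
    -- (6)
    have c6 : (y : ℝ) ≤ (X : ℝ) ^ ε := by
      rw [hXr]
      have h12 : a * L ≤ l * ε := by
        have h13 : a / ε * L = a * L / ε := by ring
        rw [h13, div_le_iff₀ hε] at h1
        linarith
      calc (y : ℝ) ≤ l ^ a := by
            have : 0 < l ^ a := by positivity
            linarith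
        _ = Real.exp (a * L) := hlaexp
        _ ≤ _ := Real.exp_le_exp.mpr h12
    refine ⟨c1, ?_, ?_, c4, ?_, c6, c7, ?_⟩
    · -- (2)
      have hq : 0 < (9 / 200 : ℝ) * l ^ (a - 1) := by positivity
      have h2k : 2 * k ≤ n := by nlinarith
      have hqk : (9 / 200 : ℝ) * l ^ (a - 1) * k ≤ (n : ℝ) / 2 := by
        have h12 : (k : ℝ) * Λ ≤ 2 * l := by
          have h13 : (k : ℝ) * Λ ≤ (th a * l / Λ + 1) * Λ := mul_le_mul_of_nonneg_right hk3 hΛ0.le
          have h14 : (th a * l / Λ + 1) * Λ = th a * l + Λ := by field_simp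
          nlinarith
        have h15 : (9 / 50 : ℝ) * l ^ a / Λ ≤ n := by
          refine le_trans ?_ hn1
          apply div_le_div_of_nonneg_right _ hΛ0.le
          linarith
        rw [div_le_iff₀ hΛ0] at h15
        have h16 : l ^ a = l ^ (a - 1) * l := by
          rw [← Real.rpow_add_one hl0.ne']
          congr 1
          ring
        rw [h16] at h15
        -- (9/50) l^(a-1) l ≤ n Λ ; multiply by k
        have h17 : (9 / 100 : ℝ) * l ^ (a - 1) * (k * Λ) ≤ n * Λ := by
          have h18 : 0 ≤ (9 / 100 : ℝ) * l ^ (a - 1) := by positivity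
          have h19 := mul_le_mul_of_nonneg_left h12 h18
          nlinarith
        have h20 : (9 / 100 : ℝ) * l ^ (a - 1) * k ≤ n := by
          have h21 : ((9 / 100 : ℝ) * l ^ (a - 1) * k) * Λ ≤ n * Λ := by linarith
          exact le_of_mul_le_mul_right h21 hΛ0
        linarith
      refine le_trans ?_ (NBh.choose_bound hk1 h2k hq hqk)
      rw [hXr]
      have hqe : Real.exp ((a - 1) * L - 4) ≤ (9 / 200 : ℝ) * l ^ (a - 1) := by
        have h12 : l ^ (a - 1) = Real.exp ((a - 1) * L) := by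
          rw [Real.rpow_def_of_pos hl0, hL]
          ring_nf
        rw [h12, Real.exp_sub]
        rw [div_le_iff₀ (Real.exp_pos _)]
        have h13 : 1 ≤ 9 / 200 * Real.exp 4 := by
          have h14 := Real.exp_one_gt_d9
          have h15 : Real.exp 4 = (Real.exp 1) ^ 4 := by
            rw [← Real.exp_nat_mul]; norm_num
          rw [h15]
          have h16 : (2.7 : ℝ) ^ 4 ≤ (Real.exp 1) ^ 4 :=
            pow_le_pow_left₀ (by norm_num) (by linarith) 4
          norm_num at h16 ⊢
          linarith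
        have h17 := Real.exp_pos ((a - 1) * L)
        nlinarith
      have hpos4 : 0 ≤ (a - 1) * L - 4 := by nlinarith
      calc Real.exp (l * (1 / 2 + 3 * cc a)) ≤ Real.exp ((k : ℝ) * ((a - 1) * L - 4)) := by
            apply Real.exp_le_exp.mpr
            have h12 : th a * l / (a * L) ≤ k := by
              refine le_trans ?_ hk2
              apply div_le_div_of_nonneg_left _ hΛ0 hΛ1
              have : 0 ≤ th a := by linarith
              positivity
            have h13 : th a * l / (a * L) * ((a - 1) * L - 4) ≤ k * ((a - 1) * L - 4) :=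
              mul_le_mul_of_nonneg_right h12 hpos4
            refine le_trans ?_ h13
            have h14 : th a * l / (a * L) * ((a - 1) * L - 4) =
                l * (th a * (a - 1) / a - th a * (4 / (a * L))) := by
              have : L ≠ 0 := by linarith
              field_simp
            rw [h14]
            apply mul_le_mul_of_nonneg_left _ hl0.le
            have h15 : 4 / (a * L) ≤ δ0 := by
              rw [div_le_iff₀ haL]
              rw [div_le_iff₀ (by positivity)] at h6
              linarith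
            have h16 : th a * (4 / (a * L)) ≤ 1 * δ0 := by
              apply mul_le_mul hth2.le h15 (by positivity) (by norm_num)
            linarith
        _ = (Real.exp ((a - 1) * L - 4)) ^ k := by
            rw [← Real.exp_nat_mul]
        _ ≤ _ := pow_le_pow_left₀ (Real.exp_pos _).le hqe k
    · -- (3)
      rw [hXr]
      have h12 : (2 : ℝ) ^ k = Real.exp (k * Real.log 2) := by
        rw [← Real.rpow_natCast, Real.rpow_def_of_pos (by norm_num)]
        ring_nf
      rw [h12]
      apply Real.exp_le_exp.mpr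
      have h13 : Real.log 2 ≤ 1 := by
        have := Real.log_two_lt_d9
        linarith
      have h14 : (k : ℝ) * Real.log 2 ≤ k := by nlinarith
      refine h14.trans (hk3.trans ?_)
      have h15 : th a * l / Λ ≤ l * ε / 2 := by
        rw [div_le_iff₀ hΛ0]
        have h16 : 1 ≤ ε / 2 * Λ := by
          have h17 : 2 / ε ≤ Λ := by linarith
          rw [div_le_iff₀ hε] at h17
          linarith
        have h18 : th a * l ≤ l := by nlinarith
        have h19 : l ≤ l * (ε / 2 * Λ) := by nlinarith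
        linarith
      have h16 : 1 ≤ l * ε / 2 := by
        rw [div_le_iff₀ hε] at h9
        linarith
      linarith
    · -- (5)
      refine le_trans ?_ hk2
      rw [Real.sqrt_eq_rpow]
      have hsq : l ^ (1 / 2 : ℝ) * l ^ (1 / 2 : ℝ) = l := by
        rw [← Real.rpow_add hl0]
        norm_num
      have hs0 : 0 < l ^ (1 / 2 : ℝ) := by positivity
      rw [le_div_iff₀ hΛ0]
      have h12 : Λ ≤ 3 / 4 * l ^ (1 / 2 : ℝ) := by
        have : a * L = 3 / 4 * (4 / 3 * a * L) := by ring
        linarith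
      calc l ^ (1 / 2 : ℝ) * Λ ≤ l ^ (1 / 2 : ℝ) * (3 / 4 * l ^ (1 / 2 : ℝ)) :=
            mul_le_mul_of_nonneg_left h12 hs0.le
        _ = 3 / 4 * (l ^ (1 / 2 : ℝ) * l ^ (1 / 2 : ℝ)) := by ring
        _ = 3 / 4 * l := by rw [hsq]
        _ ≤ th a * l := mul_le_mul_of_nonneg_right hth1.le hl0.le
    · -- (8)
      refine le_trans (hn2.trans ?_) c6
      rw [div_le_iff₀ hΛ0]
      nlinarith
  exact eventually_atTop.mp hev

end Pool.Agent.H52.W.CG2
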