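import Pool.Agent.H52.W.CG2.Stubs

set_option autoImplicit false

namespace Pool.Agent.H52.W.CG2

variable [Lam]

open Finset Filter NumberField Pool.Agent.H38R2.CG
open scoped Classical

namespace NBADh

theorem tendsto_logX : Tendsto (fun X : ℕ => Real.log X) atTop atTop :=
  Real.tendsto_log_atTop.comp tendsto_natCast_atTop_atTop

theorem tendsto_sqrtLog : Tendsto (fun X : ℕ => √(Real.log X)) atTop atTop :=
  Real.tendsto_sqrt_atTop.comp tendsto_logX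

theorem tendsto_yA {a : ℝ} (ha : 2 < a) : Tendsto (fun X : ℕ => yA a X) atTop atTop := by
  unfold yA
  apply tendsto_nat_floor_atTop.comp
  apply Tendsto.atTop_div_const (by norm_num)
  exact (tendsto_rpow_atTop (by linarith)).comp tendsto_logX

theorem tendsto_sqrt_yA {a : ℝ} (ha : 2 < a) :
    Tendsto (fun X : ℕ => √(yA a X : ℝ)) atTop atTop :=
  Real.tendsto_sqrt_atTop.comp (tendsto_natCast_atTop_atTop.comp (tendsto_yA ha))

theorem ev_exp {c : ℝ} (hc : 0 < c) (n : ℕ) {δ : ℝ} (hδ : 0 < δ) : ∀ᶠ X : ℕ in atTop,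
    (1 + √(Real.log X)) ^ n ≤ δ * Real.exp (c * (1 + √(Real.log X))) := by
  have h1 : Tendsto (fun X : ℕ => 1 + √(Real.log X)) atTop atTop :=
    tendsto_atTop_add_const_left _ _ tendsto_sqrtLog
  have h2 := (Asymptotics.isLittleO_iff.1 (isLittleO_pow_exp_pos_mul_atTop (k := n) hc)) hδ
  filter_upwards [h1.eventually h2] with X hX
  rw [Real.norm_eq_abs, Real.norm_eq_abs, abs_of_pos (Real.exp_pos _)] at hX
  exact (le_abs_self _).trans hX

/-- the numerical estimate -/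
theorem est {c ε L : ℝ} {k K i0 C1 : ℕ} (hc0 : 0 < c) (hc1 : c ≤ 1 / 2) (hε : 0 < ε)
    (hL : 0 < L) (hkK : k ≤ K) (hKk : K ≤ k + i0) (hK1 : (K : ℝ) ≤ L) (hK2 : √L ≤ K)
    (h : (1 + √L) ^ (2 * (C1 + 2)) ≤
      ε / (2500 * Real.exp (2 * c * (i0 + 1))) * Real.exp (2 * c * (1 + √L))) :
    2500 * k * ((1 - c) ^ k) ^ 2 * (1 + L) ^ C1 ≤ ε / L := by
  have hu0 : 0 ≤ √L := Real.sqrt_nonneg L
  have huu : √L ^ 2 = L := Real.sq_sqrt hL.le
  set u := √L with hu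
  have hkr : (k : ℝ) ≤ L := (Nat.cast_le.2 hkK).trans hK1
  have hk0 : (0 : ℝ) ≤ k := Nat.cast_nonneg k
  have h1 : L ≤ (1 + u) ^ 2 := by nlinarith
  have h2 : 1 + L ≤ (1 + u) ^ 2 := by nlinarith
  have h3 : (1 + L) ^ C1 ≤ (1 + u) ^ (2 * C1) := by
    rw [pow_mul]
    exact pow_le_pow_left₀ (by linarith) h2 C1
  have hkL : (k : ℝ) * L ≤ (1 + u) ^ 4 := by
    calc (k : ℝ) * L ≤ (1 + u) ^ 2 * (1 + u) ^ 2 :=
          mul_le_mul (hkr.trans h1) h1 hL.le (by positivity)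
      _ = (1 + u) ^ 4 := by ring
  have h4 : (k : ℝ) * L * (1 + L) ^ C1 ≤ (1 + u) ^ (2 * (C1 + 2)) := by
    calc (k : ℝ) * L * (1 + L) ^ C1 ≤ (1 + u) ^ 4 * (1 + u) ^ (2 * C1) :=
          mul_le_mul hkL h3 (by positivity) (by positivity)
      _ = (1 + u) ^ (2 * (C1 + 2)) := by rw [← pow_add]; congr 1; ring
  have h5 : ((1 - c) ^ k) ^ 2 ≤ Real.exp (-(2 * c * (1 + u))) * Real.exp (2 * c * (i0 + 1)) := by
    have h6 : 1 - c ≤ Real.exp (-c) := by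
      have := Real.add_one_le_exp (-c)
      linarith
    have h7 : (1 - c) ^ k ≤ Real.exp (-c) ^ k := pow_le_pow_left₀ (by linarith) h6 k
    have h8 : ((1 - c) ^ k) ^ 2 ≤ (Real.exp (-c) ^ k) ^ 2 :=
      pow_le_pow_left₀ (pow_nonneg (by linarith) k) h7 2
    refine h8.trans ?_
    rw [← pow_mul, ← Real.exp_nat_mul, ← Real.exp_add]
    apply Real.exp_le_exp.2
    have h9 : (K : ℝ) ≤ k + i0 := by exact_mod_cast hKk
    have h10 : u ≤ k + i0 := hK2.trans h9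
    push_cast
    nlinarith
  have hE : (0 : ℝ) < Real.exp (2 * c * (i0 + 1)) := Real.exp_pos _
  rw [le_div_iff₀ hL]
  calc 2500 * (k : ℝ) * ((1 - c) ^ k) ^ 2 * (1 + L) ^ C1 * L
      = 2500 * ((k : ℝ) * L * (1 + L) ^ C1) * ((1 - c) ^ k) ^ 2 := by ring
    _ ≤ 2500 * (ε / (2500 * Real.exp (2 * c * (i0 + 1))) * Real.exp (2 * c * (1 + u))) *
        (Real.exp (-(2 * c * (1 + u))) * Real.exp (2 * c * (i0 + 1))) := by
        apply mul_le_mul _ h5 (by positivity) (by positivity)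
        exact mul_le_mul_of_nonneg_left (h4.trans h) (by norm_num)
    _ = ε := by
        rw [Real.exp_neg]
        field_simp

end NBADh

open NBADh in
theorem T2_NBAD : P2_NB → P2_CC4 → P2_NBAD := by
  intro hNB hCC a ha M hM C1 i0 l ε hl hε
  obtain ⟨c, hc0, hc1, y0, hy0⟩ := hCC M hM
  obtain ⟨X1, hX1⟩ := hNB a ha 1 one_pos
  have hδ : 0 < ε / (2500 * Real.exp (2 * c * (i0 + 1))) := by positivity
  have hev : ∀ᶠ X : ℕ in atTop, X1 ≤ X ∧ y0 ≤ yA a X ∧ l ≤ √(yA a X : ℝ) ∧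
      0 < Real.log X ∧ ((i0 : ℝ) + 1) ≤ √(Real.log X) ∧
      (1 + √(Real.log X)) ^ (2 * (C1 + 2)) ≤
        ε / (2500 * Real.exp (2 * c * (i0 + 1))) * Real.exp (2 * c * (1 + √(Real.log X))) := by
    filter_upwards [eventually_ge_atTop X1, (tendsto_yA ha).eventually_ge_atTop y0,
      (tendsto_sqrt_yA ha).eventually_ge_atTop l, tendsto_logX.eventually_gt_atTop 0,
      tendsto_sqrtLog.eventually_ge_atTop ((i0 : ℝ) + 1),
      ev_exp (c := 2 * c) (by linarith) (2 * (C1 + 2)) hδ] with X h1 h2 h3 h4 h5 h6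
    exact ⟨h1, h2, h3, h4, h5, h6⟩
  obtain ⟨X0, hX0⟩ := eventually_atTop.1 hev
  refine ⟨X0, fun X hX k hk1 hk2 => ?_⟩
  obtain ⟨g1, g2, g3, g4, g5, g6⟩ := hX0 X hX
  obtain ⟨n1, n2, n3, n4, n5, n6, n7, n8⟩ := hX1 X g1
  have hKk : kA a X ≤ k + i0 := by omega
  have hk : 1 ≤ k := by
    have h1 : ((i0 : ℝ) + 1) ≤ kA a X := g5.trans n5
    have h2 : i0 + 1 ≤ kA a X := by exact_mod_cast h1
    omega
  have hkc : k ^ 2 ≤ (PP (yA a X)).card := by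
    have h1 : k ^ 2 ≤ (kA a X) ^ 2 := Nat.pow_le_pow_left hk2 2
    have h2 : 4 * (kA a X) ^ 2 ≤ (PP (yA a X)).card := n7
    omega
  refine ⟨50 * √(k : ℝ) * (1 - c) ^ k * CA a X k, ?_, ?_, ?_⟩
  · have h1 : 0 ≤ (1 - c) ^ k := pow_nonneg (by linarith) k
    have h2 : 0 ≤ CA a X k := by unfold CA; positivity
    positivity
  · have h1 := est (c := c) (ε := ε) (L := Real.log X) (k := k) (K := kA a X) (i0 := i0)
      (C1 := C1) hc0 hc1 hε g4 hk2 hKk n4 n5 g6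
    have h2 : 0 ≤ (CA a X k) ^ 2 := sq_nonneg _
    have h3 : (50 * √(k : ℝ) * (1 - c) ^ k * CA a X k) ^ 2 * (1 + Real.log X) ^ C1 =
        (2500 * k * ((1 - c) ^ k) ^ 2 * (1 + Real.log X) ^ C1) * (CA a X k) ^ 2 := by
      have h4 : √(k : ℝ) ^ 2 = k := Real.sq_sqrt (Nat.cast_nonneg k)
      calc (50 * √(k : ℝ) * (1 - c) ^ k * CA a X k) ^ 2 * (1 + Real.log X) ^ C1
          = 2500 * √(k : ℝ) ^ 2 * ((1 - c) ^ k) ^ 2 * (1 + Real.log X) ^ C1 *
            (CA a X k) ^ 2 := by ring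
        _ = _ := by rw [h4]
    rw [h3]
    exact mul_le_mul_of_nonneg_right h1 h2
  · intro ψ f hf hfM hne hbad ξ hξ
    have h1 : ‖∑ p ∈ PP (yA a X), ψ (p : ZMod M) * ((jacobiSym (p : ℤ) f : ℤ) : ℂ)‖ ≤
        (9 / 10 : ℝ) * (PP (yA a X)).card := by
      by_contra hcon
      exact hbad ⟨ψ, hne, not_le.1 hcon⟩
    exact hy0 (yA a X) g2 ψ f hf hfM h1 k hk hkc ξ (hξ.trans g3)

end Pool.Agent.H52.W.CG2
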