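import Pool.Agent.H52.W.CG2.Stubs

set_option autoImplicit false

/-! Task PAIR: pairs of sets by their intersection. -/

namespace Pool.Agent.H52.W.CG2

variable [Lam]

open Finset Filter NumberField Pool.Agent.H38R2.CG
open scoped Classical

theorem T2_PAIR : P2_PAIR := by
  intro P k A hA
  have e1 : ∑ s ∈ P.powersetCard k, ∑ t ∈ P.powersetCard k, A (s ∩ t) (s \ t) (t \ s) =
      ∑ x ∈ P.powersetCard k ×ˢ P.powersetCard k, A (x.1 ∩ x.2) (x.1 \ x.2) (x.2 \ x.1) := by
    rw [Finset.sum_product]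
  have e2 : ∑ c ∈ P.powerset.filter (fun c => c.card ≤ k), ∑ s ∈ P.powersetCard (k - c.card),
      ∑ t ∈ P.powersetCard (k - c.card), A c s t =
      ∑ z ∈ (P.powerset.filter (fun c => c.card ≤ k)).sigma
        (fun c => P.powersetCard (k - c.card) ×ˢ P.powersetCard (k - c.card)),
        A z.1 z.2.1 z.2.2 := by
    rw [Finset.sum_sigma]
    refine Finset.sum_congr rfl (fun c _ => ?_)
    rw [Finset.sum_product]
  rw [e1, e2]
  set φ : Finset ℕ × Finset ℕ → (Σ _ : Finset ℕ, Finset ℕ × Finset ℕ) :=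
    fun x => ⟨x.1 ∩ x.2, (x.1 \ x.2, x.2 \ x.1)⟩ with hφ
  have hinj : Set.InjOn φ (P.powersetCard k ×ˢ P.powersetCard k : Finset _) := by
    rintro ⟨s, t⟩ _ ⟨s', t'⟩ _ h
    simp only [hφ, Sigma.mk.injEq, heq_eq_eq, Prod.mk.injEq] at h
    obtain ⟨h1, h2, h3⟩ := h
    have hs : s = s' := by
      rw [← Finset.sdiff_union_inter s t, h1, h2, Finset.sdiff_union_inter]
    have ht : t = t' := by
      rw [← Finset.sdiff_union_inter t s, Finset.inter_comm t s, h1, h3, Finset.inter_comm s' t',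
        Finset.sdiff_union_inter]
    rw [hs, ht]
  have e3 : ∑ x ∈ P.powersetCard k ×ˢ P.powersetCard k, A (x.1 ∩ x.2) (x.1 \ x.2) (x.2 \ x.1) =
      ∑ z ∈ (P.powersetCard k ×ˢ P.powersetCard k).image φ, A z.1 z.2.1 z.2.2 := by
    rw [Finset.sum_image hinj]
  rw [e3]
  apply Finset.sum_le_sum_of_subset_of_nonneg
  · intro z hz
    rw [Finset.mem_image] at hz
    obtain ⟨⟨s, t⟩, hst, rfl⟩ := hz
    rw [Finset.mem_product, Finset.mem_powersetCard, Finset.mem_powersetCard] at hst
    obtain ⟨⟨hs, hsk⟩, ht, htk⟩ := hst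
    simp only at hs hsk ht htk
    simp only [hφ, Finset.mem_sigma, Finset.mem_filter, Finset.mem_powerset, Finset.mem_product,
      Finset.mem_powersetCard]
    have h1 : (s ∩ t).card ≤ k := by
      rw [← hsk]; exact Finset.card_le_card Finset.inter_subset_left
    have h2 : (s \ t).card = k - (s ∩ t).card := by
      have := Finset.card_sdiff_add_card_inter s t
      omega
    have h3 : (t \ s).card = k - (s ∩ t).card := by
      have := Finset.card_sdiff_add_card_inter t s
      rw [Finset.inter_comm] at this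
      omega
    exact ⟨⟨Finset.inter_subset_left.trans hs, h1⟩,
      ⟨Finset.sdiff_subset.trans hs, h2⟩, ⟨Finset.sdiff_subset.trans ht, h3⟩⟩
  · rintro ⟨c, s, t⟩ hz _
    simp only [Finset.mem_sigma, Finset.mem_filter, Finset.mem_powerset, Finset.mem_product,
      Finset.mem_powersetCard] at hz
    exact hA c s t hz.1.1 hz.2.1.1 hz.2.2.1

end Pool.Agent.H52.W.CG2
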