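import Pool.Agent.H52.W.CG2.Stubs

/-! R1: dependence of the number of roots on `d` (helper303). -/

set_option autoImplicit false

namespace Pool.Agent.H52.W.CG2

variable [Lam]

open Finset Filter NumberField Pool.Agent.H38R2.CG
open scoped Classical

namespace R1h

/-- number of square roots of `c` modulo `m` -/
noncomputable def N (m c : ℕ) : ℕ := ((Finset.range m).filter (fun u => u ^ 2 ≡ c [MOD m])).card

/-- counting with the Chinese remainder theorem -/
theorem split {a b : ℕ} (h : Nat.Coprime a b) (ha : 0 < a) (hb : 0 < b) (P R : ℕ → Prop)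
    [DecidablePred P] [DecidablePred R] [DecidablePred fun u => P u ∧ R u]
    (hP : ∀ u, P u ↔ P (u % a)) (hR : ∀ u, R u ↔ R (u % b)) :
    ((Finset.range (a * b)).filter (fun u => P u ∧ R u)).card =
      ((Finset.range a).filter P).card * ((Finset.range b).filter R).card := by
  rw [← Finset.card_product]
  apply Finset.card_bij' (fun u _ => (u % a, u % b)) (fun x _ => (Nat.chineseRemainder h x.1 x.2 : ℕ))
  · intro u hu
    rw [Finset.mem_filter, Finset.mem_range] at hu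
    rw [Finset.mem_product, Finset.mem_filter, Finset.mem_filter, Finset.mem_range, Finset.mem_range]
    exact ⟨⟨Nat.mod_lt _ ha, (hP u).1 hu.2.1⟩, Nat.mod_lt _ hb, (hR u).1 hu.2.2⟩
  · intro x hx
    rw [Finset.mem_product, Finset.mem_filter, Finset.mem_filter, Finset.mem_range, Finset.mem_range] at hx
    obtain ⟨⟨h1, h2⟩, h3, h4⟩ := hx
    have e := (Nat.chineseRemainder h x.1 x.2).2
    rw [Finset.mem_filter, Finset.mem_range]
    refine ⟨Nat.chineseRemainder_lt_mul h _ _ ha.ne' hb.ne', ?_, ?_⟩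
    · rw [hP, (show (Nat.chineseRemainder h x.1 x.2 : ℕ) % a = x.1 % a from e.1), ← hP]; exact h2
    · rw [hR, (show (Nat.chineseRemainder h x.1 x.2 : ℕ) % b = x.2 % b from e.2), ← hR]; exact h4
  · intro u hu
    rw [Finset.mem_filter, Finset.mem_range] at hu
    have e := (Nat.chineseRemainder h (u % a) (u % b)).2
    have e1 : (Nat.chineseRemainder h (u % a) (u % b) : ℕ) ≡ u [MOD a * b] :=
      (Nat.modEq_and_modEq_iff_modEq_mul h).1 ⟨e.1.trans (Nat.mod_modEq u a), e.2.trans (Nat.mod_modEq u b)⟩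
    exact Nat.ModEq.eq_of_lt_of_lt e1 (Nat.chineseRemainder_lt_mul h _ _ ha.ne' hb.ne') hu.1
  · intro x hx
    rw [Finset.mem_product, Finset.mem_filter, Finset.mem_filter, Finset.mem_range, Finset.mem_range] at hx
    obtain ⟨⟨h1, h2⟩, h3, h4⟩ := hx
    have e := (Nat.chineseRemainder h x.1 x.2).2
    ext
    · show (Nat.chineseRemainder h x.1 x.2 : ℕ) % a = x.1
      rw [(show (Nat.chineseRemainder h x.1 x.2 : ℕ) % a = x.1 % a from e.1), Nat.mod_eq_of_lt h1]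
    · show (Nat.chineseRemainder h x.1 x.2 : ℕ) % b = x.2
      rw [(show (Nat.chineseRemainder h x.1 x.2 : ℕ) % b = x.2 % b from e.2), Nat.mod_eq_of_lt h3]

/-- Hensel's lemma -/
theorem N_succ {p j c : ℕ} (hp : p.Prime) (hp2 : p ≠ 2) (hc : ¬ p ∣ c) (hj : 1 ≤ j) :
    N (p ^ (j + 1)) c = N (p ^ j) c := by
  have hppos : 0 < p := hp.pos
  unfold N
  symm
  have hpz : Prime (p : ℤ) := Nat.prime_iff_prime_int.1 hp
  -- a root is not divisible by p
  have hroot : ∀ u i : ℕ, 1 ≤ i → u ^ 2 ≡ c [MOD p ^ i] → ¬ p ∣ u := by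
    intro u i hi h1 h2
    apply hc
    have h3 : u ^ 2 ≡ c [MOD p] := h1.of_dvd (dvd_pow_self p (by omega))
    exact (h3.dvd_iff dvd_rfl).1 (h2.trans (dvd_pow_self u two_ne_zero))
  apply Eq.symm
  apply Finset.card_bij (fun u _ => u % p ^ j)
  · intro u hu
    rw [Finset.mem_filter, Finset.mem_range] at hu ⊢
    refine ⟨Nat.mod_lt _ (pow_pos hppos j), ?_⟩
    exact ((Nat.mod_modEq u (p ^ j)).pow 2).trans (hu.2.of_dvd (pow_dvd_pow p (by omega)))
  · intro u hu u' hu' huu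
    rw [Finset.mem_filter, Finset.mem_range] at hu hu'
    have h1 : (p : ℤ) ^ (j + 1) ∣ ((u : ℤ) - u') * (u + u') := by
      have h2 : u ^ 2 ≡ u' ^ 2 [MOD p ^ (j + 1)] := hu.2.trans hu'.2.symm
      have h3 := (Nat.modEq_iff_dvd.1 h2.symm)
      push_cast at h3
      have : ((u : ℤ) - u') * (u + u') = (u : ℤ) ^ 2 - (u' : ℤ) ^ 2 := by ring
      rw [this]; exact h3
    have h4 : ¬ (p : ℤ) ∣ (u : ℤ) + u' := by
      intro h5
      have h6 : (p : ℤ) ∣ (u : ℤ) - u' := by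
        have h7 : (u' : ℕ) ≡ u [MOD p ^ j] := (show u % p ^ j = u' % p ^ j from huu).symm
        have h8 := (Nat.modEq_iff_dvd.1 h7)
        push_cast at h8
        exact (dvd_pow_self (p : ℤ) (by omega)).trans h8
      have h9 : (p : ℤ) ∣ 2 * u := by
        have := dvd_add h5 h6
        have e : (u : ℤ) + u' + (u - u') = 2 * u := by ring
        rwa [e] at this
      rcases hpz.dvd_or_dvd h9 with h10 | h10
      · have h11 : p ∣ 2 := by exact_mod_cast h10
        exact hp2 ((Nat.prime_dvd_prime_iff_eq hp Nat.prime_two).1 h11)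
      · exact hroot u (j + 1) (by omega) hu.2 (by exact_mod_cast h10)
    have h5 : IsCoprime ((p : ℤ) ^ (j + 1)) ((u : ℤ) + u') :=
      IsCoprime.pow_left ((Prime.coprime_iff_not_dvd hpz).2 h4)
    have h6 : (p : ℤ) ^ (j + 1) ∣ (u : ℤ) - u' := h5.dvd_of_dvd_mul_right h1
    have h7 : u' ≡ u [MOD p ^ (j + 1)] := by
      rw [Nat.modEq_iff_dvd]; push_cast; exact h6
    exact (Nat.ModEq.eq_of_lt_of_lt h7 hu'.1 hu.1).symm
  · intro u hu
    rw [Finset.mem_filter, Finset.mem_range] at hu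
    haveI : Fact p.Prime := ⟨hp⟩
    -- u² = c + p^j k
    have h1 := Nat.modEq_iff_dvd.1 hu.2
    obtain ⟨k, hk⟩ := h1
    push_cast at hk
    have hu0 : ¬ p ∣ u := hroot u j hj hu.2
    have h2u : ((2 * u : ℕ) : ZMod p) ≠ 0 := by
      rw [Ne, ZMod.natCast_eq_zero_iff]
      intro h
      rcases hp.dvd_mul.1 h with h | h
      · exact hp2 ((Nat.prime_dvd_prime_iff_eq hp Nat.prime_two).1 h)
      · exact hu0 h
    -- t with p | 2 u t - k
    set t : ℕ := (((k : ℤ) : ZMod p) * ((2 * u : ℕ) : ZMod p)⁻¹).val with ht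
    have htk : (p : ℤ) ∣ 2 * u * t - k := by
      rw [← ZMod.intCast_zmod_eq_zero_iff_dvd]
      push_cast
      rw [ht, ZMod.natCast_val, ZMod.cast_id']
      simp only [id]
      have e : (2 : ZMod p) * (u : ZMod p) = ((2 * u : ℕ) : ZMod p) := by push_cast; ring
      rw [e, mul_comm (((k : ℤ) : ZMod p)), ← mul_assoc, mul_inv_cancel₀ h2u, one_mul, sub_self]
    refine ⟨(u + p ^ j * t) % p ^ (j + 1), ?_, ?_⟩
    · rw [Finset.mem_filter, Finset.mem_range]
      refine ⟨Nat.mod_lt _ (pow_pos hppos _), ?_⟩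
      refine ((Nat.mod_modEq _ _).pow 2).trans ?_
      apply Nat.ModEq.symm
      rw [Nat.modEq_iff_dvd]
      push_cast
      obtain ⟨q, hq⟩ := htk
      obtain ⟨i, rfl⟩ : ∃ i, j = i + 1 := ⟨j - 1, by omega⟩
      refine ⟨q + (p : ℤ) ^ i * t ^ 2, ?_⟩
      have e1 : (u : ℤ) ^ 2 = c - (p : ℤ) ^ (i + 1) * k := by linarith
      have e2 : ((u : ℤ) + (p : ℤ) ^ (i + 1) * t) ^ 2 - c =
          (u : ℤ) ^ 2 - c + (p : ℤ) ^ (i + 1) * (2 * u * t) + (p : ℤ) ^ (i + 1) * (p : ℤ) ^ (i + 1) * t ^ 2 := by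
        ring
      rw [e2, e1]
      have e3 : (2 : ℤ) * u * t = k + p * q := by linarith
      rw [e3]
      ring
    · show (u + p ^ j * t) % p ^ (j + 1) % p ^ j = u
      rw [Nat.mod_mod_of_dvd _ (pow_dvd_pow p (by omega)), Nat.add_mul_mod_self_left, Nat.mod_eq_of_lt hu.1]

theorem N_prime {p c : ℕ} (hp : p.Prime) (hp2 : p ≠ 2) (hc : ¬ p ∣ c) :
    (N p c : ℤ) = 1 + jacobiSym (c : ℤ) p := by
  haveI : Fact p.Prime := ⟨hp⟩
  rw [← jacobiSym.legendreSym.to_jacobiSym, add_comm, ← legendreSym.card_sqrts p hp2 (c : ℤ)]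
  congr 1
  unfold N
  apply Finset.card_bij (fun (u : ℕ) _ => (u : ZMod p))
  · intro u hu
    rw [Finset.mem_filter, Finset.mem_range] at hu
    rw [Set.mem_toFinset, Set.mem_setOf_eq]
    have := (ZMod.natCast_eq_natCast_iff _ _ _).2 hu.2
    push_cast at this ⊢
    exact this
  · intro u hu u' hu' h
    rw [Finset.mem_filter, Finset.mem_range] at hu hu'
    exact Nat.ModEq.eq_of_lt_of_lt ((ZMod.natCast_eq_natCast_iff _ _ _).1 h) hu.1 hu'.1
  · intro x hx
    rw [Set.mem_toFinset, Set.mem_setOf_eq] at hx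
    refine ⟨x.val, ?_, by simp⟩
    rw [Finset.mem_filter, Finset.mem_range]
    refine ⟨ZMod.val_lt x, ?_⟩
    rw [← ZMod.natCast_eq_natCast_iff]
    push_cast at hx ⊢
    rw [ZMod.natCast_val, ZMod.cast_id']
    exact hx

theorem N_pow {p c : ℕ} (hp : p.Prime) (hp2 : p ≠ 2) (hc : ¬ p ∣ c) (j : ℕ) (hj : 1 ≤ j) :
    N (p ^ j) c = N p c := by
  induction j, hj using Nat.le_induction with
  | base => rw [pow_one]
  | succ j hj ih => rw [N_succ hp hp2 hc hj, ih]

theorem Qz_pos (z : ℕ) : 0 < Qz z := by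
  unfold Qz
  refine Nat.mul_pos (by norm_num) (Finset.prod_pos fun l hl => ?_)
  exact pow_pos (Finset.mem_filter.1 hl).2.pos 2

theorem two_dvd_Qz (z : ℕ) : 2 ∣ Qz z := by
  unfold Qz
  exact Dvd.dvd.mul_right (by norm_num) _

theorem modEq_mod_sq {m M c u : ℕ} (h : m ∣ M) : u ^ 2 ≡ c [MOD m] ↔ (u % M) ^ 2 ≡ c [MOD m] := by
  have h1 : (u % M) ^ 2 ≡ u ^ 2 [MOD m] := ((Nat.mod_modEq u M).pow 2).of_dvd h
  exact ⟨fun h2 => h1.trans h2, fun h2 => h1.symm.trans h2⟩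

theorem step (z r n v d' p : ℕ) (hn : 1 ≤ n) (hv : 1 ≤ v) (hp : p.Prime) (hpQ : ¬ p ∣ Qz z)
    (hpn : ¬ p ∣ n) (hpd : ¬ p ∣ d') (hd : 1 ≤ d') :
    (RR z r n v (p * d') : ℝ) = (RR z r n v d' : ℝ) * (if p ∣ v then 1 else (1 + (jacobiSym (n : ℤ) p : ℝ))) := by
  have hp2 : p ≠ 2 := by
    rintro rfl; exact hpQ (two_dvd_Qz z)
  have hc : ¬ p ∣ 4 * n := by
    intro h
    rcases hp.dvd_mul.1 h with h | h
    · have h1 : p ∣ 2 ^ 2 := by simpa using h
      exact hp2 ((Nat.prime_dvd_prime_iff_eq hp Nat.prime_two).1 (hp.dvd_of_dvd_pow h1))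
    · exact hpn h
  obtain ⟨e, w, hw, rfl⟩ : ∃ e w, ¬ p ∣ w ∧ v = p ^ e * w := by
    obtain ⟨e, w, hw, h⟩ := Nat.exists_eq_pow_mul_and_not_dvd (show v ≠ 0 by omega) p hp.ne_one
    exact ⟨e, w, hw, h⟩
  have hw0 : 0 < w := by
    rcases Nat.eq_zero_or_pos w with h | h
    · rw [h] at hv; simp at hv
    · exact h
  have hQ := Qz_pos z
  have hcopw : ∀ j, Nat.Coprime (Qz z * w ^ 2) (p ^ j) := by
    intro j
    apply Nat.Coprime.pow_right
    apply Nat.Coprime.symm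
    rw [Nat.Prime.coprime_iff_not_dvd hp]
    intro h
    rcases hp.dvd_mul.1 h with h | h
    · exact hpQ h
    · exact hw (hp.dvd_of_dvd_pow h)
  have hcopd : ∀ j, Nat.Coprime (d' * w ^ 2) (p ^ j) := by
    intro j
    apply Nat.Coprime.pow_right
    apply Nat.Coprime.symm
    rw [Nat.Prime.coprime_iff_not_dvd hp]
    intro h
    rcases hp.dvd_mul.1 h with h | h
    · exact hpd h
    · exact hw (hp.dvd_of_dvd_pow h)
  have hcopA : ∀ j, Nat.Coprime (Qz z * (d' * w ^ 2)) (p ^ j) := by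
    intro j
    apply Nat.Coprime.mul_left _ (hcopd j)
    exact (hcopw j).coprime_dvd_left (Dvd.intro _ rfl)
  have hApos : 0 < Qz z * (d' * w ^ 2) := by positivity
  -- the predicate away from p
  set P : ℕ → Prop := fun u => u ^ 2 ≡ 4 * n + r * (p ^ e * w) ^ 2 [MOD Qz z * w ^ 2] ∧
    u ^ 2 ≡ 4 * n [MOD d' * w ^ 2] with hP
  have hPper : ∀ u, P u ↔ P (u % (Qz z * (d' * w ^ 2))) := by
    intro u
    simp only [hP]
    rw [modEq_mod_sq (M := Qz z * (d' * w ^ 2)) (m := Qz z * w ^ 2) ⟨d', by ring⟩,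
      modEq_mod_sq (M := Qz z * (d' * w ^ 2)) (m := d' * w ^ 2) ⟨Qz z, by ring⟩]
  have hRper : ∀ j u, u ^ 2 ≡ 4 * n [MOD p ^ j] ↔ (u % p ^ j) ^ 2 ≡ 4 * n [MOD p ^ j] := by
    intro j u
    exact modEq_mod_sq dvd_rfl
  have hmodr : 4 * n + r * (p ^ e * w) ^ 2 ≡ 4 * n [MOD p ^ (2 * e)] := by
    have h1 : r * (p ^ e * w) ^ 2 ≡ 0 [MOD p ^ (2 * e)] := by
      rw [Nat.modEq_zero_iff_dvd]
      exact ⟨r * w ^ 2, by rw [mul_pow, ← pow_mul, mul_comm e 2]; ring⟩
    simpa using h1.add_left (4 * n)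
  have hC1 : ∀ u, u ^ 2 ≡ 4 * n + r * (p ^ e * w) ^ 2 [MOD Qz z * (p ^ e * w) ^ 2] ↔
      (u ^ 2 ≡ 4 * n + r * (p ^ e * w) ^ 2 [MOD Qz z * w ^ 2] ∧ u ^ 2 ≡ 4 * n [MOD p ^ (2 * e)]) := by
    intro u
    have e1 : Qz z * (p ^ e * w) ^ 2 = (Qz z * w ^ 2) * p ^ (2 * e) := by
      rw [mul_pow, ← pow_mul, mul_comm e 2]; ring
    rw [e1, ← Nat.modEq_and_modEq_iff_modEq_mul (hcopw (2 * e))]
    constructor
    · rintro ⟨h1, h2⟩; exact ⟨h1, h2.trans hmodr⟩
    · rintro ⟨h1, h2⟩; exact ⟨h1, h2.trans hmodr.symm⟩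
  have hC2 : ∀ u, u ^ 2 ≡ 4 * n [MOD d' * (p ^ e * w) ^ 2] ↔
      (u ^ 2 ≡ 4 * n [MOD d' * w ^ 2] ∧ u ^ 2 ≡ 4 * n [MOD p ^ (2 * e)]) := by
    intro u
    have e1 : d' * (p ^ e * w) ^ 2 = (d' * w ^ 2) * p ^ (2 * e) := by
      rw [mul_pow, ← pow_mul, mul_comm e 2]; ring
    rw [e1, ← Nat.modEq_and_modEq_iff_modEq_mul (hcopd (2 * e))]
  have hC3 : ∀ u, u ^ 2 ≡ 4 * n [MOD p * d' * (p ^ e * w) ^ 2] ↔
      (u ^ 2 ≡ 4 * n [MOD d' * w ^ 2] ∧ u ^ 2 ≡ 4 * n [MOD p ^ (2 * e + 1)]) := by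
    intro u
    have e1 : p * d' * (p ^ e * w) ^ 2 = (d' * w ^ 2) * p ^ (2 * e + 1) := by
      rw [mul_pow, ← pow_mul, mul_comm e 2, pow_succ]; ring
    rw [e1, ← Nat.modEq_and_modEq_iff_modEq_mul (hcopd (2 * e + 1))]
  have hRR1 : RR z r n (p ^ e * w) d' =
      ((Finset.range (Qz z * (d' * w ^ 2))).filter P).card * N (p ^ (2 * e)) (4 * n) := by
    unfold RR N
    rw [← split (hcopA (2 * e)) hApos (pow_pos hp.pos _) P (fun u => u ^ 2 ≡ 4 * n [MOD p ^ (2 * e)])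
      hPper (hRper (2 * e))]
    congr 1
    have e1 : Qz z * (d' * (p ^ e * w) ^ 2) = Qz z * (d' * w ^ 2) * p ^ (2 * e) := by
      rw [mul_pow, ← pow_mul, mul_comm e 2]; ring
    rw [e1]
    apply Finset.filter_congr
    intro u _
    rw [hC1, hC2]
    simp only [hP]
    tauto
  have hRR2 : RR z r n (p ^ e * w) (p * d') =
      ((Finset.range (Qz z * (d' * w ^ 2))).filter P).card * N (p ^ (2 * e + 1)) (4 * n) := by
    unfold RR N
    rw [← split (hcopA (2 * e + 1)) hApos (pow_pos hp.pos _) P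
      (fun u => u ^ 2 ≡ 4 * n [MOD p ^ (2 * e + 1)]) hPper (hRper (2 * e + 1))]
    congr 1
    have e1 : Qz z * (p * d' * (p ^ e * w) ^ 2) = Qz z * (d' * w ^ 2) * p ^ (2 * e + 1) := by
      rw [mul_pow, ← pow_mul, mul_comm e 2, pow_succ]; ring
    rw [e1]
    apply Finset.filter_congr
    intro u _
    rw [hC1, hC3]
    simp only [hP]
    have h2 : u ^ 2 ≡ 4 * n [MOD p ^ (2 * e + 1)] → u ^ 2 ≡ 4 * n [MOD p ^ (2 * e)] :=
      fun h => h.of_dvd (pow_dvd_pow p (by omega))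
    tauto
  rw [hRR1, hRR2]
  have hjac : ((N p (4 * n) : ℕ) : ℝ) = 1 + (jacobiSym (n : ℤ) p : ℝ) := by
    have h1 := N_prime hp hp2 hc
    have h2 : jacobiSym ((4 * n : ℕ) : ℤ) p = jacobiSym (n : ℤ) p := by
      push_cast
      rw [jacobiSym.mul_left]
      have h4 : jacobiSym (4 : ℤ) p = 1 := by
        have : (4 : ℤ) = 2 ^ 2 := by norm_num
        rw [this]
        apply jacobiSym.sq_one'
        rw [Int.gcd_eq_natAbs]
        exact ((Nat.coprime_primes hp Nat.prime_two).2 hp2).symm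
      rw [h4, one_mul]
    rw [h2] at h1
    exact_mod_cast h1
  rcases Nat.eq_zero_or_pos e with he | he
  · subst he
    have hnv : ¬ p ∣ p ^ 0 * w := by simpa using hw
    rw [if_neg hnv]
    have hN1 : N (p ^ (2 * 0)) (4 * n) = 1 := by
      unfold N
      have : (Finset.range (p ^ (2 * 0))).filter (fun u => u ^ 2 ≡ 4 * n [MOD p ^ (2 * 0)]) = {0} := by
        ext u
        simp [Nat.modEq_one]
      rw [this, Finset.card_singleton]
    rw [hN1, show 2 * 0 + 1 = 1 by norm_num, pow_one]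
    push_cast
    rw [hjac]; ring
  · have hdv : p ∣ p ^ e * w := (dvd_pow_self p (by omega)).mul_right w
    rw [if_pos hdv, N_pow hp hp2 hc (2 * e + 1) (by omega), N_pow hp hp2 hc (2 * e) (by omega), mul_one]

end R1h

open R1h in
theorem T2_R1 : P2_R1 := by
  intro z r n v d hn hv hsq hdQ hdn
  have key : ∀ S : Finset ℕ, (∀ p ∈ S, p.Prime ∧ ¬ p ∣ Qz z ∧ ¬ p ∣ n) →
      (RR z r n v (∏ p ∈ S, p) : ℝ) = (rho z r n v : ℝ) *
        ∏ p ∈ S.filter (fun p => ¬ p ∣ v), (1 + (jacobiSym (n : ℤ) p : ℝ)) := by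
    intro S
    induction S using Finset.induction_on with
    | empty =>
      intro _
      simp only [Finset.prod_empty, Finset.filter_empty, mul_one]
      congr 1
      unfold RR rho
      rw [one_mul]
      congr 1
      apply Finset.filter_congr
      intro u _
      constructor
      · exact fun h => h.1
      · intro h
        refine ⟨h, ?_⟩
        have h1 : u ^ 2 ≡ 4 * n + r * v ^ 2 [MOD v ^ 2] := h.of_dvd (Dvd.intro_left _ rfl)
        refine h1.trans ?_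
        have h2 : r * v ^ 2 ≡ 0 [MOD v ^ 2] := by
          rw [Nat.modEq_zero_iff_dvd]; exact Dvd.intro_left _ rfl
        simpa using h2.add_left (4 * n)
    | insert p S hpS ih =>
      intro hS
      obtain ⟨hp, hpQ, hpn⟩ := hS p (Finset.mem_insert_self p S)
      have hS' : ∀ q ∈ S, q.Prime ∧ ¬ q ∣ Qz z ∧ ¬ q ∣ n := fun q hq => hS q (Finset.mem_insert_of_mem hq)
      have hpd : ¬ p ∣ ∏ q ∈ S, q := by
        intro h
        obtain ⟨q, hq, hpq⟩ := (Prime.dvd_finset_prod_iff hp.prime _).1 h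
        rw [(Nat.prime_dvd_prime_iff_eq hp (hS' q hq).1).1 hpq] at hpS
        exact hpS hq
      have hd1 : 1 ≤ ∏ q ∈ S, q := Finset.prod_pos fun q hq => (hS' q hq).1.pos
      rw [Finset.prod_insert hpS, step z r n v _ p hn hv hp hpQ hpn hpd hd1, ih hS', Finset.filter_insert]
      split_ifs with h1
      · rw [mul_one]
      · rw [Finset.prod_insert (by simp [hpS])]
        ring
  have h1 := key d.primeFactors (by
    intro p hp
    have hpp := Nat.prime_of_mem_primeFactors hp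
    have hpd := Nat.dvd_of_mem_primeFactors hp
    refine ⟨hpp, ?_, ?_⟩
    · intro h
      have := Nat.dvd_gcd hpd h
      rw [hdQ] at this
      exact hpp.one_lt.ne' (Nat.dvd_one.1 this)
    · intro h
      have := Nat.dvd_gcd hpd h
      rw [hdn] at this
      exact hpp.one_lt.ne' (Nat.dvd_one.1 this))
  rw [Nat.prod_primeFactors_of_squarefree hsq] at h1
  exact h1

end Pool.Agent.H52.W.CG2
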