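import Pool.Agent.H52.W.CG2.Stubs

/-! Task RC (helper25): residues coprime to the odd primes up to `z`. -/

namespace Pool.Agent.H52.W.CG2

variable [Lam]

open Finset Filter NumberField Pool.Agent.H38R2.CG
open scoped Classical

namespace RCh

theorem cnt (P k : ℕ) :
    ((Finset.range (P * k)).filter (fun r => P.Coprime r)).card = k * Nat.totient P := by
  induction k with
  | zero => simp
  | succ k ih =>
    have h1 : Finset.range (P * (k + 1)) = Finset.range (P * k) ∪ Finset.Ico (P * k) (P * k + P) := by
      ext x
      simp only [Finset.mem_range, Finset.mem_union, Finset.mem_Ico, Nat.mul_succ]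
      omega
    have h2 : Disjoint (Finset.range (P * k)) (Finset.Ico (P * k) (P * k + P)) := by
      rw [Finset.disjoint_left]
      intro x hx hx'
      have a1 := Finset.mem_range.1 hx
      have a2 := (Finset.mem_Ico.1 hx').1
      omega
    rw [h1, Finset.filter_union, Finset.card_union_of_disjoint
      (Finset.disjoint_filter_filter h2), ih]
    have h3 := Nat.filter_coprime_Ico_eq_totient P (P * k)
    have h4 : ((Finset.Ico (P * k) (P * k + P)).filter (fun r => P.Coprime r)).card =
        Nat.totient P := by
      rw [← h3]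
    rw [h4]
    ring

end RCh

theorem T2_RC : P2_RC := by
  intro z
  set S := (Finset.Icc 3 z).filter Nat.Prime with hS
  have hSp : ∀ q ∈ S, Nat.Prime q := fun q hq => (Finset.mem_filter.1 hq).2
  set P := ∏ q ∈ S, q with hP
  have hQ : Qz z = P * (16 * P) := by
    unfold Qz
    rw [hP, ← hS, Finset.prod_pow]
    ring
  have hf : P.primeFactors = S := by
    rw [hP]
    exact Nat.primeFactors_prod hSp
  have hiff : ∀ r : ℕ, (∀ q ∈ S, ¬ q ∣ r) ↔ P.Coprime r := by
    intro r
    rw [hP, Nat.coprime_prod_left_iff]
    refine forall₂_congr fun q hq => ?_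
    exact ((hSp q hq).coprime_iff_not_dvd).symm
  have hcard : ((Finset.range (Qz z)).filter (fun r => ∀ q ∈ S, ¬ q ∣ r)).card =
      16 * P * Nat.totient P := by
    have h1 : (Finset.range (Qz z)).filter (fun r => ∀ q ∈ S, ¬ q ∣ r) =
        (Finset.range (P * (16 * P))).filter (fun r => P.Coprime r) := by
      rw [hQ]
      exact Finset.filter_congr fun r _ => hiff r
    rw [h1]
    exact RCh.cnt P (16 * P)
  have h2 := Nat.totient_eq_mul_prod_factors P
  rw [hf] at h2
  have h3 : ((Nat.totient P : ℕ) : ℝ) = P * ∏ q ∈ S, (1 - (1 : ℝ) / q) := by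
    have h4 := congrArg (fun x : ℚ => (x : ℝ)) h2
    push_cast at h4
    rw [h4]
    simp only [one_div]
  calc _ = ((16 * P * Nat.totient P : ℕ) : ℝ) := by
        rw [← hcard]
        congr!
    _ = _ := by
        rw [hQ]
        push_cast
        rw [h3]
        ring

end Pool.Agent.H52.W.CG2
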