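import Pool.Agent.H52.W.CG2.Stubs

set_option autoImplicit false

namespace Pool.Agent.H52.W.CG2

variable [Lam]

open Finset Filter NumberField Pool.Agent.H38R2.CG
open scoped Classical

namespace SZh

theorem cc_pos {a : ℝ} (ha : 2 < a) : 0 < cc a := by
  exact ccpos (by assumption)

theorem cc_le {a : ℝ} (ha : 2 < a) : cc a ≤ 1 / 32 := by
  have h32 := cclt (a := a) (by assumption)
  linarith

theorem th_pos {a : ℝ} (ha : 2 < a) : 0 < th a := by
  unfold th
  have := cc_le ha
  linarith

theorem th_le {a : ℝ} (ha : 2 < a) : th a ≤ 1 := by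
  unfold th
  have := cc_pos ha
  linarith

theorem tendsto_log : Tendsto (fun X : ℕ => Real.log (X : ℝ)) atTop atTop :=
  Real.tendsto_log_atTop.comp tendsto_natCast_atTop_atTop

theorem tendsto_yA {a : ℝ} (ha : 2 < a) : Tendsto (fun X : ℕ => (yA a X : ℝ)) atTop atTop := by
  have h1 : Tendsto (fun X : ℕ => (Real.log X) ^ a / 4) atTop atTop :=
    ((tendsto_rpow_atTop (by linarith)).comp tendsto_log).atTop_div_const (by norm_num)
  exact tendsto_natCast_atTop_atTop.comp (tendsto_nat_floor_atTop.comp h1)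

theorem ev {a : ℝ} (ha : 2 < a) : ∀ᶠ X : ℕ in atTop, 2 / cc a ≤ Real.log (yA a X) ∧
    Real.log (yA a X) + Real.log 2 ≤ cc a / 2 * Real.log X ∧ 1 ≤ Real.log X := by
  have hc := cc_pos ha
  have h1 : ∀ᶠ X : ℕ in atTop, max 1 (2 / cc a) ≤ Real.log (yA a X) :=
    (Real.tendsto_log_atTop.comp (tendsto_yA ha)).eventually_ge_atTop _
  have h2 : ∀ᶠ X : ℕ in atTop, max 1 (4 / cc a) ≤ Real.log (X : ℝ) :=
    tendsto_log.eventually_ge_atTop _
  have h3 : ∀ᶠ L : ℝ in atTop, Real.log L ≤ (cc a / (4 * a)) * L := by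
    have h := Real.isLittleO_log_id_atTop.bound (show (0:ℝ) < cc a / (4 * a) by positivity)
    filter_upwards [h, eventually_ge_atTop 1] with L hL hL1
    simp only [id_eq, Real.norm_eq_abs] at hL
    rw [abs_of_nonneg (by linarith : (0:ℝ) ≤ L)] at hL
    exact (le_abs_self _).trans hL
  have h4 := tendsto_log.eventually h3
  filter_upwards [h1, h2, h4] with X a1 a2 a3
  have b1 : 1 ≤ Real.log (yA a X) := (le_max_left _ _).trans a1
  have b2 : 1 ≤ Real.log (X : ℝ) := (le_max_left _ _).trans a2
  have b3 : 4 / cc a ≤ Real.log (X : ℝ) := (le_max_right _ _).trans a2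
  refine ⟨(le_max_right _ _).trans a1, ?_, b2⟩
  have hy0 : (0:ℝ) < yA a X := by
    by_contra hcon
    push Not at hcon
    have h0 : (yA a X : ℝ) = 0 := le_antisymm hcon (Nat.cast_nonneg _)
    rw [h0, Real.log_zero] at b1
    norm_num at b1
  have hL : (0:ℝ) < Real.log X := by linarith
  have hy : (yA a X : ℝ) ≤ (Real.log X) ^ a := by
    have h5 : (yA a X : ℝ) ≤ (Real.log X) ^ a / 4 := Nat.floor_le (by positivity)
    have h6 : 0 ≤ (Real.log X) ^ a := by positivity
    linarith
  have h7 : Real.log (yA a X) ≤ a * Real.log (Real.log X) := by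
    have := Real.log_le_log hy0 hy
    rwa [Real.log_rpow hL] at this
  have h8 : Real.log 2 ≤ 1 := by
    have := Real.log_two_lt_d9
    linarith
  have h9 : a * Real.log (Real.log X) ≤ cc a / 4 * Real.log X := by
    have h10 : a * Real.log (Real.log X) ≤ a * (cc a / (4 * a) * Real.log X) :=
      mul_le_mul_of_nonneg_left a3 (by linarith)
    have h11 : a * (cc a / (4 * a) * Real.log X) = cc a / 4 * Real.log X := by
      field_simp
    linarith
  have h12 : 1 ≤ cc a / 4 * Real.log X := by
    rw [div_le_iff₀ hc] at b3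
    linarith
  linarith

end SZh

theorem T2_SZ : P2_SZ := by
  intro a ha
  obtain ⟨X0, hX0⟩ := Filter.eventually_atTop.mp (SZh.ev ha)
  refine ⟨X0, fun X hX c s hc hs hcs => ?_⟩
  obtain ⟨h1, h2, h3⟩ := hX0 X hX
  have hcc := SZh.cc_pos ha
  have hth := SZh.th_pos ha
  have hth1 := SZh.th_le ha
  unfold PA PP at hc hs
  set L := Real.log (X : ℝ) with hL
  set l := Real.log (yA a X : ℝ) with hl
  have hl0 : 0 < l := lt_of_lt_of_le (by positivity) h1
  have hX1 : (0:ℝ) < X := by
    by_contra hcon
    push Not at hcon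
    have h0 : (X : ℝ) = 0 := le_antisymm hcon (Nat.cast_nonneg _)
    rw [hL, h0, Real.log_zero] at h3
    norm_num at h3
  have hy0 : (0:ℝ) < yA a X := by
    by_contra hcon
    push Not at hcon
    have h0 : (yA a X : ℝ) = 0 := le_antisymm hcon (Nat.cast_nonneg _)
    rw [hl, h0, Real.log_zero] at hl0
    exact lt_irrefl _ hl0
  have hk1 : th a * L / l ≤ kA a X := by
    unfold kA
    push_cast
    exact (Nat.lt_floor_add_one _).le
  have hk2 : (kA a X : ℝ) ≤ th a * L / l + 1 := by
    unfold kA
    push_cast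
    have : (⌊th a * Real.log X / Real.log (yA a X)⌋₊ : ℝ) ≤ th a * L / l :=
      Nat.floor_le (by positivity)
    linarith
  have hpr : ∀ r : Finset ℕ, r ⊆ {p ∈ Finset.Ioc (yA a X) (2 * yA a X) | Nat.Prime p} →
      ∀ p ∈ r, (yA a X : ℝ) ≤ p ∧ (p : ℝ) ≤ 2 * yA a X := by
    intro r hr p hp
    have := hr hp
    rw [Finset.mem_filter, Finset.mem_Ioc] at this
    constructor
    · exact_mod_cast this.1.1.le
    · exact_mod_cast this.1.2
  have hprod : ∀ r : Finset ℕ, ((prodS r : ℕ) : ℝ) = ∏ p ∈ r, (p : ℝ) := by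
    intro r
    unfold prodS
    push_cast
    rfl
  have hlow : ∀ r : Finset ℕ, r ⊆ {p ∈ Finset.Ioc (yA a X) (2 * yA a X) | Nat.Prime p} →
      (yA a X : ℝ) ^ r.card ≤ prodS r := by
    intro r hr
    rw [hprod]
    calc (yA a X : ℝ) ^ r.card = ∏ p ∈ r, (yA a X : ℝ) := by rw [Finset.prod_const]
      _ ≤ ∏ p ∈ r, (p : ℝ) := Finset.prod_le_prod (fun _ _ => hy0.le) (fun p hp => (hpr r hr p hp).1)
  have hup : ∀ r : Finset ℕ, r ⊆ {p ∈ Finset.Ioc (yA a X) (2 * yA a X) | Nat.Prime p} →
      (prodS r : ℝ) ≤ (2 * yA a X : ℝ) ^ r.card := by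
    intro r hr
    rw [hprod]
    calc ∏ p ∈ r, (p : ℝ) ≤ ∏ p ∈ r, (2 * yA a X : ℝ) :=
          Finset.prod_le_prod (fun p hp => hy0.le.trans (hpr r hr p hp).1)
            (fun p hp => (hpr r hr p hp).2)
      _ = (2 * yA a X : ℝ) ^ r.card := by rw [Finset.prod_const]
  constructor
  · calc (X : ℝ) ^ (th a) = Real.exp (th a * L) := by
          rw [Real.rpow_def_of_pos hX1]; congr 1; ring
      _ ≤ Real.exp (kA a X * l) := by
          apply Real.exp_le_exp.mpr
          have : th a * L = th a * L / l * l := by field_simp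
          rw [this]
          exact mul_le_mul_of_nonneg_right hk1 hl0.le
      _ = (yA a X : ℝ) ^ (kA a X) := by
          rw [← Real.rpow_natCast, Real.rpow_def_of_pos hy0]; congr 1; ring
      _ = (yA a X : ℝ) ^ c.card * (yA a X : ℝ) ^ s.card := by rw [← hcs, pow_add]
      _ ≤ (prodS c : ℝ) * prodS s :=
          mul_le_mul (hlow c hc) (hlow s hs) (by positivity) (Nat.cast_nonneg _)
  · calc (prodS c : ℝ) * prodS s ≤ (2 * yA a X : ℝ) ^ c.card * (2 * yA a X : ℝ) ^ s.card :=
          mul_le_mul (hup c hc) (hup s hs) (Nat.cast_nonneg _) (by positivity)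
      _ = (2 * yA a X : ℝ) ^ (kA a X) := by rw [← hcs, pow_add]
      _ = Real.exp (kA a X * (Real.log 2 + l)) := by
          rw [← Real.rpow_natCast, Real.rpow_def_of_pos (by positivity),
            Real.log_mul (by norm_num) hy0.ne']
          congr 1; ring
      _ ≤ Real.exp ((th a * L / l + 1) * (Real.log 2 + l)) := by
          apply Real.exp_le_exp.mpr
          refine mul_le_mul_of_nonneg_right hk2 ?_
          have := Real.log_pos (show (1:ℝ) < 2 by norm_num)
          linarith
      _ ≤ Real.exp ((th a + cc a) * L) := by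
          apply Real.exp_le_exp.mpr
          have e : (th a * L / l + 1) * (Real.log 2 + l) =
              th a * L + (l + Real.log 2) + th a * L / l * Real.log 2 := by
            field_simp
            ring
          rw [e]
          have h5 : th a * L / l ≤ L * (cc a / 2) := by
            rw [div_le_iff₀ hl0]
            have h50 : 2 ≤ cc a * l := by
              rw [div_le_iff₀ hcc] at h1
              linarith
            have h51 : th a * L ≤ 1 * L := mul_le_mul_of_nonneg_right hth1 (by linarith)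
            have h52 : L * 2 ≤ L * (cc a * l) := mul_le_mul_of_nonneg_left h50 (by linarith)
            linarith
          have h6 : Real.log 2 ≤ 1 := by
            have := Real.log_two_lt_d9
            linarith
          have h7 : 0 ≤ Real.log 2 := (Real.log_pos (by norm_num)).le
          have h8 : th a * L / l * Real.log 2 ≤ L * (cc a / 2) * 1 :=
            mul_le_mul h5 h6 h7 (by positivity)
          linarith
      _ = (X : ℝ) ^ (th a + cc a) := by
          rw [Real.rpow_def_of_pos hX1]; congr 1; ring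

end Pool.Agent.H52.W.CG2
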